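import Mathlib.Topology.Sheaves.Presheaf
import Mathlib.Tactic.Monotonicity.Lemmas
import Mathlib.RingTheory.Flat.TorsionFree
import Mathlib.RingTheory.PicardGroup
import Mathlib.Algebra.Order.Star.Real
import Mathlib.Algebra.Ring.IsFormallyReal
import Mathlib.Analysis.Complex.Polynomial.Basic
import Mathlib.RingTheory.Finiteness.ModuleFinitePresentation
import Mathlib.Analysis.CStarAlgebra.Classes
import Mathlib.Analysis.Normed.Lp.lpSpace
import Mathlib.MeasureTheory.Group.Integral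
import Mathlib.Analysis.Calculus.ContDiff.FiniteDimension
import Mathlib.Analysis.Complex.LocallyUniformLimit
import Mathlib.Analysis.Complex.Schwarz
import Mathlib.Analysis.Complex.MeanValue
import Mathlib.Analysis.SpecialFunctions.Integrals.Basic
import Mathlib.Combinatorics.SimpleGraph.Basic
import Mathlib.Analysis.SpecialFunctions.PolarCoord
import Mathlib.RingTheory.RootsOfUnity.Complex
import Mathlib.RingTheory.PiTensorProduct
import Mathlib.RingTheory.SimpleRing.Principal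
import Mathlib.Order.CompletePartialOrder
import Mathlib.RingTheory.TotallySplit
import Mathlib.RingTheory.Etale.Weakly
import Mathlib.Tactic.Algebra.Basic

-- ======== part 0: formerly Pool.Agent.MP_54e5d7_al.atc.Defs
section MrgPart0

/-!
PROJECT ATC (a group with bounded torsion for which the strong Atiyah conjecture fails):
definitions.  See `/team-store/ATC_BLUEPRINT.md`.
-/

set_option autoImplicit false

open scoped ComplexConjugate ContDiff
open Matrix Set MeasureTheory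

namespace Pool.Agent.MP_54e5d7_al.Atc

noncomputable section

abbrev C2 : Type := ℂ × ℂ
abbrev V3 : Type := Fin 3 → ℂ

/-- squared Euclidean norm -/
def nsq (z : C2) : ℝ := ‖z.1‖ ^ 2 + ‖z.2‖ ^ 2

/-- the Euclidean ball of squared radius `r` -/
def Bl (r : ℝ) : Set C2 := {z | nsq z < r}

/-- the unit ball -/
abbrev B : Set C2 := Bl 1

/-- the hermitian form of signature `(2,1)` -/
def H (v w : V3) : ℂ := v 0 * conj (w 0) + v 1 * conj (w 1) - v 2 * conj (w 2)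

def hat (z : C2) : V3 := ![z.1, z.2, 1]

/-- `SU(2,1)` -/
def SU : Subgroup (SpecialLinearGroup (Fin 3) ℂ) where
  carrier := {g | ∀ v w, H (g.1 *ᵥ v) (g.1 *ᵥ w) = H v w}
  mul_mem' := by
    intro a b ha hb v w
    have h1 := ha (b.1 *ᵥ v) (b.1 *ᵥ w)
    rw [Matrix.mulVec_mulVec, Matrix.mulVec_mulVec, hb v w] at h1
    exact h1
  one_mem' := by
    intro v w
    simp
  inv_mem' := by
    intro a ha v w
    have h1 := ha (a⁻¹.1 *ᵥ v) (a⁻¹.1 *ᵥ w)
    have h2 : a.1 * a⁻¹.1 = 1 := by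
      have h3 : (a * a⁻¹).1 = 1 := by rw [mul_inv_cancel]; rfl
      exact h3
    rw [Matrix.mulVec_mulVec, Matrix.mulVec_mulVec, h2] at h1
    simpa using h1.symm

abbrev SU21 : Type := ↥SU

/-- action on vectors -/
def mv (g : SU21) (v : V3) : V3 := g.1.1 *ᵥ v

theorem mv_one (v : V3) : mv 1 v = v := by simp [mv]

theorem mv_mul (g h : SU21) (v : V3) : mv (g * h) v = mv g (mv h v) := by
  simp [mv, Matrix.mulVec_mulVec]

theorem H_mv (g : SU21) (v w : V3) : H (mv g v) (mv g w) = H v w := g.2 v w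

/-- the factor of automorphy -/
def jf (g : SU21) (z : C2) : ℂ := mv g (hat z) 2

/-- action on the ball -/
def act (g : SU21) (z : C2) : C2 := (mv g (hat z) 0 / jf g z, mv g (hat z) 1 / jf g z)

/-- the affine equation of the disc `x^⊥` -/
def ell (x : V3) (z : C2) : ℂ := H (hat z) x

/-- `cosh²` of the hyperbolic distance -/
def ch2 (z w : C2) : ℝ := ‖H (hat z) (hat w)‖ ^ 2 / ((1 - nsq z) * (1 - nsq w))

/-- density of the invariant measure -/
def rho (z : C2) : ℝ := ((1 - nsq z) ^ 3)⁻¹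

/-- the invariant measure -/
def mu : Measure C2 := (volume.restrict B).withDensity fun z => ENNReal.ofReal (rho z)

/-- stabiliser of a vector -/
def stab (x : V3) : Subgroup SU21 where
  carrier := {g | mv g x = x}
  mul_mem' := by
    intro a b ha hb
    show mv (a * b) x = x
    rw [mv_mul, hb, ha]
  one_mem' := mv_one x
  inv_mem' := by
    intro a ha
    show mv a⁻¹ x = x
    have h : mv a⁻¹ (mv a x) = x := by rw [← mv_mul, inv_mul_cancel, mv_one]
    rwa [ha] at h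

/-- loxodromic normal form -/
def Lox (g : SU21) : Prop :=
  ∃ (e f u : V3) (α β : ℂ), H e e = 0 ∧ H f f = 0 ∧ H e f = -1 ∧ H u u = 1 ∧ H e u = 0 ∧
    H f u = 0 ∧ 1 < ‖α‖ ∧ mv g e = α • e ∧ mv g f = (conj α)⁻¹ • f ∧ mv g u = β • u

/-- a torsion-free cocompact lattice -/
structure Lat (Γ : Subgroup SU21) : Prop where
  free : ∀ γ ∈ Γ, ∀ z ∈ B, act γ z = z → γ = 1
  proper : ∀ r < (1 : ℝ), {γ : SU21 | γ ∈ Γ ∧ act γ 0 ∈ Bl r}.Finite
  cocpt : ∃ r < (1 : ℝ), ∀ z ∈ B, ∃ γ ∈ Γ, act γ z ∈ Bl r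
  lox : ∀ γ ∈ Γ, γ ≠ 1 → Lox γ

/-- every nontrivial element moves every point far -/
def Deep (Γ : Subgroup SU21) (L : ℝ) : Prop :=
  ∀ γ ∈ Γ, γ ≠ 1 → ∀ z ∈ B, L ≤ ch2 z (act γ z)

/-- an invariant, locally finite, uniformly non-asymptotic family of discs `x^⊥` -/
structure Discs (Γ : Subgroup SU21) (X : Set V3) (ε : ℝ) : Prop where
  pos : 0 < ε
  unit : ∀ x ∈ X, H x x = 1
  inv : ∀ γ ∈ Γ, ∀ x ∈ X, mv γ x ∈ X
  sep : ∀ x ∈ X, ∀ y ∈ X, x ≠ y → ε ≤ |1 - ‖H x y‖ ^ 2|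
  lf : ∀ R : ℝ, {x | x ∈ X ∧ ‖x 2‖ ≤ R}.Finite

/-- the Levi form -/
def levi (ψ : C2 → ℝ) (z w : C2) : ℝ :=
  (fderiv ℝ (fderiv ℝ ψ) z w w +
    fderiv ℝ (fderiv ℝ ψ) z (Complex.I • w) (Complex.I • w)) / 4

/-- The divisor `∑ m x • x^⊥` is invariant and has an invariant metric whose curvature on `Bl r`
is at least `c` times the Euclidean form (`W` is the squared norm of the canonical section). -/
def Weight (Γ : Subgroup SU21) (X : Set V3) (m : V3 → ℕ) (r c : ℝ) : Prop :=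
  (∀ γ ∈ Γ, ∀ x ∈ X, m (mv γ x) = m x) ∧
  ∃ (W ψ : C2 → ℝ) (S : Finset V3), (∀ γ ∈ Γ, ∀ z ∈ B, W (act γ z) = W z) ∧
    (∀ x ∈ S, x ∈ X) ∧ (∀ x ∈ X, ∀ z ∈ Bl r, ell x z = 0 → x ∈ S) ∧
    ContDiffOn ℝ ∞ ψ (Bl r) ∧
    (∀ z ∈ Bl r, W z = Real.exp (ψ z) * ∏ x ∈ S, ‖ell x z‖ ^ (2 * m x)) ∧
    ∀ z ∈ Bl r, ∀ w : C2, levi ψ z w ≤ -c * nsq w

/-- The `n`-fold cover of `SU(2,1)` given by the `n`-th roots of the factor of automorphy. -/
structure Cover (n : ℕ) (U : Type) [Group U] where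
  p : U →* SU21
  φ : U → C2 → ℂ
  hol : ∀ a, DifferentiableOn ℂ (φ a) B
  mul : ∀ a b, ∀ z ∈ B, φ (a * b) z = φ a (act (p b) z) * φ b z
  pow : ∀ a, ∀ z ∈ B, φ a z ^ n = jf (p a) z
  inj : ∀ a, p a = 1 → φ a 0 = 1 → a = 1
  full : ∀ (g : SU21) (c : ℂ), c ^ n = jf g 0 → ∃ a, p a = g ∧ φ a 0 = c

variable {n : ℕ} {U : Type} [Group U]

/-- the right action of weight `s / n` on functions (extended by zero outside the ball) -/
def Cover.sl (C : Cover n U) (s : ℕ) (f : C2 → ℂ) (a : U) : C2 → ℂ :=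
  B.indicator fun z => f (act (C.p a) z) / C.φ a z ^ s

/-- equivariant lifts `N x` of the stabilisers of the discs -/
structure Fill (C : Cover n U) (Γ : Subgroup SU21) (X : Set V3) (N : V3 → Subgroup U) : Prop where
  le : ∀ x ∈ X, ∀ ν ∈ N x, C.p ν ∈ Γ ⊓ stab x
  inj : ∀ x ∈ X, ∀ ν ∈ N x, C.p ν = 1 → ν = 1
  onto : ∀ x ∈ X, ∀ γ ∈ Γ ⊓ stab x, ∃ ν ∈ N x, C.p ν = γ
  cnj : ∀ a, C.p a ∈ Γ → ∀ x ∈ X, ∀ ν ∈ N x, a * ν * a⁻¹ ∈ N (mv (C.p a) x)

/-- a quotient `G` of the preimage of `Γ`, with a set-theoretic section -/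
structure Quo (C : Cover n U) (Γ : Subgroup SU21) (G : Type) [Group G] where
  π : ↥(Γ.comap C.p) →* G
  σ : G → ↥(Γ.comap C.p)
  sec : ∀ q, π (σ q) = q

/-- holomorphic on the ball, zero outside -/
def Hol (f : C2 → ℂ) : Prop := (∀ z, z ∉ B → f z = 0) ∧ DifferentiableOn ℂ f B

variable {C : Cover n U} {Γ : Subgroup SU21} {G : Type} [Group G]

/-- holomorphic and automorphic for the kernel of `π` -/
def Quo.Aut (Q : Quo C Γ G) (s : ℕ) (f : C2 → ℂ) : Prop :=
  Hol f ∧ ∀ k : ↥(Γ.comap C.p), Q.π k = 1 → C.sl s f k = f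

/-- the Bergman space of the cover with group `G` -/
def Quo.Berg (Q : Quo C Γ G) (s : ℕ) (f : C2 → ℂ) : Prop :=
  Q.Aut s f ∧ ∀ r < (1 : ℝ), ∃ M : G → ℝ, Summable (fun q => M q ^ 2) ∧
    ∀ q, ∀ z ∈ Bl r, ‖C.sl s f (Q.σ q) z‖ ≤ M q

/-- `f` vanishes to order `k` along the disc `x^⊥` near every point of `V` -/
def Van (k : ℕ) (x : V3) (f : C2 → ℂ) (V : Set C2) : Prop :=
  ∀ y ∈ V, ∃ O ∈ nhds y, ∃ q : C2 → ℂ, DifferentiableOn ℂ q O ∧ ∀ z ∈ O, f z = ell x z ^ k * q z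

/-- `f` vanishes along the divisor on `V` -/
def VanD (X : Set V3) (m : V3 → ℕ) (f : C2 → ℂ) (V : Set C2) : Prop := ∀ x ∈ X, Van (m x) x f V

/-- no square-integrable section of `L(-D)` -/
def Quo.H0 (Q : Quo C Γ G) (s : ℕ) (X : Set V3) (m : V3 → ℕ) : Prop :=
  ∀ f, Q.Berg s f → VanD X m f B → f = 0

/-- Square-summable local data on the charts `O p` that are compatible modulo the divisor come
from the Bergman space. -/
def Quo.H1 (Q : Quo C Γ G) (s : ℕ) (X : Set V3) (m : V3 → ℕ) {P : Type} (O : P → Set C2) : Prop :=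
  ∀ (F : G → P → C2 → ℂ) (M : G → ℝ), Summable (fun q => M q ^ 2) →
    (∀ q i, DifferentiableOn ℂ (F q i) (O i)) → (∀ q i, ∀ z ∈ O i, ‖F q i z‖ ≤ M q) →
    (∀ q i i' (a : ↥(Γ.comap C.p)),
      VanD X m (C.sl s (F q i) a - F (q * Q.π a) i') (O i' ∩ act (C.p a) ⁻¹' O i)) →
    ∃ f, Q.Berg s f ∧ ∀ q i, VanD X m (C.sl s f (Q.σ q) - F q i) (O i)

/-- a finite family of relatively compact open charts whose translates cover the ball -/
def Charts (Γ : Subgroup SU21) {P : Type} (O : P → Set C2) : Prop :=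
  (∀ i, IsOpen (O i)) ∧ (∃ r < (1 : ℝ), ∀ i, O i ⊆ Bl r) ∧
    ∀ z ∈ B, ∃ γ ∈ Γ, ∃ i, act γ z ∈ O i

/-- the equations of the kernel of right multiplication by `A` -/
def KerEq {k l : ℕ} (A : Matrix (Fin k) (Fin l) (G →₀ ℂ)) (x : Fin k × G → ℂ) : Prop :=
  ∀ (j : Fin l) (g : G), ∑ i : Fin k, (A i j).sum (fun h c => x (i, g * h⁻¹) * c) = 0

/-- the von Neumann dimension of the kernel, as in the frozen statement -/
def vnDim {k l : ℕ} (A : Matrix (Fin k) (Fin l) (G →₀ ℂ)) : ℝ :=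
  open Classical in
  ∑ i : Fin k, (1 - (Metric.infDist
    (lp.single 2 (i, (1 : G)) (1 : ℂ) : lp (fun _ : Fin k × G => ℂ) 2)
    {x : lp (fun _ : Fin k × G => ℂ) 2 | KerEq A x}) ^ 2)

/-- The functionals `Λ` identify the Bergman space with the square-summable kernel of `A`. -/
structure Quo.FinType (Q : Quo C Γ G) (s : ℕ) {k l : ℕ} (A : Matrix (Fin k) (Fin l) (G →₀ ℂ))
    (Λ : Fin k → (C2 → ℂ) →ₗ[ℂ] ℂ) : Prop where
  bdd : ∃ r < (1 : ℝ), ∃ c : ℝ, ∀ f, Q.Aut s f → ∀ M : ℝ, (∀ z ∈ Bl r, ‖f z‖ ≤ M) →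
    ∀ i, ‖Λ i f‖ ≤ c * M
  ker : ∀ f, Q.Berg s f → KerEq A fun x => Λ x.1 (C.sl s f (Q.σ x.2))
  inj : ∀ f, Q.Berg s f → (∀ i q, Λ i (C.sl s f (Q.σ q)) = 0) → f = 0
  surj : ∀ x : lp (fun _ : Fin k × G => ℂ) 2, KerEq A x →
    ∃ f, Q.Berg s f ∧ ∀ i q, Λ i (C.sl s f (Q.σ q)) = x (i, q)

/-- a relatively compact measurable fundamental domain -/
def FD (Γ : Subgroup SU21) (F : Set C2) : Prop :=
  MeasurableSet F ∧ (∃ r < (1 : ℝ), F ⊆ Bl r) ∧ ∀ z ∈ B, ∃! γ : ↥Γ, act γ z ∈ F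

/-- invariant volume -/
def vol (F : Set C2) : ℝ := ∫ z in F, rho z

end

end Pool.Agent.MP_54e5d7_al.Atc

end MrgPart0

-- ======== part 1: formerly Pool.Agent.MP_54e5d7_al.atc.Base1
section MrgPart1

/-!
PROJECT ATC, library Base, part 1: linear algebra of the ball.
-/

set_option autoImplicit false

open scoped ComplexConjugate ContDiff
open Matrix Set MeasureTheory

namespace Pool.Agent.MP_54e5d7_al.Atc

theorem nsq_nonneg (z : C2) : 0 ≤ nsq z := by unfold nsq; positivity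

theorem continuous_nsq : Continuous nsq := by unfold nsq; fun_prop

theorem isOpen_Bl (r : ℝ) : IsOpen (Bl r) := isOpen_lt continuous_nsq continuous_const

theorem norm_sq_convex (x y : ℂ) {a b : ℝ} (ha : 0 ≤ a) (hb : 0 ≤ b) (hab : a + b = 1) :
    ‖a • x + b • y‖ ^ 2 ≤ a * ‖x‖ ^ 2 + b * ‖y‖ ^ 2 := by
  have h1 : ‖a • x + b • y‖ ≤ a * ‖x‖ + b * ‖y‖ := by
    calc ‖a • x + b • y‖ ≤ ‖a • x‖ + ‖b • y‖ := norm_add_le _ _
      _ = a * ‖x‖ + b * ‖y‖ := by
        rw [norm_smul, norm_smul, Real.norm_of_nonneg ha, Real.norm_of_nonneg hb]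
  have h2 : ‖a • x + b • y‖ ^ 2 ≤ (a * ‖x‖ + b * ‖y‖) ^ 2 :=
    pow_le_pow_left₀ (norm_nonneg _) h1 2
  have h3 : b = 1 - a := by linarith
  subst h3
  nlinarith [mul_nonneg (mul_nonneg ha hb) (sq_nonneg (‖x‖ - ‖y‖))]

theorem convex_Bl (r : ℝ) : Convex ℝ (Bl r) := by
  intro x hx y hy a b ha hb hab
  have h1 := norm_sq_convex x.1 y.1 ha hb hab
  have h2 := norm_sq_convex x.2 y.2 ha hb hab
  have hx' : ‖x.1‖ ^ 2 + ‖x.2‖ ^ 2 < r := hx
  have hy' : ‖y.1‖ ^ 2 + ‖y.2‖ ^ 2 < r := hy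
  show ‖a • x.1 + b • y.1‖ ^ 2 + ‖a • x.2 + b • y.2‖ ^ 2 < r
  rcases ha.eq_or_lt with h0 | h0
  · subst h0
    have : b = 1 := by linarith
    subst this
    linarith
  · have h3 : a * (‖x.1‖ ^ 2 + ‖x.2‖ ^ 2) < a * r := mul_lt_mul_of_pos_left hx' h0
    have h4 : b * (‖y.1‖ ^ 2 + ‖y.2‖ ^ 2) ≤ b * r := mul_le_mul_of_nonneg_left hy'.le hb
    have h5 : a * r + b * r = r := by rw [← add_mul, hab, one_mul]
    linarith

theorem nsq_zero : nsq 0 = 0 := by simp [nsq]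

theorem zero_mem_B : (0 : C2) ∈ B := by
  show nsq 0 < 1
  rw [nsq_zero]; exact one_pos

theorem Bl_mono {r r' : ℝ} (h : r ≤ r') : Bl r ⊆ Bl r' := fun _ hz => lt_of_lt_of_le hz h

theorem isCompact_nsq_le (r : ℝ) : IsCompact {z : C2 | nsq z ≤ r} := by
  refine Metric.isCompact_of_isClosed_isBounded (isClosed_le continuous_nsq continuous_const) ?_
  refine (Metric.isBounded_closedBall (x := (0 : C2)) (r := |r| + 1)).subset ?_
  intro z hz
  have hz' : ‖z.1‖ ^ 2 + ‖z.2‖ ^ 2 ≤ r := hz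
  have h0 := le_abs_self r
  rw [mem_closedBall_zero_iff, Prod.norm_def]
  refine max_le ?_ ?_
  · nlinarith [sq_nonneg (‖z.1‖ - 1), sq_nonneg ‖z.2‖, abs_nonneg r]
  · nlinarith [sq_nonneg (‖z.2‖ - 1), sq_nonneg ‖z.1‖, abs_nonneg r]

theorem exists_Bl_of_isCompact {K : Set C2} (hK : IsCompact K) (h : K ⊆ B) :
    ∃ r < (1 : ℝ), K ⊆ Bl r := by
  rcases K.eq_empty_or_nonempty with rfl | hne
  · exact ⟨0, one_pos, empty_subset _⟩
  · obtain ⟨z, hz, hmax⟩ := hK.exists_isMaxOn hne continuous_nsq.continuousOn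
    have h1 : nsq z < 1 := h hz
    refine ⟨(nsq z + 1) / 2, by linarith, fun w hw => ?_⟩
    have h2 : nsq w ≤ nsq z := hmax hw
    show nsq w < _
    linarith

theorem H_conj (v w : V3) : conj (H v w) = H w v := by
  simp only [H, map_sub, map_add, map_mul, Complex.conj_conj]; ring

theorem H_add_left (u v w : V3) : H (u + v) w = H u w + H v w := by
  simp only [H, Pi.add_apply]; ring

theorem H_add_right (u v w : V3) : H u (v + w) = H u v + H u w := by
  simp only [H, Pi.add_apply, map_add]; ring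

theorem H_smul_left (c : ℂ) (v w : V3) : H (c • v) w = c * H v w := by
  simp only [H, Pi.smul_apply, smul_eq_mul]; ring

theorem H_smul_right (c : ℂ) (v w : V3) : H v (c • w) = conj c * H v w := by
  simp only [H, Pi.smul_apply, smul_eq_mul, map_mul]; ring

theorem H_sub_left (u v w : V3) : H (u - v) w = H u w - H v w := by
  simp only [H, Pi.sub_apply]; ring

theorem H_sub_right (u v w : V3) : H u (v - w) = H u v - H u w := by
  simp only [H, Pi.sub_apply, map_sub]; ring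

theorem H_self (v : V3) : H v v = ((‖v 0‖ ^ 2 + ‖v 1‖ ^ 2 - ‖v 2‖ ^ 2 : ℝ) : ℂ) := by
  simp only [H, Complex.mul_conj, Complex.normSq_eq_norm_sq]
  push_cast; ring

theorem H_self_re (v : V3) : (H v v).re = ‖v 0‖ ^ 2 + ‖v 1‖ ^ 2 - ‖v 2‖ ^ 2 := by
  rw [H_self, Complex.ofReal_re]

theorem norm_H_symm (v w : V3) : ‖H v w‖ = ‖H w v‖ := by
  rw [← H_conj v w, Complex.norm_conj]

theorem hat_zero (z : C2) : hat z 0 = z.1 := rfl
theorem hat_one (z : C2) : hat z 1 = z.2 := rfl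
theorem hat_two (z : C2) : hat z 2 = 1 := rfl

theorem H_hat (z : C2) : H (hat z) (hat z) = ((nsq z - 1 : ℝ) : ℂ) := by
  rw [H_self, hat_zero, hat_one, hat_two, nsq, norm_one, one_pow]

theorem mv_add (g : SU21) (v w : V3) : mv g (v + w) = mv g v + mv g w := by
  simp only [mv, Matrix.mulVec_add]

theorem mv_smul (g : SU21) (c : ℂ) (v : V3) : mv g (c • v) = c • mv g v := by
  simp only [mv, Matrix.mulVec_smul]

theorem mv_sub (g : SU21) (v w : V3) : mv g (v - w) = mv g v - mv g w := by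
  simp only [mv, Matrix.mulVec_sub]

theorem mv_zero (g : SU21) : mv g 0 = 0 := by simp only [mv, Matrix.mulVec_zero]

theorem mv_inv_mv (g : SU21) (v : V3) : mv g⁻¹ (mv g v) = v := by
  rw [← mv_mul, inv_mul_cancel, mv_one]

theorem mv_mv_inv (g : SU21) (v : V3) : mv g (mv g⁻¹ v) = v := by
  rw [← mv_mul, mul_inv_cancel, mv_one]

/-- a negative vector is a multiple of a point of the ball -/
theorem exists_hat {v : V3} (h : (H v v).re < 0) : v 2 ≠ 0 ∧ ∃ z ∈ B, v = v 2 • hat z := by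
  rw [H_self_re] at h
  have h2 : 0 < ‖v 2‖ ^ 2 := by nlinarith [sq_nonneg ‖v 0‖, sq_nonneg ‖v 1‖]
  have h3 : v 2 ≠ 0 := by
    intro h0
    rw [h0] at h2
    simp at h2
  refine ⟨h3, (v 0 / v 2, v 1 / v 2), ?_, ?_⟩
  · show ‖v 0 / v 2‖ ^ 2 + ‖v 1 / v 2‖ ^ 2 < 1
    rw [norm_div, norm_div, div_pow, div_pow, ← add_div, div_lt_one h2]
    linarith
  · funext i
    fin_cases i
    · show v 0 = v 2 * (v 0 / v 2)
      field_simp
    · show v 1 = v 2 * (v 1 / v 2)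
      field_simp
    · show v 2 = v 2 * 1
      rw [mul_one]

theorem H_mv_hat_re (g : SU21) {z : C2} (hz : z ∈ B) :
    (H (mv g (hat z)) (mv g (hat z))).re < 0 := by
  rw [H_mv, H_hat, Complex.ofReal_re]
  have : nsq z < 1 := hz
  linarith

theorem jf_ne_zero (g : SU21) {z : C2} (hz : z ∈ B) : jf g z ≠ 0 :=
  (exists_hat (H_mv_hat_re g hz)).1

theorem mv_hat (g : SU21) {z : C2} (hz : z ∈ B) : mv g (hat z) = jf g z • hat (act g z) := by
  have h := jf_ne_zero g hz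
  funext i
  fin_cases i
  · show mv g (hat z) 0 = jf g z * (mv g (hat z) 0 / jf g z)
    field_simp
  · show mv g (hat z) 1 = jf g z * (mv g (hat z) 1 / jf g z)
    field_simp
  · show jf g z = jf g z * 1
    rw [mul_one]

theorem one_sub_nsq_act (g : SU21) {z : C2} (hz : z ∈ B) :
    1 - nsq (act g z) = (1 - nsq z) / ‖jf g z‖ ^ 2 := by
  have h := jf_ne_zero g hz
  have h1 := H_mv g (hat z) (hat z)
  rw [mv_hat g hz, H_smul_left, H_smul_right, H_hat, H_hat, ← mul_assoc, Complex.mul_conj,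
    Complex.normSq_eq_norm_sq, ← Complex.ofReal_mul, Complex.ofReal_inj] at h1
  have h2 : 0 < ‖jf g z‖ ^ 2 := by positivity
  rw [eq_div_iff h2.ne']
  linarith

theorem act_mem (g : SU21) {z : C2} (hz : z ∈ B) : act g z ∈ B := by
  have h := one_sub_nsq_act g hz
  have h1 := jf_ne_zero g hz
  have h2 : nsq z < 1 := hz
  have h3 : 0 < (1 - nsq z) / ‖jf g z‖ ^ 2 := div_pos (by linarith) (by positivity)
  show nsq (act g z) < 1
  linarith

theorem jf_one (z : C2) : jf 1 z = 1 := by rw [jf, mv_one, hat_two]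

theorem act_one (z : C2) : act 1 z = z := by
  rw [act, jf_one, mv_one, hat_zero, hat_one, div_one, div_one]

theorem jf_mul (g h : SU21) {z : C2} (hz : z ∈ B) :
    jf (g * h) z = jf g (act h z) * jf h z := by
  rw [jf, mv_mul, mv_hat h hz, mv_smul, Pi.smul_apply, smul_eq_mul, mul_comm]
  rfl

theorem act_mul (g h : SU21) {z : C2} (hz : z ∈ B) : act (g * h) z = act g (act h z) := by
  have h1 := jf_ne_zero h hz
  have h2 := jf_ne_zero g (act_mem h hz)
  have h3 : mv (g * h) (hat z) = jf h z • mv g (hat (act h z)) := by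
    rw [mv_mul, mv_hat h hz, mv_smul]
  rw [act, jf_mul g h hz, h3]
  conv_rhs => rw [act]
  simp only [Pi.smul_apply, smul_eq_mul]
  refine Prod.ext ?_ ?_
  · show _ / _ = _ / _
    field_simp
  · show _ / _ = _ / _
    field_simp

theorem act_inv_act (g : SU21) {z : C2} (hz : z ∈ B) : act g⁻¹ (act g z) = z := by
  rw [← act_mul _ _ hz, inv_mul_cancel, act_one]

theorem act_act_inv (g : SU21) {z : C2} (hz : z ∈ B) : act g (act g⁻¹ z) = z := by
  rw [← act_mul _ _ hz, mul_inv_cancel, act_one]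

theorem mv_hat_apply (g : SU21) (z : C2) (i : Fin 3) :
    mv g (hat z) i = g.1.1 i 0 * z.1 + g.1.1 i 1 * z.2 + g.1.1 i 2 := by
  simp only [mv, Matrix.mulVec, dotProduct, Fin.sum_univ_three, hat_zero, hat_one, hat_two,
    mul_one]

theorem differentiable_mv_hat (g : SU21) (i : Fin 3) :
    Differentiable ℂ fun z : C2 => mv g (hat z) i := by
  simp only [mv_hat_apply]
  fun_prop

theorem differentiable_jf (g : SU21) : Differentiable ℂ (jf g) := differentiable_mv_hat g 2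

theorem differentiable_ell (x : V3) : Differentiable ℂ (ell x) := by
  have : ell x = fun z : C2 => z.1 * conj (x 0) + z.2 * conj (x 1) - 1 * conj (x 2) := rfl
  rw [this]
  fun_prop

theorem differentiableOn_act (g : SU21) : DifferentiableOn ℂ (act g) B := by
  have h : ∀ i : Fin 3, DifferentiableOn ℂ (fun z : C2 => mv g (hat z) i / jf g z) B := by
    intro i
    simp only [div_eq_mul_inv]
    exact (differentiable_mv_hat g i).differentiableOn.mul
      ((differentiable_jf g).differentiableOn.inv fun z hz => jf_ne_zero g hz)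
  exact (h 0).prodMk (h 1)

theorem continuousOn_act (g : SU21) : ContinuousOn (act g) B :=
  (differentiableOn_act g).continuousOn

theorem measurable_act (g : SU21) : Measurable (act g) := by
  refine Measurable.prodMk ?_ ?_
  · exact (differentiable_mv_hat g 0).continuous.measurable.div
      (differentiable_jf g).continuous.measurable
  · exact (differentiable_mv_hat g 1).continuous.measurable.div
      (differentiable_jf g).continuous.measurable

theorem ell_act (g : SU21) (x : V3) {z : C2} (hz : z ∈ B) :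
    ell (mv g x) (act g z) * jf g z = ell x z := by
  have h1 := H_mv g (hat z) x
  rw [mv_hat g hz, H_smul_left] at h1
  rw [ell, ell, ← h1, mul_comm]

theorem ch2_act (g : SU21) {z w : C2} (hz : z ∈ B) (hw : w ∈ B) :
    ch2 (act g z) (act g w) = ch2 z w := by
  have h1 := H_mv g (hat z) (hat w)
  rw [mv_hat g hz, mv_hat g hw, H_smul_left, H_smul_right] at h1
  have h2 : ‖jf g z‖ ≠ 0 := norm_ne_zero_iff.2 (jf_ne_zero g hz)
  have h3 : ‖jf g w‖ ≠ 0 := norm_ne_zero_iff.2 (jf_ne_zero g hw)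
  rw [ch2, ch2, one_sub_nsq_act g hz, one_sub_nsq_act g hw, ← h1, norm_mul, norm_mul,
    Complex.norm_conj]
  have h4 : 1 - nsq z ≠ 0 := by
    have : nsq z < 1 := hz
    linarith
  have h5 : 1 - nsq w ≠ 0 := by
    have : nsq w < 1 := hw
    linarith
  field_simp

theorem ch2_symm (z w : C2) : ch2 z w = ch2 w z := by
  rw [ch2, ch2, norm_H_symm, mul_comm]

theorem ch2_zero (z : C2) : ch2 z 0 = (1 - nsq z)⁻¹ := by
  have h : H (hat z) (hat 0) = -1 := by
    simp [H, hat_zero, hat_one, hat_two]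
  rw [ch2, h, nsq_zero]
  simp

/-- the boost matrix -/
def boostM (a b : ℂ) (c k : ℝ) : Matrix (Fin 3) (Fin 3) ℂ :=
  !![1 + k * a * conj a, k * a * conj b, c * a;
     k * b * conj a, 1 + k * b * conj b, c * b;
     c * conj a, c * conj b, c]

/-- transitivity on points -/
theorem exists_act_zero {z : C2} (hz : z ∈ B) : ∃ g : SU21, act g 0 = z := by
  have hz' : nsq z < 1 := hz
  obtain ⟨c, hc0, hc⟩ : ∃ c : ℝ, 0 < c ∧ c ^ 2 * (1 - nsq z) = 1 := by
    refine ⟨(√(1 - nsq z))⁻¹, inv_pos.2 (Real.sqrt_pos.2 (by linarith)), ?_⟩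
    rw [inv_pow, Real.sq_sqrt (by linarith), inv_mul_cancel₀ (by linarith)]
  obtain ⟨k, hk1, hk2⟩ : ∃ k : ℝ, k * nsq z = c - 1 ∧ k * (c + 1) = c ^ 2 := by
    refine ⟨c ^ 2 / (c + 1), ?_, ?_⟩
    · field_simp
      linear_combination -hc
    · field_simp
  have ht : ((nsq z : ℝ) : ℂ) = z.1 * conj z.1 + z.2 * conj z.2 := by
    simp only [nsq, Complex.mul_conj, Complex.normSq_eq_norm_sq]
    push_cast; ring
  have h1 : (k : ℂ) * (z.1 * conj z.1 + z.2 * conj z.2) = c - 1 := by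
    rw [← ht]; exact_mod_cast hk1
  have h2 : (k : ℂ) * (c + 1) = (c : ℂ) ^ 2 := by exact_mod_cast hk2
  have h3 : (c : ℂ) ^ 2 * (1 - (z.1 * conj z.1 + z.2 * conj z.2)) = 1 := by
    rw [← ht]; exact_mod_cast hc
  have hdet : (boostM z.1 z.2 c k).det = 1 := by
    rw [boostM, Matrix.det_fin_three]
    simp only [Matrix.of_apply, Matrix.cons_val', Matrix.cons_val_zero, Matrix.cons_val_one,
      Matrix.cons_val_two, Matrix.cons_val_fin_one, Matrix.head_cons, Matrix.tail_cons,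
      Matrix.empty_val', Matrix.head_fin_const]
    linear_combination (c : ℂ) * h1 + h3
  have hap : ∀ v : V3, boostM z.1 z.2 c k *ᵥ v =
      ![v 0 + z.1 * (k * (conj z.1 * v 0 + conj z.2 * v 1) + c * v 2),
        v 1 + z.2 * (k * (conj z.1 * v 0 + conj z.2 * v 1) + c * v 2),
        c * (conj z.1 * v 0 + conj z.2 * v 1) + c * v 2] := by
    intro v
    funext i
    fin_cases i <;> simp [boostM, Matrix.mulVec, dotProduct, Fin.sum_univ_three] <;> ring
  have hSU : (⟨boostM z.1 z.2 c k, hdet⟩ : SpecialLinearGroup (Fin 3) ℂ) ∈ SU := by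
    intro v w
    show H (boostM z.1 z.2 c k *ᵥ v) (boostM z.1 z.2 c k *ᵥ w) = H v w
    rw [hap, hap]
    simp only [H, Matrix.cons_val_zero, Matrix.cons_val_one, Matrix.cons_val_two,
      Matrix.head_cons, Matrix.tail_cons, map_add, map_mul, Complex.conj_conj,
      Complex.conj_ofReal]
    linear_combination
      ((conj z.1 * v 0 + conj z.2 * v 1) * (z.1 * conj (w 0) + z.2 * conj (w 1)) * k +
        ((conj z.1 * v 0 + conj z.2 * v 1) * conj (w 2) +
          v 2 * (z.1 * conj (w 0) + z.2 * conj (w 1))) * c) * h1 +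
      (conj z.1 * v 0 + conj z.2 * v 1) * (z.1 * conj (w 0) + z.2 * conj (w 1)) * h2 -
      v 2 * conj (w 2) * h3
  refine ⟨⟨_, hSU⟩, ?_⟩
  have hc' : (c : ℂ) ≠ 0 := by exact_mod_cast hc0.ne'
  have hm : mv ⟨_, hSU⟩ (hat 0) = ![c * z.1, c * z.2, c] := by
    show boostM z.1 z.2 c k *ᵥ hat 0 = _
    rw [hap]
    funext i
    fin_cases i <;> simp [hat_zero, hat_one, hat_two, mul_comm]
  rw [act, jf, hm]
  refine Prod.ext ?_ ?_
  · show c * z.1 / c = z.1
    field_simp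
  · show c * z.2 / c = z.2
    field_simp

theorem one_le_ch2 {z w : C2} (hz : z ∈ B) (hw : w ∈ B) : 1 ≤ ch2 z w := by
  obtain ⟨g, rfl⟩ := exists_act_zero hw
  rw [← act_act_inv g hz, ch2_act g (act_mem _ hz) zero_mem_B, ch2_zero]
  have h1 : nsq (act g⁻¹ z) < 1 := act_mem _ hz
  have h2 := nsq_nonneg (act g⁻¹ z)
  exact (one_le_inv₀ (by linarith)).2 (by linarith)

theorem norm_H_hat_le {z w : C2} (hz : z ∈ B) (hw : w ∈ B) : ‖H (hat z) (hat w)‖ ≤ 2 := by
  have hz' : ‖z.1‖ ^ 2 + ‖z.2‖ ^ 2 < 1 := hz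
  have hw' : ‖w.1‖ ^ 2 + ‖w.2‖ ^ 2 < 1 := hw
  have h1 : ‖H (hat z) (hat w)‖ ≤ ‖z.1‖ * ‖w.1‖ + ‖z.2‖ * ‖w.2‖ + 1 := by
    rw [H, hat_zero, hat_one, hat_two, hat_zero, hat_one, hat_two]
    refine (norm_sub_le _ _).trans ?_
    refine add_le_add ((norm_add_le _ _).trans ?_) (by simp)
    rw [norm_mul, norm_mul, Complex.norm_conj, Complex.norm_conj]
  nlinarith [sq_nonneg (‖z.1‖ - ‖w.1‖), sq_nonneg (‖z.2‖ - ‖w.2‖)]

/-- quasi triangle inequality -/
theorem ch2_le {z w u : C2} (hz : z ∈ B) (hw : w ∈ B) (hu : u ∈ B) :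
    ch2 z w ≤ 4 * ch2 z u * ch2 u w := by
  obtain ⟨g, rfl⟩ := exists_act_zero hu
  have hz1 := act_mem g⁻¹ hz
  have hw1 := act_mem g⁻¹ hw
  rw [← act_act_inv g hz, ← act_act_inv g hw, ch2_act g hz1 hw1, ch2_act g hz1 zero_mem_B,
    ch2_act g zero_mem_B hw1, ch2_symm 0, ch2_zero, ch2_zero, ch2]
  have h1 : nsq (act g⁻¹ z) < 1 := hz1
  have h2 : nsq (act g⁻¹ w) < 1 := hw1
  have h3 := norm_H_hat_le hz1 hw1
  have h4 : ‖H (hat (act g⁻¹ z)) (hat (act g⁻¹ w))‖ ^ 2 ≤ 4 := by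
    nlinarith [norm_nonneg (H (hat (act g⁻¹ z)) (hat (act g⁻¹ w)))]
  rw [mul_assoc, ← mul_inv, ← div_eq_mul_inv]
  exact div_le_div_of_nonneg_right h4 (mul_pos (by linarith) (by linarith)).le

end Pool.Agent.MP_54e5d7_al.Atc

end MrgPart1

-- ======== part 2: formerly Pool.Agent.MP_54e5d7_al.atc.Base1b
section MrgPart2

/-!
PROJECT ATC, library Base, part 1b: frames, loxodromic elements, uniform bounds.
-/

set_option autoImplicit false

open scoped ComplexConjugate ContDiff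
open Matrix Set MeasureTheory

namespace Pool.Agent.MP_54e5d7_al.Atc

/-- the matrix with columns `a b c` -/
def colM (a b c : V3) : Matrix (Fin 3) (Fin 3) ℂ :=
  !![a 0, b 0, c 0; a 1, b 1, c 1; a 2, b 2, c 2]

theorem colM_mulVec (a b c v : V3) : colM a b c *ᵥ v = v 0 • a + v 1 • b + v 2 • c := by
  funext i
  fin_cases i <;> simp [colM, Matrix.mulVec, dotProduct, Fin.sum_univ_three] <;> ring

theorem det_colM (a b c : V3) : (colM a b c).det =
    a 0 * (b 1 * c 2 - b 2 * c 1) - a 1 * (b 0 * c 2 - b 2 * c 0) +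
      a 2 * (b 0 * c 1 - b 1 * c 0) := by
  rw [colM, Matrix.det_fin_three]
  simp only [Matrix.of_apply, Matrix.cons_val', Matrix.cons_val_zero, Matrix.cons_val_one,
    Matrix.cons_val_two, Matrix.cons_val_fin_one, Matrix.head_cons, Matrix.tail_cons,
    Matrix.empty_val', Matrix.head_fin_const]
  ring

/-- the Gram determinant -/
theorem det_colM_mul_conj (a b c : V3) : (colM a b c).det * conj (colM a b c).det =
    -(H a a * (H b b * H c c - H b c * H c b) - H a b * (H b a * H c c - H b c * H c a) +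
      H a c * (H b a * H c b - H b b * H c a)) := by
  rw [det_colM]
  simp only [H, map_add, map_sub, map_mul]
  ring

/-- an `H`-orthonormal frame gives an element, after changing the phase of one vector -/
theorem exists_of_frame {a b c : V3} (haa : H a a = 1) (hbb : H b b = 1) (hcc : H c c = -1)
    (hab : H a b = 0) (hac : H a c = 0) (hbc : H b c = 0) :
    ∃ (g : SU21) (u : ℂ), ‖u‖ = 1 ∧ mv g ![1, 0, 0] = u • a ∧ mv g ![0, 1, 0] = b ∧
      mv g ![0, 0, 1] = c := by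
  have hba : H b a = 0 := by rw [← H_conj, hab, map_zero]
  have hca : H c a = 0 := by rw [← H_conj, hac, map_zero]
  have hcb : H c b = 0 := by rw [← H_conj, hbc, map_zero]
  have hd := det_colM_mul_conj a b c
  rw [haa, hbb, hcc, hab, hac, hbc, hba, hca, hcb] at hd
  obtain ⟨d, hdd⟩ : ∃ d, d = (colM a b c).det := ⟨_, rfl⟩
  rw [← hdd] at hd
  have hd1 : d * conj d = 1 := by rw [hd]; ring
  have hdet : (colM (conj d • a) b c).det = 1 := by
    rw [det_colM] at hdd ⊢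
    simp only [Pi.smul_apply, smul_eq_mul]
    linear_combination hd1 - conj d * hdd
  have hSU : (⟨colM (conj d • a) b c, hdet⟩ : SpecialLinearGroup (Fin 3) ℂ) ∈ SU := by
    intro v w
    show H (colM (conj d • a) b c *ᵥ v) (colM (conj d • a) b c *ᵥ w) = H v w
    rw [colM_mulVec, colM_mulVec]
    simp only [H_add_left, H_add_right, H_smul_left, H_smul_right, haa, hbb, hcc, hab, hac, hbc,
      hba, hca, hcb, Complex.conj_conj]
    rw [H]
    linear_combination v 0 * conj (w 0) * hd1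
  have hm : ∀ v, mv ⟨_, hSU⟩ v = v 0 • conj d • a + v 1 • b + v 2 • c := fun v =>
    colM_mulVec _ _ _ v
  refine ⟨⟨_, hSU⟩, conj d, ?_, ?_, ?_, ?_⟩
  · rw [Complex.mul_conj, Complex.normSq_eq_norm_sq] at hd1
    have h1 : ‖d‖ ^ 2 = 1 := by exact_mod_cast hd1
    rw [Complex.norm_conj]
    exact (pow_eq_one_iff_of_nonneg (norm_nonneg _) two_ne_zero).1 h1
  · rw [hm]; simp
  · rw [hm]; simp
  · rw [hm]; simp

/-- a vector orthogonal to a frame vanishes -/
theorem eq_zero_of_frame {a b c w : V3} (haa : H a a = 1) (hbb : H b b = 1) (hcc : H c c = -1)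
    (hab : H a b = 0) (hac : H a c = 0) (hbc : H b c = 0) (ha : H w a = 0) (hb : H w b = 0)
    (hc : H w c = 0) : w = 0 := by
  obtain ⟨g, u, -, h0, h1, h2⟩ := exists_of_frame haa hbb hcc hab hac hbc
  have e0 := H_mv g (mv g⁻¹ w) ![1, 0, 0]
  have e1 := H_mv g (mv g⁻¹ w) ![0, 1, 0]
  have e2 := H_mv g (mv g⁻¹ w) ![0, 0, 1]
  rw [mv_mv_inv, h0, H_smul_right, ha, mul_zero] at e0
  rw [mv_mv_inv, h1, hb] at e1
  rw [mv_mv_inv, h2, hc] at e2
  have hz : mv g⁻¹ w = 0 := by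
    funext i
    fin_cases i
    · simpa [H] using e0.symm
    · simpa [H] using e1.symm
    · simpa [H] using e2.symm
  rw [← mv_mv_inv g w, hz, mv_zero]

/-- the hermitian cross product -/
def crossH (v w : V3) : V3 :=
  ![conj (v 1 * w 2 - v 2 * w 1), conj (v 2 * w 0 - v 0 * w 2), -conj (v 0 * w 1 - v 1 * w 0)]

theorem H_crossH_left (v w : V3) : H (crossH v w) v = 0 := by
  simp only [H, crossH, Matrix.cons_val_zero, Matrix.cons_val_one, Matrix.cons_val_two,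
    Matrix.head_cons, Matrix.tail_cons, map_sub, map_mul]
  ring

theorem H_crossH_right (v w : V3) : H (crossH v w) w = 0 := by
  simp only [H, crossH, Matrix.cons_val_zero, Matrix.cons_val_one, Matrix.cons_val_two,
    Matrix.head_cons, Matrix.tail_cons, map_sub, map_mul]
  ring

theorem H_crossH_self (v w : V3) :
    H (crossH v w) (crossH v w) = H v w * H w v - H v v * H w w := by
  simp only [H, crossH, Matrix.cons_val_zero, Matrix.cons_val_one, Matrix.cons_val_two,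
    Matrix.head_cons, Matrix.tail_cons, map_sub, map_mul, map_neg, Complex.conj_conj]
  ring

/-- transitivity on unit vectors -/
theorem exists_mv_e1 {x : V3} (hx : H x x = 1) : ∃ g : SU21, mv g ![0, 1, 0] = x := by
  obtain ⟨e, he⟩ : ∃ e : V3, H e e = -1 := ⟨![0, 0, 1], by simp [H]⟩
  obtain ⟨p, hp⟩ : ∃ p, p = H e x := ⟨_, rfl⟩
  have hp' : H x e = conj p := by rw [hp, H_conj]
  have ht : 0 < 1 + ‖p‖ ^ 2 := by positivity
  obtain ⟨s, hs⟩ : ∃ s : ℝ, s ^ 2 * (1 + ‖p‖ ^ 2) = 1 := by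
    refine ⟨(√(1 + ‖p‖ ^ 2))⁻¹, ?_⟩
    rw [inv_pow, Real.sq_sqrt ht.le, inv_mul_cancel₀ ht.ne']
  have hs' : (s : ℂ) ^ 2 * (1 + p * conj p) = 1 := by
    rw [Complex.mul_conj, Complex.normSq_eq_norm_sq]
    exact_mod_cast hs
  have hxc : H x ((s : ℂ) • (e - p • x)) = 0 := by
    rw [H_smul_right, H_sub_right, H_smul_right, hp', hx]; ring
  have hcx : H ((s : ℂ) • (e - p • x)) x = 0 := by rw [← H_conj, hxc, map_zero]
  have hcc : H ((s : ℂ) • (e - p • x)) ((s : ℂ) • (e - p • x)) = -1 := by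
    simp only [H_smul_left, H_smul_right, H_sub_left, H_sub_right, he, hp', hx, ← hp,
      Complex.conj_ofReal]
    linear_combination -hs'
  obtain ⟨g, -, -, -, h1, -⟩ := exists_of_frame (a := crossH x ((s : ℂ) • (e - p • x)))
    (by rw [H_crossH_self, hxc, hx, hcc]; ring) hx hcc (H_crossH_left _ _) (H_crossH_right _ _) hxc
  exact ⟨g, h1⟩

theorem eq_zero_of_H_self {d : V3} (h : H d d = 0) (h2 : d 2 = 0) : d = 0 := by
  have h1 := H_self_re d
  rw [h, h2, norm_zero, Complex.zero_re] at h1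
  have h3 : ‖d 0‖ ^ 2 = 0 := by nlinarith [sq_nonneg ‖d 0‖, sq_nonneg ‖d 1‖]
  have h4 : ‖d 1‖ ^ 2 = 0 := by nlinarith [sq_nonneg ‖d 0‖, sq_nonneg ‖d 1‖]
  funext i
  fin_cases i
  · simpa using h3
  · simpa using h4
  · exact h2

theorem eq_zero_of_H {v : V3} (h : ∀ w, H w v = 0) : v = 0 := by
  funext i
  fin_cases i
  · simpa [H] using h ![1, 0, 0]
  · simpa [H] using h ![0, 1, 0]
  · simpa [H] using h ![0, 0, 1]

/-- eigenvectors are orthogonal unless the eigenvalues are dual -/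
theorem H_eigen {g : SU21} {v w : V3} {α β : ℂ} (hv : mv g v = α • v) (hw : mv g w = β • w)
    (h : α * conj β ≠ 1) : H v w = 0 := by
  have h1 := H_mv g v w
  rw [hv, hw, H_smul_left, H_smul_right] at h1
  have h2 : (α * conj β - 1) * H v w = 0 := by linear_combination h1
  exact (mul_eq_zero.1 h2).resolve_left (sub_ne_zero.2 h)

theorem mul_conj_ne_one {α : ℂ} (hα : ‖α‖ ≠ 1) : α * conj α ≠ 1 := by
  intro h
  rw [Complex.mul_conj, Complex.normSq_eq_norm_sq] at h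
  have h1 : ‖α‖ ^ 2 = 1 := by exact_mod_cast h
  exact hα ((pow_eq_one_iff_of_nonneg (norm_nonneg _) two_ne_zero).1 h1)

theorem lox_of_pair (g : SU21) {e f : V3} {α : ℂ} (hee : H e e = 0) (hff : H f f = 0)
    (hef : H e f = -1) (hα : 1 < ‖α‖) (he : mv g e = α • e) (hf : mv g f = (conj α)⁻¹ • f) :
    Lox g := by
  have hfe : H f e = -1 := by rw [← H_conj, hef]; simp
  have hα0 : α ≠ 0 := by
    intro h
    rw [h, norm_zero] at hα
    linarith
  have hα1 : conj α ≠ 0 := by simpa using hα0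
  obtain ⟨u, huu, hue, huf⟩ : ∃ u, H u u = 1 ∧ H u e = 0 ∧ H u f = 0 :=
    ⟨crossH e f, by rw [H_crossH_self, hef, hfe, hee]; ring, H_crossH_left _ _,
      H_crossH_right _ _⟩
  have heu : H e u = 0 := by rw [← H_conj, hue, map_zero]
  have hfu : H f u = 0 := by rw [← H_conj, huf, map_zero]
  have h1 : H (mv g u) e = 0 := by
    have h := H_mv g u e
    rw [he, H_smul_right, hue] at h
    exact (mul_eq_zero.1 h).resolve_left hα1
  have h2 : H (mv g u) f = 0 := by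
    have h := H_mv g u f
    rw [hf, H_smul_right, huf] at h
    refine (mul_eq_zero.1 h).resolve_left ?_
    simpa using hα0
  refine ⟨e, f, u, α, H (mv g u) u, hee, hff, hef, huu, heu, hfu, hα, he, hf, ?_⟩
  rw [← sub_eq_zero]
  refine eq_zero_of_frame (a := e - (1 / 2 : ℂ) • f) (b := u) (c := e + (1 / 2 : ℂ) • f)
    ?_ huu ?_ ?_ ?_ ?_ ?_ ?_ ?_ <;>
  simp only [H_add_left, H_add_right, H_sub_left, H_sub_right, H_smul_left, H_smul_right, hee,
    hff, hef, hfe, huu, hue, huf, heu, hfu, h1, h2, map_div₀, map_one, map_ofNat] <;>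
  ring

/-- an element with an eigenvalue off the unit circle is loxodromic -/
theorem lox_of_eigen (g : SU21) {v : V3} {α : ℂ} (hv : v ≠ 0) (h : mv g v = α • v)
    (hα : ‖α‖ ≠ 1) : Lox g := by
  have hα0 : α ≠ 0 := by
    rintro rfl
    apply hv
    rw [← mv_inv_mv g v, h, zero_smul, mv_zero]
  have hα1 : conj α ≠ 0 := by simpa using hα0
  have hne := mul_conj_ne_one hα
  obtain ⟨f, hf0, hf⟩ : ∃ f : V3, f ≠ 0 ∧ mv g f = (conj α)⁻¹ • f := by
    by_contra hcon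
    push Not at hcon
    let T : V3 →ₗ[ℂ] V3 := Matrix.mulVecLin g.1.1 - (conj α)⁻¹ • LinearMap.id
    have hT : ∀ w, T w = mv g w - (conj α)⁻¹ • w := fun w => rfl
    have hinj : Function.Injective T := by
      rw [← LinearMap.ker_eq_bot, LinearMap.ker_eq_bot']
      intro w hw
      by_contra hw0
      exact hcon w hw0 (sub_eq_zero.1 (by rw [← hT, hw]))
    have hsurj := LinearMap.injective_iff_surjective.1 hinj
    refine hv (eq_zero_of_H fun w => ?_)
    obtain ⟨w', rfl⟩ := hsurj w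
    have h1 := H_mv g w' v
    rw [h, H_smul_right] at h1
    rw [hT, H_sub_left, H_smul_left, ← h1]
    field_simp
    ring
  have hvv : H v v = 0 := H_eigen h h hne
  have hff : H f f = 0 := by
    refine H_eigen hf hf ?_
    rw [map_inv₀, Complex.conj_conj, ← mul_inv, Ne, inv_eq_one, mul_comm]
    exact hne
  have hvf : H v f ≠ 0 := by
    intro hvf
    have hfv : H f v = 0 := by rw [← H_conj, hvf, map_zero]
    have hd : f 2 • v - v 2 • f = 0 := by
      refine eq_zero_of_H_self ?_ ?_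
      · simp only [H_sub_left, H_sub_right, H_smul_left, H_smul_right, hvv, hff, hvf, hfv]
        ring
      · simp only [Pi.sub_apply, Pi.smul_apply, smul_eq_mul]
        ring
    have hd1 : v 2 • f = f 2 • v := (sub_eq_zero.1 hd).symm
    have hd2 : mv g (v 2 • f) = mv g (f 2 • v) := by rw [hd1]
    rw [mv_smul, mv_smul, hf, h, smul_comm, hd1, smul_smul, smul_smul, ← sub_eq_zero,
      ← sub_smul, smul_eq_zero] at hd2
    have hd3 := hd2.resolve_right hv
    have hd4 : f 2 * (1 - α * conj α) = 0 := by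
      field_simp at hd3
      linear_combination hd3
    have hd5 : f 2 = 0 := (mul_eq_zero.1 hd4).resolve_right (sub_ne_zero.2 hne.symm)
    exact hf0 (eq_zero_of_H_self hff hd5)
  obtain ⟨f', hf'f, hvf', hf'⟩ : ∃ f', H f' f' = 0 ∧ H v f' = -1 ∧ mv g f' = (conj α)⁻¹ • f' := by
    refine ⟨(conj (-(H v f)⁻¹)) • f, ?_, ?_, ?_⟩
    · rw [H_smul_left, H_smul_right, hff]; ring
    · rw [H_smul_right, Complex.conj_conj]
      field_simp
    · rw [mv_smul, hf, smul_comm]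
  rcases lt_or_gt_of_ne hα with hlt | hgt
  · refine lox_of_pair g (α := (conj α)⁻¹) hf'f hvv (by rw [← H_conj, hvf']; simp) ?_ hf' ?_
    · rw [norm_inv, Complex.norm_conj]
      exact (one_lt_inv₀ (norm_pos_iff.2 hα0)).2 hlt
    · rw [map_inv₀, Complex.conj_conj, inv_inv, h]
  · exact lox_of_pair g hvv hf'f hvf' hgt h hf'

theorem Lox.conj {g : SU21} (h : Lox g) (a : SU21) : Lox (a * g * a⁻¹) := by
  obtain ⟨e, f, u, α, β, h1, h2, h3, h4, h5, h6, h7, h8, h9, h10⟩ := h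
  refine ⟨mv a e, mv a f, mv a u, α, β, ?_, ?_, ?_, ?_, ?_, ?_, h7, ?_, ?_, ?_⟩
  · rw [H_mv, h1]
  · rw [H_mv, h2]
  · rw [H_mv, h3]
  · rw [H_mv, h4]
  · rw [H_mv, h5]
  · rw [H_mv, h6]
  · rw [mv_mul, mv_mul, mv_inv_mv, h8, mv_smul]
  · rw [mv_mul, mv_mul, mv_inv_mv, h9, mv_smul]
  · rw [mv_mul, mv_mul, mv_inv_mv, h10, mv_smul]

theorem ch2_zero_le {r : ℝ} (hr : r < 1) {z : C2} (hz : z ∈ Bl r) : ch2 z 0 ≤ (1 - r)⁻¹ := by
  have h : nsq z < r := hz
  rw [ch2_zero]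
  exact inv_anti₀ (by linarith) (by linarith)

theorem mem_Bl_of_ch2_le {c : ℝ} {z : C2} (hz : z ∈ B) (h : ch2 z 0 ≤ c) :
    z ∈ Bl (1 - (2 * c)⁻¹) := by
  have h1 : nsq z < 1 := hz
  have h0 := one_le_ch2 hz zero_mem_B
  rw [ch2_zero] at h
  rw [ch2_zero] at h0
  have hc : 0 < c := by linarith
  have h2 : c⁻¹ ≤ 1 - nsq z := (inv_le_comm₀ hc (by linarith)).2 h
  have h3 : (2 * c)⁻¹ < c⁻¹ := (inv_lt_inv₀ (by linarith) hc).2 (by linarith)
  show nsq z < _
  linarith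

/-- images of smaller balls are uniformly relatively compact -/
theorem act_Bl {r : ℝ} (hr : r < 1) : ∃ r' < (1 : ℝ), ∀ g : SU21, act g 0 ∈ Bl r →
    ∀ z ∈ Bl r, act g z ∈ Bl r' ∧ act g⁻¹ z ∈ Bl r' := by
  have hp : 0 < (1 - r)⁻¹ := inv_pos.2 (by linarith)
  refine ⟨1 - (2 * (4 * (1 - r)⁻¹ * (1 - r)⁻¹))⁻¹, ?_, fun g hg z hz => ?_⟩
  · have : 0 < (2 * (4 * (1 - r)⁻¹ * (1 - r)⁻¹))⁻¹ := by positivity
    linarith
  have hzB : z ∈ B := Bl_mono hr.le hz
  have hgB : act g 0 ∈ B := Bl_mono hr.le hg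
  have h1 := ch2_zero_le hr hz
  have h2 := ch2_zero_le hr hg
  have h3 := one_le_ch2 hzB zero_mem_B
  have h4 := one_le_ch2 hgB zero_mem_B
  have h5 : 4 * ch2 z 0 * ch2 (act g 0) 0 ≤ 4 * (1 - r)⁻¹ * (1 - r)⁻¹ := by gcongr
  constructor
  · refine mem_Bl_of_ch2_le (act_mem g hzB) ?_
    refine (ch2_le (act_mem g hzB) zero_mem_B hgB).trans ?_
    rw [ch2_act g hzB zero_mem_B]
    exact h5
  · refine mem_Bl_of_ch2_le (act_mem _ hzB) ?_
    rw [← ch2_act g (act_mem _ hzB) zero_mem_B, act_act_inv g hzB]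
    refine (ch2_le hzB hgB zero_mem_B).trans ?_
    rw [ch2_symm 0]
    exact h5

end Pool.Agent.MP_54e5d7_al.Atc

end MrgPart2

-- ======== part 3: formerly Pool.Agent.MP_54e5d7_al.atc.Base2
section MrgPart3

/-!
PROJECT ATC, library Base, second part: lattices and discs.
-/

set_option autoImplicit false

open scoped ComplexConjugate ContDiff
open Matrix Set MeasureTheory

namespace Pool.Agent.MP_54e5d7_al.Atc

namespace B2

theorem memB {z : C2} {r : ℝ} (hr : r < 1) (hz : z ∈ Bl r) : z ∈ B := Bl_mono hr.le hz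

theorem ch2_zero_le {z : C2} {r : ℝ} (hr : r < 1) (hz : z ∈ Bl r) : ch2 z 0 ≤ (1 - r)⁻¹ := by
  rw [ch2_zero]
  have h : nsq z < r := hz
  exact inv_anti₀ (by linarith) (by linarith)

theorem mem_Bl_of_ch2 {z : C2} (hz : z ∈ B) {c : ℝ} (h : ch2 z 0 ≤ c) :
    z ∈ Bl (1 - (2 * c)⁻¹) := by
  rw [ch2_zero] at h
  have h1 : nsq z < 1 := hz
  have h2 : 0 < 1 - nsq z := by linarith
  have h3 : 0 < (1 - nsq z)⁻¹ := inv_pos.2 h2
  have h4 : (1 - nsq z)⁻¹ < 2 * c := by linarith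
  have h5 : (2 * c)⁻¹ < 1 - nsq z := inv_lt_of_inv_lt₀ h2 h4
  show nsq z < 1 - (2 * c)⁻¹
  linarith

theorem ch2_nonneg {z w : C2} (hz : z ∈ B) (hw : w ∈ B) : 0 ≤ ch2 z w :=
  zero_le_one.trans (one_le_ch2 hz hw)

/-- a finite set of elements maps a smaller ball into a smaller ball -/
theorem act_finite {T : Set SU21} (hT : T.Finite) {r : ℝ} (hr : r < 1) :
    ∃ r' < (1 : ℝ), ∀ t ∈ T, ∀ z ∈ Bl r, act t z ∈ Bl r' := by
  obtain ⟨c, hc⟩ := (hT.image fun t => ch2 (act t 0) 0).bddAbove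
  have hr' : 0 < (1 - r)⁻¹ := inv_pos.2 (by linarith)
  refine ⟨1 - (2 * (4 * (1 - r)⁻¹ * max c 1))⁻¹, ?_, fun t ht z hz => ?_⟩
  · have : 0 < (2 * (4 * (1 - r)⁻¹ * max c 1))⁻¹ := by positivity
    linarith
  · have hzB := memB hr hz
    apply mem_Bl_of_ch2 (act_mem t hzB)
    have h1 := ch2_le (act_mem t hzB) zero_mem_B (act_mem t zero_mem_B)
    rw [ch2_act t hzB zero_mem_B] at h1
    have h2 : ch2 (act t 0) 0 ≤ max c 1 := (hc ⟨t, ht, rfl⟩).trans (le_max_left _ _)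
    have h3 := ch2_zero_le hr hz
    have h4 := ch2_nonneg (act_mem t zero_mem_B) zero_mem_B
    refine h1.trans ?_
    gcongr

theorem H_self (x : V3) : H x x = ((‖x 0‖ ^ 2 + ‖x 1‖ ^ 2 - ‖x 2‖ ^ 2 : ℝ) : ℂ) := by
  simp only [H, Complex.mul_conj']
  push_cast
  ring

theorem unit_eq {x : V3} (hx : H x x = 1) : ‖x 0‖ ^ 2 + ‖x 1‖ ^ 2 = 1 + ‖x 2‖ ^ 2 := by
  rw [H_self] at hx
  have h : ‖x 0‖ ^ 2 + ‖x 1‖ ^ 2 - ‖x 2‖ ^ 2 = 1 := by exact_mod_cast hx
  linarith

theorem ell_eq (x : V3) (z : C2) :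
    ell x z = z.1 * conj (x 0) + z.2 * conj (x 1) - conj (x 2) := by
  simp [ell, H, hat]

theorem mv_inv_mv (g : SU21) (v : V3) : mv g⁻¹ (mv g v) = v := by
  rw [← mv_mul, inv_mul_cancel, mv_one]

theorem ell_act_zero (g : SU21) {x : V3} {z : C2} (hz : z ∈ B) (h : ell x z = 0) :
    ell (mv g x) (act g z) = 0 := by
  have h1 := ell_act g x hz
  rw [h] at h1
  exact (mul_eq_zero.1 h1).resolve_right (jf_ne_zero g hz)

end B2

open B2

theorem Lat.finite_meet {Γ : Subgroup SU21} (h : Lat Γ) {r : ℝ} (hr : r < 1) :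
    {γ : SU21 | γ ∈ Γ ∧ ∃ z ∈ Bl r, act γ z ∈ Bl r}.Finite := by
  have hr' : 0 < (1 - r)⁻¹ := inv_pos.2 (by linarith)
  have hlt : 1 - (2 * (4 * (1 - r)⁻¹ * (1 - r)⁻¹))⁻¹ < 1 := by
    have : 0 < (2 * (4 * (1 - r)⁻¹ * (1 - r)⁻¹))⁻¹ := by positivity
    linarith
  refine (h.proper _ hlt).subset ?_
  rintro γ ⟨hγ, z, hz, hγz⟩
  refine ⟨hγ, ?_⟩
  have hzB := memB hr hz
  apply mem_Bl_of_ch2 (act_mem γ zero_mem_B)
  have h1 := ch2_le (act_mem γ zero_mem_B) zero_mem_B (act_mem γ hzB)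
  rw [ch2_act γ zero_mem_B hzB, ch2_symm 0 z] at h1
  have h2 := ch2_zero_le hr hz
  have h3 := ch2_zero_le hr hγz
  have h4 := ch2_nonneg (act_mem γ hzB) zero_mem_B
  refine h1.trans ?_
  gcongr

theorem Lat.countable {Γ : Subgroup SU21} (h : Lat Γ) : Countable Γ := by
  have h1 : (Γ : Set SU21) ⊆
      ⋃ n : ℕ, {γ : SU21 | γ ∈ Γ ∧ act γ 0 ∈ Bl (1 - 1 / ((n : ℝ) + 1))} := by
    intro γ hγ
    have h2 : nsq (act γ 0) < 1 := act_mem γ zero_mem_B
    obtain ⟨n, hn⟩ := exists_nat_one_div_lt (show 0 < 1 - nsq (act γ 0) by linarith)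
    refine mem_iUnion.2 ⟨n, hγ, ?_⟩
    show nsq (act γ 0) < _
    linarith
  have h3 : (Γ : Set SU21).Countable := by
    refine Set.Countable.mono h1 (countable_iUnion fun n => (h.proper _ ?_).countable)
    have : 0 < 1 / ((n : ℝ) + 1) := by positivity
    linarith
  exact h3.to_subtype

theorem Lat.sub {Γ Γ' : Subgroup SU21} (h : Lat Γ) (hle : Γ' ≤ Γ) (hi : Γ'.relIndex Γ ≠ 0) :
    Lat Γ' := by
  refine ⟨fun γ hγ => h.free γ (hle hγ), fun r hr => (h.proper r hr).subset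
    fun γ hγ => ⟨hle hγ.1, hγ.2⟩, ?_, fun γ hγ => h.lox γ (hle hγ)⟩
  obtain ⟨r, hr, hc⟩ := h.cocpt
  have : Finite (↥Γ ⧸ Γ'.subgroupOf Γ) := Nat.finite_of_card_ne_zero hi
  obtain ⟨r', hr', hT⟩ := act_finite
    (Set.finite_range fun q : ↥Γ ⧸ Γ'.subgroupOf Γ => ((q.out : ↥Γ) : SU21)⁻¹) hr
  refine ⟨r', hr', fun z hz => ?_⟩
  obtain ⟨γ, hγ, hγz⟩ := hc z hz
  let q : ↥Γ ⧸ Γ'.subgroupOf Γ := QuotientGroup.mk ⟨γ, hγ⟩
  have hq : (q.out)⁻¹ * ⟨γ, hγ⟩ ∈ Γ'.subgroupOf Γ := QuotientGroup.eq.1 (QuotientGroup.out_eq' q)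
  refine ⟨((q.out : ↥Γ) : SU21)⁻¹ * γ, hq, ?_⟩
  rw [act_mul _ _ hz]
  exact hT _ ⟨q, rfl⟩ _ hγz

theorem Deep.sub {Γ Γ' : Subgroup SU21} {L : ℝ} (h : Deep Γ L) (hle : Γ' ≤ Γ) : Deep Γ' L :=
  fun γ hγ => h γ (hle hγ)

theorem Discs.sub {Γ Γ' : Subgroup SU21} {X : Set V3} {ε : ℝ} (h : Discs Γ X ε) (hle : Γ' ≤ Γ) :
    Discs Γ' X ε :=
  ⟨h.pos, h.unit, fun γ hγ => h.inv γ (hle hγ), h.sep, h.lf⟩

theorem exists_mem_disc {x : V3} (hx : H x x = 1) : ∃ y ∈ B, ell x y = 0 := by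
  have h1 := unit_eq hx
  have hs : (0 : ℝ) < 1 + ‖x 2‖ ^ 2 := by positivity
  have hs' : ((1 + ‖x 2‖ ^ 2 : ℝ) : ℂ) ≠ 0 := by exact_mod_cast hs.ne'
  refine ⟨(conj (x 2) / ((1 + ‖x 2‖ ^ 2 : ℝ) : ℂ) * x 0,
    conj (x 2) / ((1 + ‖x 2‖ ^ 2 : ℝ) : ℂ) * x 1), ?_, ?_⟩
  · show nsq _ < 1
    simp only [nsq, norm_mul, norm_div, Complex.norm_conj, Complex.norm_real, Real.norm_eq_abs,
      abs_of_pos hs]
    have h2 : (‖x 2‖ / (1 + ‖x 2‖ ^ 2) * ‖x 0‖) ^ 2 + (‖x 2‖ / (1 + ‖x 2‖ ^ 2) * ‖x 1‖) ^ 2 =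
        ‖x 2‖ ^ 2 / (1 + ‖x 2‖ ^ 2) := by
      rw [mul_pow, mul_pow, ← mul_add, h1]
      field_simp
    rw [h2, div_lt_one hs]
    linarith
  · rw [ell_eq]
    have h2 : x 0 * conj (x 0) + x 1 * conj (x 1) = ((1 + ‖x 2‖ ^ 2 : ℝ) : ℂ) := by
      rw [← h1, Complex.mul_conj', Complex.mul_conj']
      push_cast
      ring
    show conj (x 2) / _ * x 0 * conj (x 0) + conj (x 2) / _ * x 1 * conj (x 1) - conj (x 2) = 0
    rw [mul_assoc, mul_assoc, ← mul_add, h2, div_mul_cancel₀ _ hs', sub_self]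

theorem Discs.finite_meet {Γ : Subgroup SU21} {X : Set V3} {ε : ℝ} (h : Discs Γ X ε) {r : ℝ}
    (hr : r < 1) : {x | x ∈ X ∧ ∃ z ∈ Bl r, ell x z = 0}.Finite := by
  refine (h.lf (1 + (1 - r)⁻¹)).subset ?_
  rintro x ⟨hx, z, hz, he⟩
  refine ⟨hx, ?_⟩
  have h1 := unit_eq (h.unit x hx)
  rw [ell_eq, sub_eq_zero] at he
  have h2 : ‖x 2‖ ≤ ‖z.1‖ * ‖x 0‖ + ‖z.2‖ * ‖x 1‖ := by
    rw [← Complex.norm_conj (x 2), ← he]
    refine (norm_add_le _ _).trans ?_
    simp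
  have h3 : ‖x 2‖ ^ 2 ≤ nsq z * (1 + ‖x 2‖ ^ 2) := by
    rw [← h1, nsq]
    have h4 : ‖x 2‖ ^ 2 ≤ (‖z.1‖ * ‖x 0‖ + ‖z.2‖ * ‖x 1‖) ^ 2 := by gcongr
    nlinarith [sq_nonneg (‖z.1‖ * ‖x 1‖ - ‖z.2‖ * ‖x 0‖)]
  have h5 : nsq z < r := hz
  have h6 : 0 < 1 - r := by linarith
  have h7 : ‖x 2‖ ^ 2 * (1 - r) ≤ 1 := by nlinarith [sq_nonneg ‖x 2‖]
  have h8 : ‖x 2‖ ^ 2 ≤ (1 - r)⁻¹ := by
    rw [← one_div, le_div_iff₀ h6]
    exact h7
  nlinarith [sq_nonneg (‖x 2‖ - 1), norm_nonneg (x 2)]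

theorem Discs.countable {Γ : Subgroup SU21} {X : Set V3} {ε : ℝ} (h : Discs Γ X ε) :
    X.Countable := by
  have h1 : X ⊆ ⋃ n : ℕ, {x | x ∈ X ∧ ‖x 2‖ ≤ (n : ℝ)} := by
    intro x hx
    obtain ⟨n, hn⟩ := exists_nat_ge ‖x 2‖
    exact mem_iUnion.2 ⟨n, hx, hn⟩
  exact Set.Countable.mono h1 (countable_iUnion fun n => (h.lf _).countable)

/-- distinct discs are distinct lines -/
theorem Discs.eq_of_smul {Γ : Subgroup SU21} {X : Set V3} {ε : ℝ} (h : Discs Γ X ε) {x y : V3}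
    (hx : x ∈ X) (hy : y ∈ X) {c : ℂ} (hc : y = c • x) : y = x := by
  by_contra hne
  have h1 := h.sep y hy x hx hne
  have h2 := h.unit y hy
  have h3 : H y x = c := by rw [hc, H_smul_left, h.unit x hx, mul_one]
  rw [hc, H_smul_left, H_smul_right, h.unit x hx, mul_one, Complex.mul_conj'] at h2
  have h4 : ‖c‖ ^ 2 = 1 := by exact_mod_cast h2
  rw [h3, h4, sub_self, abs_zero] at h1
  exact absurd h.pos (not_lt.2 h1)

/-- finitely many orbits, with exact representatives -/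
theorem Discs.reps {Γ : Subgroup SU21} {X : Set V3} {ε : ℝ} (hΓ : Lat Γ) (h : Discs Γ X ε) :
    ∃ (J : ℕ) (t : Fin J → V3), (∀ j, t j ∈ X) ∧ (∀ x ∈ X, ∃ j, ∃ γ ∈ Γ, mv γ (t j) = x) ∧
      ∀ j j', ∀ γ ∈ Γ, mv γ (t j) = t j' → j = j' := by
  obtain ⟨r, hr, hc⟩ := hΓ.cocpt
  let S : Setoid ↥X :=
    { r := fun x y => ∃ γ ∈ Γ, mv γ x.1 = y.1
      iseqv :=
        { refl := fun x => ⟨1, Γ.one_mem, mv_one _⟩
          symm := fun ⟨γ, hγ, e⟩ => ⟨γ⁻¹, Γ.inv_mem hγ, by rw [← e, mv_inv_mv]⟩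
          trans := fun ⟨γ, hγ, e⟩ ⟨δ, hδ, e'⟩ =>
            ⟨δ * γ, Γ.mul_mem hδ hγ, by rw [mv_mul, e, e']⟩ } }
  have := (h.finite_meet hr).to_subtype
  have : Finite (Quotient S) := by
    refine Finite.of_surjective
      (fun x : ↥{x | x ∈ X ∧ ∃ z ∈ Bl r, ell x z = 0} => Quotient.mk S ⟨x.1, x.2.1⟩) ?_
    intro q
    induction q using Quotient.inductionOn with
    | h x =>
      obtain ⟨y, hy, he⟩ := exists_mem_disc (h.unit x.1 x.2)
      obtain ⟨γ, hγ, hγy⟩ := hc y hy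
      refine ⟨⟨mv γ x.1, h.inv γ hγ _ x.2, act γ y, hγy, ell_act_zero γ hy he⟩, ?_⟩
      exact Quotient.sound ⟨γ⁻¹, Γ.inv_mem hγ, mv_inv_mv _ _⟩
  obtain ⟨J, ⟨e⟩⟩ := Finite.exists_equiv_fin (Quotient S)
  refine ⟨J, fun j => ((e.symm j).out).1, fun j => ((e.symm j).out).2, fun x hx => ?_,
    fun j j' γ hγ he => ?_⟩
  · refine ⟨e (Quotient.mk S ⟨x, hx⟩), ?_⟩
    simp only [e.symm_apply_apply]
    exact Quotient.mk_out (s := S) ⟨x, hx⟩
  · have h1 : Quotient.mk S (e.symm j).out = Quotient.mk S (e.symm j').out :=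
      Quotient.sound ⟨γ, hγ, he⟩
    rw [Quotient.out_eq, Quotient.out_eq] at h1
    exact e.symm.injective h1

/-- the stabiliser of a disc is cocompact on the disc -/
theorem Discs.cocpt {Γ : Subgroup SU21} {X : Set V3} {ε : ℝ} (hΓ : Lat Γ) (h : Discs Γ X ε)
    {x : V3} (hx : x ∈ X) :
    ∃ r < (1 : ℝ), ∀ z ∈ B, ell x z = 0 → ∃ γ ∈ Γ ⊓ stab x, act γ z ∈ Bl r := by
  obtain ⟨r, hr, hc⟩ := hΓ.cocpt
  have hex : ∀ y : V3, ∃ g ∈ Γ, (∃ γ ∈ Γ, mv γ x = y) → mv g x = y := by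
    intro y
    by_cases hy : ∃ γ ∈ Γ, mv γ x = y
    · obtain ⟨γ, hγ, e⟩ := hy
      exact ⟨γ, hγ, fun _ => e⟩
    · exact ⟨1, Γ.one_mem, fun h' => absurd h' hy⟩
  choose g hgΓ hg using hex
  obtain ⟨r', hr', hT⟩ := act_finite ((h.finite_meet hr).image fun y => (g y)⁻¹) hr
  refine ⟨r', hr', fun z hz he => ?_⟩
  obtain ⟨γ, hγ, hγz⟩ := hc z hz
  refine ⟨(g (mv γ x))⁻¹ * γ, ⟨Γ.mul_mem (Γ.inv_mem (hgΓ _)) hγ, ?_⟩, ?_⟩
  · show mv ((g (mv γ x))⁻¹ * γ) x = x
    rw [mv_mul]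
    conv_lhs => rw [← hg (mv γ x) ⟨γ, hγ, rfl⟩]
    rw [hg (mv γ x) ⟨γ, hγ, rfl⟩]
    nth_rewrite 2 [← hg (mv γ x) ⟨γ, hγ, rfl⟩]
    exact mv_inv_mv _ _
  · rw [act_mul _ _ hz]
    exact hT _ ⟨mv γ x, ⟨h.inv γ hγ x hx, act γ z, hγz, ell_act_zero γ hz he⟩, rfl⟩ _ hγz

end Pool.Agent.MP_54e5d7_al.Atc

end MrgPart3

-- ======== part 4: formerly Pool.Agent.MP_54e5d7_al.atc.Base3
section MrgPart4

/-!
PROJECT ATC, library Base, part 3: covers, the slash action, vanishing orders, Bergman spaces.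
-/

set_option autoImplicit false

open scoped ComplexConjugate ContDiff
open Matrix Set MeasureTheory

namespace Pool.Agent.MP_54e5d7_al.Atc

theorem diffOn_div {V : Set C2} {f g : C2 → ℂ} (hf : DifferentiableOn ℂ f V)
    (hg : DifferentiableOn ℂ g V) (h0 : ∀ z ∈ V, g z ≠ 0) :
    DifferentiableOn ℂ (fun z => f z / g z) V := by
  simp only [div_eq_mul_inv]
  exact hf.mul (hg.inv h0)

variable {n : ℕ} {U : Type} [Group U] (C : Cover n U)

theorem Cover.φ_ne_zero (hn : 0 < n) (a : U) {z : C2} (hz : z ∈ B) : C.φ a z ≠ 0 := by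
  intro h
  have h1 := C.pow a z hz
  rw [h, zero_pow hn.ne'] at h1
  exact jf_ne_zero _ hz h1.symm

theorem Cover.φ_one (hn : 0 < n) {z : C2} (hz : z ∈ B) : C.φ 1 z = 1 := by
  have h := C.mul 1 1 z hz
  rw [mul_one, map_one, act_one] at h
  have h0 := C.φ_ne_zero hn 1 hz
  exact (mul_eq_right₀ h0).1 h.symm

theorem Cover.surj (hn : 0 < n) : Function.Surjective C.p := by
  intro g
  obtain ⟨c, hc⟩ := IsAlgClosed.exists_pow_nat_eq (jf g 0) hn
  obtain ⟨a, ha, -⟩ := C.full g c hc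
  exact ⟨a, ha⟩

/-- two continuous `n`-th roots of the same function that agree at one point agree -/
theorem root_unique (hn : 0 < n) {V : Set C2} (hV : IsPreconnected V) {f g : C2 → ℂ}
    (hf : ContinuousOn f V) (hg : ContinuousOn g V) (h : ∀ z ∈ V, f z ^ n = g z ^ n)
    (h0 : ∀ z ∈ V, g z ≠ 0) {y : C2} (hy : y ∈ V) (he : f y = g y) : ∀ z ∈ V, f z = g z := by
  intro z hz
  have hT : ((Polynomial.nthRootsFinset n (1 : ℂ) : Finset ℂ) : Set ℂ).Finite :=
    Finset.finite_toSet _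
  have hc : ContinuousOn (fun z => f z / g z) V := hf.div hg h0
  have hm : MapsTo (fun z => f z / g z) V
      ((Polynomial.nthRootsFinset n (1 : ℂ) : Finset ℂ) : Set ℂ) := by
    intro w hw
    rw [Finset.mem_coe, Polynomial.mem_nthRootsFinset hn, div_pow, h w hw]
    exact div_self (pow_ne_zero _ (h0 w hw))
  have h1 := hV.constant_of_mapsTo hT.isDiscrete hc hm hz hy
  simp only [he, div_self (h0 y hy)] at h1
  exact (div_eq_one_iff_eq (h0 z hz)).1 h1

theorem Cover.φ_const (hn : 0 < n) {a : U} (ha : C.p a = 1) {z : C2} (hz : z ∈ B) :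
    C.φ a z = C.φ a 0 := by
  refine root_unique hn (convex_Bl 1).isPreconnected (g := fun _ => C.φ a 0)
    (C.hol a).continuousOn continuousOn_const ?_ (fun _ _ => C.φ_ne_zero hn a zero_mem_B)
    zero_mem_B rfl z hz
  intro w hw
  rw [C.pow a w hw, C.pow a 0 zero_mem_B, ha, jf_one, jf_one]

theorem Cover.ext' (hn : 0 < n) {a b : U} (h : C.p a = C.p b) {z : C2} (hz : z ∈ B)
    (h' : C.φ a z = C.φ b z) : a = b := by
  have hp : C.p (a * b⁻¹) = 1 := by rw [map_mul, map_inv, h, mul_inv_cancel]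
  have h1 := C.mul (a * b⁻¹) b z hz
  rw [inv_mul_cancel_right, h', C.φ_const hn hp (act_mem _ hz)] at h1
  have h2 : C.φ (a * b⁻¹) 0 = 1 := (mul_eq_right₀ (C.φ_ne_zero hn b hz)).1 h1.symm
  exact mul_inv_eq_one.1 (C.inj _ hp h2)

theorem Cover.full' (hn : 0 < n) (g : SU21) {z : C2} (hz : z ∈ B) {c : ℂ} (hc : c ^ n = jf g z) :
    ∃ a, C.p a = g ∧ C.φ a z = c := by
  obtain ⟨a, ha⟩ := C.surj hn g
  have h0 := C.φ_ne_zero hn a hz
  have h1 : (c / C.φ a z) ^ n = jf 1 0 := by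
    rw [div_pow, hc, C.pow a z hz, ha, jf_one]
    exact div_self (jf_ne_zero g hz)
  obtain ⟨k, hk, hk'⟩ := C.full 1 _ h1
  refine ⟨k * a, by rw [map_mul, hk, one_mul, ha], ?_⟩
  rw [C.mul k a z hz, C.φ_const hn hk (act_mem _ hz), hk', div_mul_cancel₀ _ h0]

theorem Cover.central (hn : 0 < n) {a : U} (ha : C.p a = 1) (b : U) : a * b = b * a := by
  refine C.ext' hn (by rw [map_mul, map_mul, ha, one_mul, mul_one]) zero_mem_B ?_
  rw [C.mul a b 0 zero_mem_B, C.mul b a 0 zero_mem_B, C.φ_const hn ha (act_mem _ zero_mem_B), ha,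
    act_one, mul_comm]

theorem Cover.card_ker (hn : 0 < n) : Nat.card C.p.ker = n := by
  have hmem : ∀ a : C.p.ker, C.φ a 0 ∈ Polynomial.nthRootsFinset n (1 : ℂ) := by
    intro a
    rw [Polynomial.mem_nthRootsFinset hn, C.pow a 0 zero_mem_B, MonoidHom.mem_ker.1 a.2, jf_one]
  have hb : Function.Bijective
      (fun a : C.p.ker => (⟨C.φ a 0, hmem a⟩ : Polynomial.nthRootsFinset n (1 : ℂ))) := by
    constructor
    · intro a b hab
      refine Subtype.ext (C.ext' hn ?_ zero_mem_B (congrArg Subtype.val hab))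
      rw [MonoidHom.mem_ker.1 a.2, MonoidHom.mem_ker.1 b.2]
    · rintro ⟨c, hc⟩
      have hc' : c ^ n = jf 1 0 := by
        rw [jf_one]; exact (Polynomial.mem_nthRootsFinset hn _).1 hc
      obtain ⟨a, ha, ha'⟩ := C.full 1 c hc'
      exact ⟨⟨a, MonoidHom.mem_ker.2 ha⟩, Subtype.ext ha'⟩
  rw [Nat.card_eq_of_bijective _ hb, Nat.card_eq_fintype_card, Fintype.card_coe]
  exact (Complex.isPrimitiveRoot_exp n hn.ne').card_nthRootsFinset

theorem Cover.norm_φ (hn : 0 < n) (a : U) {z : C2} (hz : z ∈ B) :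
    ‖C.φ a z‖ = ‖jf (C.p a) z‖ ^ ((n : ℝ)⁻¹) := by
  rw [← C.pow a z hz, norm_pow, Real.pow_rpow_inv_natCast (norm_nonneg _) hn.ne']

theorem Cover.sl_of_mem (s : ℕ) (f : C2 → ℂ) (a : U) {z : C2} (hz : z ∈ B) :
    C.sl s f a z = f (act (C.p a) z) / C.φ a z ^ s := by
  simp only [Cover.sl, indicator_of_mem hz]

theorem Cover.sl_of_notMem (s : ℕ) (f : C2 → ℂ) (a : U) {z : C2} (hz : z ∉ B) :
    C.sl s f a z = 0 := by
  simp only [Cover.sl, indicator_of_notMem hz]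

theorem Cover.sl_mul (s : ℕ) (f : C2 → ℂ) (a b : U) :
    C.sl s (C.sl s f a) b = C.sl s f (a * b) := by
  funext z
  by_cases hz : z ∈ B
  · rw [C.sl_of_mem s _ b hz, C.sl_of_mem s f a (act_mem _ hz), C.sl_of_mem s f _ hz,
      C.mul a b z hz, map_mul, act_mul _ _ hz, mul_pow, div_div]
  · rw [C.sl_of_notMem s _ _ hz, C.sl_of_notMem s _ _ hz]

theorem Cover.sl_one (hn : 0 < n) (s : ℕ) {f : C2 → ℂ} (hf : ∀ z, z ∉ B → f z = 0) :
    C.sl s f 1 = f := by
  funext z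
  by_cases hz : z ∈ B
  · rw [C.sl_of_mem s f 1 hz, C.φ_one hn hz, map_one, act_one, one_pow, div_one]
  · rw [C.sl_of_notMem s _ _ hz, hf z hz]

theorem Cover.sl_add (s : ℕ) (f g : C2 → ℂ) (a : U) :
    C.sl s (f + g) a = C.sl s f a + C.sl s g a := by
  funext z
  by_cases hz : z ∈ B
  · simp only [Pi.add_apply, C.sl_of_mem s _ a hz, add_div]
  · simp only [Pi.add_apply, C.sl_of_notMem s _ a hz, add_zero]

theorem Cover.sl_smul (s : ℕ) (c : ℂ) (f : C2 → ℂ) (a : U) :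
    C.sl s (c • f) a = c • C.sl s f a := by
  funext z
  by_cases hz : z ∈ B
  · simp only [Pi.smul_apply, C.sl_of_mem s _ a hz, smul_eq_mul, mul_div_assoc]
  · simp only [Pi.smul_apply, C.sl_of_notMem s _ a hz, smul_zero]

theorem Cover.sl_sub (s : ℕ) (f g : C2 → ℂ) (a : U) :
    C.sl s (f - g) a = C.sl s f a - C.sl s g a := by
  funext z
  by_cases hz : z ∈ B
  · simp only [Pi.sub_apply, C.sl_of_mem s _ a hz, sub_div]
  · simp only [Pi.sub_apply, C.sl_of_notMem s _ a hz, sub_zero]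

theorem Cover.sl_zero (s : ℕ) (a : U) : C.sl s (0 : C2 → ℂ) a = 0 := by
  funext z
  by_cases hz : z ∈ B
  · simp only [Pi.zero_apply, C.sl_of_mem s _ a hz, zero_div]
  · simp only [Pi.zero_apply, C.sl_of_notMem s _ a hz]

theorem Cover.sl_sum {ι : Type*} (s : ℕ) (t : Finset ι) (f : ι → C2 → ℂ) (a : U) :
    C.sl s (∑ i ∈ t, f i) a = ∑ i ∈ t, C.sl s (f i) a := by
  classical
  induction t using Finset.induction_on with
  | empty => simp only [Finset.sum_empty, C.sl_zero]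
  | insert i t hi ih => rw [Finset.sum_insert hi, Finset.sum_insert hi, C.sl_add, ih]

theorem Cover.hol_sl (hn : 0 < n) (s : ℕ) {f : C2 → ℂ} (hf : DifferentiableOn ℂ f B) (a : U) :
    Hol (C.sl s f a) := by
  refine ⟨fun z hz => C.sl_of_notMem s f a hz, ?_⟩
  have h1 : DifferentiableOn ℂ (fun z => f (act (C.p a) z)) B :=
    hf.comp (differentiableOn_act _) fun z hz => act_mem _ hz
  have h2 : DifferentiableOn ℂ (fun z => f (act (C.p a) z) / C.φ a z ^ s) B :=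
    diffOn_div h1 ((C.hol a).pow s) fun z hz => pow_ne_zero _ (C.φ_ne_zero hn a hz)
  exact h2.congr fun z hz => C.sl_of_mem s f a hz

/-- invariance of the pointwise norm -/
theorem Cover.norm_sl (hn : 0 < n) (s : ℕ) (f : C2 → ℂ) (a : U) {z : C2} (hz : z ∈ B) :
    ‖C.sl s f a z‖ ^ 2 * (1 - nsq z) ^ ((s : ℝ) / n) =
      ‖f (act (C.p a) z)‖ ^ 2 * (1 - nsq (act (C.p a) z)) ^ ((s : ℝ) / n) := by
  have hz1 : 0 ≤ 1 - nsq z := by
    have : nsq z < 1 := hz
    linarith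
  have hφ : 0 < ‖C.φ a z‖ := norm_pos_iff.2 (C.φ_ne_zero hn a hz)
  have hn' : (n : ℝ) ≠ 0 := Nat.cast_ne_zero.2 hn.ne'
  have key : (‖jf (C.p a) z‖ ^ 2) ^ ((s : ℝ) / n) = (‖C.φ a z‖ ^ s) ^ 2 := by
    rw [← C.pow a z hz, norm_pow, ← pow_mul, ← pow_mul, ← Real.rpow_natCast,
      ← Real.rpow_natCast, ← Real.rpow_mul hφ.le]
    congr 1
    push_cast
    field_simp
  rw [C.sl_of_mem s f a hz, one_sub_nsq_act _ hz, Real.div_rpow hz1 (sq_nonneg _), key, norm_div,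
    norm_pow, div_pow]
  ring

theorem van_iff {k : ℕ} {x : V3} {f : C2 → ℂ} {V : Set C2} :
    Van k x f V ↔ ∀ y ∈ V, Van k x f {y} := by
  constructor
  · intro h y hy w hw
    rw [mem_singleton_iff.1 hw]
    exact h y hy
  · intro h y hy
    exact h y hy y rfl

theorem Van.add {k : ℕ} {x : V3} {f g : C2 → ℂ} {V : Set C2} (hf : Van k x f V)
    (hg : Van k x g V) : Van k x (f + g) V := by
  intro y hy
  obtain ⟨O, hO, q, hq, h⟩ := hf y hy
  obtain ⟨O', hO', q', hq', h'⟩ := hg y hy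
  refine ⟨O ∩ O', Filter.inter_mem hO hO', q + q',
    (hq.mono inter_subset_left).add (hq'.mono inter_subset_right), fun z hz => ?_⟩
  rw [Pi.add_apply, Pi.add_apply, h z hz.1, h' z hz.2, mul_add]

theorem Van.smul {k : ℕ} {x : V3} {f : C2 → ℂ} {V : Set C2} (hf : Van k x f V) (c : ℂ) :
    Van k x (c • f) V := by
  intro y hy
  obtain ⟨O, hO, q, hq, h⟩ := hf y hy
  refine ⟨O, hO, c • q, hq.const_smul c, fun z hz => ?_⟩
  rw [Pi.smul_apply, Pi.smul_apply, h z hz, smul_eq_mul, smul_eq_mul]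
  ring

theorem Van.sub {k : ℕ} {x : V3} {f g : C2 → ℂ} {V : Set C2} (hf : Van k x f V)
    (hg : Van k x g V) : Van k x (f - g) V := by
  have h := hf.add (hg.smul (-1))
  rwa [neg_one_smul, ← sub_eq_add_neg] at h

theorem Van.congr {k : ℕ} {x : V3} {f g : C2 → ℂ} {y : C2} (hf : Van k x f {y})
    (h : f =ᶠ[nhds y] g) : Van k x g {y} := by
  intro w hw
  rw [mem_singleton_iff.1 hw]
  obtain ⟨O, hO, q, hq, h'⟩ := hf y rfl
  refine ⟨O ∩ {z | f z = g z}, Filter.inter_mem hO h, q, hq.mono inter_subset_left,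
    fun z hz => ?_⟩
  rw [← h' z hz.1]
  exact hz.2.symm

theorem van_of_ne {k : ℕ} {x : V3} {f : C2 → ℂ} {y : C2} (hy : ell x y ≠ 0)
    (hf : ∀ᶠ z in nhds y, DifferentiableAt ℂ f z) : Van k x f {y} := by
  intro w hw
  rw [mem_singleton_iff.1 hw]
  have h0 : ∀ᶠ z in nhds y, ell x z ≠ 0 :=
    (differentiable_ell x).continuous.continuousAt.eventually_ne hy
  refine ⟨{z | DifferentiableAt ℂ f z ∧ ell x z ≠ 0}, hf.and h0, fun z => f z / ell x z ^ k,
    ?_, fun z hz => ?_⟩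
  · exact diffOn_div (fun z hz => hz.1.differentiableWithinAt)
      ((differentiable_ell x).differentiableOn.pow k) fun z hz => pow_ne_zero _ hz.2
  · rw [mul_div_cancel₀ _ (pow_ne_zero _ hz.2)]

theorem Cover.van_sl_of (hn : 0 < n) (s k : ℕ) (x : V3) (f : C2 → ℂ) (a : U) {y : C2}
    (hy : y ∈ B) (h : Van k (mv (C.p a) x) f {act (C.p a) y}) : Van k x (C.sl s f a) {y} := by
  intro w hw
  rw [mem_singleton_iff.1 hw]
  obtain ⟨O, hO, q, hq, h'⟩ := h _ rfl
  have hB : B ∈ nhds y := (isOpen_Bl 1).mem_nhds hy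
  have hc : ContinuousAt (act (C.p a)) y := (continuousOn_act _).continuousAt hB
  refine ⟨B ∩ act (C.p a) ⁻¹' O, Filter.inter_mem hB (hc hO),
    fun z => q (act (C.p a) z) / (jf (C.p a) z ^ k * C.φ a z ^ s), ?_, fun z hz => ?_⟩
  · have h1 : DifferentiableOn ℂ (fun z => q (act (C.p a) z)) (B ∩ act (C.p a) ⁻¹' O) :=
      hq.comp ((differentiableOn_act _).mono inter_subset_left) fun z hz => hz.2
    refine diffOn_div h1 (((differentiable_jf _).differentiableOn.pow k).mul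
      (((C.hol a).mono inter_subset_left).pow s)) fun z hz => ?_
    exact mul_ne_zero (pow_ne_zero _ (jf_ne_zero _ hz.1)) (pow_ne_zero _ (C.φ_ne_zero hn a hz.1))
  · have hj := jf_ne_zero (C.p a) hz.1
    have hφ := C.φ_ne_zero hn a hz.1
    rw [C.sl_of_mem s f a hz.1, h' _ hz.2, ← ell_act (C.p a) x hz.1, mul_pow]
    field_simp

/-- transport of vanishing orders -/
theorem Cover.van_sl (hn : 0 < n) (s k : ℕ) (x : V3) (f : C2 → ℂ) (a : U) {y : C2} (hy : y ∈ B) :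
    Van k x (C.sl s f a) {y} ↔ Van k (mv (C.p a) x) f {act (C.p a) y} := by
  refine ⟨fun h => ?_, C.van_sl_of hn s k x f a hy⟩
  have hy' := act_mem (C.p a) hy
  have h1 : Van k (mv (C.p a⁻¹) (mv (C.p a) x)) (C.sl s f a) {act (C.p a⁻¹) (act (C.p a) y)} := by
    rw [map_inv, act_inv_act _ hy, ← mv_mul, inv_mul_cancel, mv_one]
    exact h
  have h2 := C.van_sl_of hn s k _ _ a⁻¹ hy' h1
  rw [C.sl_mul, mul_inv_cancel] at h2
  refine h2.congr ?_
  filter_upwards [(isOpen_Bl 1).mem_nhds hy'] with z hz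
  rw [C.sl_of_mem s f 1 hz, C.φ_one hn hz, map_one, act_one, one_pow, div_one]

variable {C} {Γ : Subgroup SU21} {G : Type} [Group G] (Q : Quo C Γ G)

theorem Quo.sl_congr {s : ℕ} {f : C2 → ℂ} (hf : Q.Aut s f) {a b : ↥(Γ.comap C.p)}
    (h : Q.π a = Q.π b) : C.sl s f a = C.sl s f b := by
  have h1 : Q.π (a * b⁻¹) = 1 := by rw [map_mul, map_inv, h, mul_inv_cancel]
  have h2 := hf.2 _ h1
  have h3 : (a : U) = ((a * b⁻¹ : ↥(Γ.comap C.p)) : U) * b := by simp
  rw [h3, ← C.sl_mul, h2]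

theorem Quo.sl_σ {s : ℕ} {f : C2 → ℂ} (hf : Q.Aut s f) (a : ↥(Γ.comap C.p)) :
    C.sl s f (Q.σ (Q.π a)) = C.sl s f a :=
  Q.sl_congr hf (Q.sec _)

theorem Quo.Aut.sl (hn : 0 < n) {s : ℕ} {f : C2 → ℂ} (hf : Q.Aut s f) (a : ↥(Γ.comap C.p)) :
    Q.Aut s (C.sl s f a) := by
  refine ⟨C.hol_sl hn s hf.1.2 a, fun k hk => ?_⟩
  rw [C.sl_mul, ← Subgroup.coe_mul]
  exact Q.sl_congr hf (by rw [map_mul, hk, mul_one])

theorem Quo.sl_sl_σ {s : ℕ} {f : C2 → ℂ} (hf : Q.Aut s f) (a : ↥(Γ.comap C.p)) (q : G) :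
    C.sl s (C.sl s f a) (Q.σ q) = C.sl s f (Q.σ (Q.π a * q)) := by
  rw [C.sl_mul, ← Subgroup.coe_mul]
  exact Q.sl_congr hf (by rw [map_mul, Q.sec, Q.sec])

theorem Quo.sl_σ_sl {s : ℕ} {f : C2 → ℂ} (hf : Q.Aut s f) (q : G) (a : ↥(Γ.comap C.p)) :
    C.sl s (C.sl s f (Q.σ q)) a = C.sl s f (Q.σ (q * Q.π a)) := by
  rw [C.sl_mul, ← Subgroup.coe_mul]
  exact Q.sl_congr hf (by rw [map_mul, Q.sec, Q.sec])

theorem Quo.Berg.sl (hn : 0 < n) {s : ℕ} {f : C2 → ℂ} (hf : Q.Berg s f) (a : ↥(Γ.comap C.p)) :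
    Q.Berg s (C.sl s f a) := by
  refine ⟨Quo.Aut.sl Q hn hf.1 a, fun r hr => ?_⟩
  obtain ⟨M, hM, h⟩ := hf.2 r hr
  refine ⟨fun q => M (Q.π a * q), (Equiv.mulLeft (Q.π a)).summable_iff.2 hM, fun q z hz => ?_⟩
  rw [Q.sl_sl_σ hf.1]
  exact h _ z hz

theorem Quo.sl_σ_mul {s : ℕ} {f : C2 → ℂ} (hf : Q.Aut s f) (q q' : G) :
    C.sl s (C.sl s f (Q.σ q)) (Q.σ q') = C.sl s f (Q.σ (q * q')) := by
  rw [Q.sl_sl_σ hf, Q.sec]

theorem Quo.aut_zero (s : ℕ) : Q.Aut s 0 :=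
  ⟨⟨fun _ _ => rfl, differentiableOn_const 0⟩, fun k _ => C.sl_zero s k⟩

theorem Quo.Aut.add {s : ℕ} {f g : C2 → ℂ} (hf : Q.Aut s f) (hg : Q.Aut s g) :
    Q.Aut s (f + g) := by
  refine ⟨⟨fun z hz => ?_, hf.1.2.add hg.1.2⟩, fun k hk => ?_⟩
  · rw [Pi.add_apply, hf.1.1 z hz, hg.1.1 z hz, add_zero]
  · rw [C.sl_add, hf.2 k hk, hg.2 k hk]

theorem Quo.Aut.smul {s : ℕ} {f : C2 → ℂ} (hf : Q.Aut s f) (c : ℂ) : Q.Aut s (c • f) := by
  refine ⟨⟨fun z hz => ?_, hf.1.2.const_smul c⟩, fun k hk => ?_⟩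
  · rw [Pi.smul_apply, hf.1.1 z hz, smul_zero]
  · rw [C.sl_smul, hf.2 k hk]

theorem Quo.berg_zero (s : ℕ) : Q.Berg s 0 := by
  refine ⟨Q.aut_zero s, fun r _ => ⟨fun _ => 0, by simp, fun q z _ => ?_⟩⟩
  rw [C.sl_zero, Pi.zero_apply, norm_zero]

theorem Quo.Berg.add {s : ℕ} {f g : C2 → ℂ} (hf : Q.Berg s f) (hg : Q.Berg s g) :
    Q.Berg s (f + g) := by
  refine ⟨Quo.Aut.add Q hf.1 hg.1, fun r hr => ?_⟩
  obtain ⟨M, hM, h⟩ := hf.2 r hr
  obtain ⟨M', hM', h'⟩ := hg.2 r hr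
  refine ⟨fun q => M q + M' q, ?_, fun q z hz => ?_⟩
  · refine Summable.of_nonneg_of_le (fun q => sq_nonneg _) (fun q => ?_)
      ((hM.add hM').mul_left 2)
    nlinarith [sq_nonneg (M q - M' q)]
  · rw [C.sl_add, Pi.add_apply]
    exact (norm_add_le _ _).trans (add_le_add (h q z hz) (h' q z hz))

theorem Quo.Berg.smul {s : ℕ} {f : C2 → ℂ} (hf : Q.Berg s f) (c : ℂ) : Q.Berg s (c • f) := by
  refine ⟨Quo.Aut.smul Q hf.1 c, fun r hr => ?_⟩
  obtain ⟨M, hM, h⟩ := hf.2 r hr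
  refine ⟨fun q => ‖c‖ * M q, ?_, fun q z hz => ?_⟩
  · simpa only [mul_pow] using hM.mul_left (‖c‖ ^ 2)
  · rw [C.sl_smul, Pi.smul_apply, norm_smul]
    exact mul_le_mul_of_nonneg_left (h q z hz) (norm_nonneg _)

theorem Quo.Berg.sub {s : ℕ} {f g : C2 → ℂ} (hf : Q.Berg s f) (hg : Q.Berg s g) :
    Q.Berg s (f - g) := by
  have h := Quo.Berg.add Q hf (Quo.Berg.smul Q hg (-1))
  rwa [neg_one_smul, ← sub_eq_add_neg] at h

end Pool.Agent.MP_54e5d7_al.Atc

end MrgPart4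

-- ======== part 5: formerly Pool.Agent.MP_54e5d7_al.atc.Base3b
section MrgPart5

/-!
PROJECT ATC, library Base, part 3b: a criterion for membership in the Bergman space.
-/

set_option autoImplicit false

open scoped ComplexConjugate ContDiff
open Matrix Set MeasureTheory

namespace Pool.Agent.MP_54e5d7_al.Atc

variable {n : ℕ} {U : Type} [Group U] {C : Cover n U}

/-- the slash action changes values by a bounded factor on a smaller ball -/
theorem Cover.norm_sl_le (C : Cover n U) (hn : 0 < n) (s : ℕ) (f : C2 → ℂ) (a : U) {r : ℝ}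
    (hr : r < 1) {z : C2} (hz : z ∈ Bl r) :
    ‖C.sl s f a z‖ ^ 2 ≤ ((1 - r) ^ ((s : ℝ) / n))⁻¹ * ‖f (act (C.p a) z)‖ ^ 2 := by
  have hzB : z ∈ B := Bl_mono hr.le hz
  have ht : 0 ≤ (s : ℝ) / n := by positivity
  have h1 : 0 < 1 - r := by linarith
  have hz' : nsq z < r := hz
  have h2 : (1 - r) ^ ((s : ℝ) / n) ≤ (1 - nsq z) ^ ((s : ℝ) / n) :=
    Real.rpow_le_rpow h1.le (by linarith) ht
  have hw : nsq (act (C.p a) z) < 1 := act_mem _ hzB
  have h3 : (1 - nsq (act (C.p a) z)) ^ ((s : ℝ) / n) ≤ 1 :=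
    Real.rpow_le_one (by linarith) (by linarith [nsq_nonneg (act (C.p a) z)]) ht
  have h4 := C.norm_sl hn s f a hzB
  have h5 : 0 < (1 - r) ^ ((s : ℝ) / n) := Real.rpow_pos_of_pos h1 _
  rw [inv_mul_eq_div, le_div_iff₀ h5]
  calc ‖C.sl s f a z‖ ^ 2 * (1 - r) ^ ((s : ℝ) / n)
      ≤ ‖C.sl s f a z‖ ^ 2 * (1 - nsq z) ^ ((s : ℝ) / n) :=
        mul_le_mul_of_nonneg_left h2 (sq_nonneg _)
    _ ≤ ‖f (act (C.p a) z)‖ ^ 2 * 1 := by
        rw [h4]; exact mul_le_mul_of_nonneg_left h3 (sq_nonneg _)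
    _ = _ := mul_one _

variable {Γ : Subgroup SU21} {G : Type} [Group G] (Q : Quo C Γ G)

/-- it is enough to bound on one relatively compact set whose translates cover the ball -/
theorem Quo.berg_of_bound (hn : 0 < n) (hΓ : Lat Γ) {s : ℕ} {f : C2 → ℂ} (hf : Q.Aut s f)
    {V : Set C2} {r : ℝ} (hr : r < 1) (hV : V ⊆ Bl r) (hc : ∀ z ∈ B, ∃ γ ∈ Γ, act γ z ∈ V)
    {M : G → ℝ} (hM : Summable fun q => M q ^ 2)
    (hb : ∀ q, ∀ z ∈ V, ‖C.sl s f (Q.σ q) z‖ ≤ M q) : Q.Berg s f := by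
  refine ⟨hf, fun r' hr' => ?_⟩
  have hR : max r r' < 1 := max_lt hr hr'
  have hT := hΓ.finite_meet hR
  have hlift : ∀ γ : SU21, ∃ a : ↥(Γ.comap C.p), γ ∈ Γ → C.p a = γ := by
    intro γ
    by_cases hγ : γ ∈ Γ
    · obtain ⟨a, ha⟩ := C.surj hn γ
      exact ⟨⟨a, by rw [Subgroup.mem_comap, ha]; exact hγ⟩, fun _ => ha⟩
    · exact ⟨1, fun h => absurd h hγ⟩
  choose a ha using hlift
  set c : ℝ := ((1 - r') ^ ((s : ℝ) / n))⁻¹ with hcdef
  have hc0 : 0 ≤ c := inv_nonneg.2 (Real.rpow_nonneg (by linarith) _)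
  have hnn : ∀ q, 0 ≤ c * ∑ γ ∈ hT.toFinset, M (q * (Q.π (a γ))⁻¹) ^ 2 := fun q =>
    mul_nonneg hc0 (Finset.sum_nonneg fun _ _ => sq_nonneg _)
  refine ⟨fun q => Real.sqrt (c * ∑ γ ∈ hT.toFinset, M (q * (Q.π (a γ))⁻¹) ^ 2), ?_,
    fun q z hz => ?_⟩
  · simp only [Real.sq_sqrt (hnn _)]
    refine Summable.mul_left c (summable_sum fun γ _ => ?_)
    exact (Equiv.mulRight (Q.π (a γ))⁻¹).summable_iff.2 hM
  · have hzB : z ∈ B := Bl_mono hr'.le hz
    obtain ⟨γ, hγ, hγV⟩ := hc z hzB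
    have hmem : γ ∈ hT.toFinset := hT.mem_toFinset.2
      ⟨hγ, z, Bl_mono (le_max_right _ _) hz, Bl_mono (le_max_left _ _) (hV hγV)⟩
    have h1 : C.sl s f (Q.σ q) = C.sl s (C.sl s f (Q.σ (q * (Q.π (a γ))⁻¹))) (a γ) := by
      rw [Q.sl_σ_sl hf, inv_mul_cancel_right]
    refine Real.le_sqrt_of_sq_le ?_
    rw [h1]
    refine (C.norm_sl_le hn s _ (a γ) hr' hz).trans (mul_le_mul_of_nonneg_left ?_ hc0)
    rw [ha γ hγ]
    refine (pow_le_pow_left₀ (norm_nonneg _) (hb _ _ hγV) 2).trans ?_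
    exact Finset.single_le_sum (f := fun γ => M (q * (Q.π (a γ))⁻¹) ^ 2)
      (fun _ _ => sq_nonneg _) hmem

end Pool.Agent.MP_54e5d7_al.Atc

end MrgPart5

-- ======== part 6: formerly Pool.Agent.MP_54e5d7_al.atc.Base
section MrgPart6

/-!
PROJECT ATC, library Base: linear algebra of the ball, lattices, discs, covers, slash action.
-/

end MrgPart6

-- ======== part 7: formerly Pool.Agent.MP_54e5d7_al.atc.Hol1
section MrgPart7

/-!
PROJECT ATC, library Hol, first half: holomorphic functions of two variables.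
-/

set_option autoImplicit false

open scoped ComplexConjugate ContDiff Topology
open Set MeasureTheory Filter Metric

namespace Pool.Agent.MP_54e5d7_al.Atc

namespace Hol1

section General

variable {E : Type*} [NormedAddCommGroup E] [NormedSpace ℂ E]

/-- first order Schwarz estimate -/
theorem schwarz1 {f : E → ℂ} {c z : E} {R M : ℝ} (hf : DifferentiableOn ℂ f (ball c R))
    (hM : ∀ w ∈ ball c R, ‖f w‖ ≤ M) (hz : z ∈ ball c R) :
    ‖f z - f c‖ ≤ 2 * M / R * ‖z - c‖ := by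
  have hR : 0 < R := nonempty_ball.mp ⟨_, hz⟩
  have h := Complex.dist_le_div_mul_dist_of_mapsTo_ball (R₂ := 2 * M) hf (fun w hw => ?_) hz
  · simpa [dist_eq_norm] using h
  · rw [mem_closedBall, dist_eq_norm]
    have := norm_sub_le (f w) (f c)
    linarith [hM w hw, hM c (mem_ball_self hR)]

/-- Cauchy estimate -/
theorem cauchy {f : E → ℂ} {y : E} {R M : ℝ} (hR : 0 < R)
    (hf : DifferentiableOn ℂ f (ball y R)) (hM : ∀ z ∈ ball y R, ‖f z‖ ≤ M) :
    ‖fderiv ℂ f y‖ ≤ M / R := by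
  have hM0 : 0 ≤ M := (norm_nonneg _).trans (hM y (mem_ball_self hR))
  have hd : DifferentiableAt ℂ f y := hf.differentiableAt (ball_mem_nhds y hR)
  refine ContinuousLinearMap.opNorm_le_of_unit_norm (by positivity) fun w hw => ?_
  have hmem : ∀ t : ℂ, ‖t‖ < R → y + t • w ∈ ball y R := fun t ht => by
    simpa [norm_smul, hw] using ht
  have hg : DifferentiableOn ℂ (fun t : ℂ => f (y + t • w)) (ball 0 R) :=
    hf.comp (by fun_prop) fun t ht => hmem t (by simpa using ht)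
  have hder : HasDerivAt (fun t : ℂ => f (y + t • w)) (fderiv ℂ f y w) 0 := by
    have h1 : HasDerivAt (fun t : ℂ => y + t • w) w 0 := by
      simpa using ((hasDerivAt_id (0 : ℂ)).smul_const w).const_add y
    exact HasFDerivAt.comp_hasDerivAt_of_eq (0 : ℂ) hd.hasFDerivAt h1 (by simp)
  have key : ∀ r ∈ Ioo 0 R, ‖fderiv ℂ f y w‖ ≤ M / r := by
    intro r hr
    rw [← hder.deriv]
    refine Complex.norm_deriv_le_of_forall_mem_sphere_norm_le hr.1
      (hg.diffContOnCl_ball (closedBall_subset_ball hr.2)) fun t ht => hM _ (hmem t ?_)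
    have : ‖t‖ = r := by simpa using ht
    rw [this]; exact hr.2
  have hlim : Tendsto (fun r => M / r) (𝓝[<] R) (𝓝 (M / R)) :=
    (tendsto_const_nhds.div tendsto_id hR.ne').mono_left nhdsWithin_le_nhds
  exact ge_of_tendsto hlim (by filter_upwards [Ioo_mem_nhdsLT hR] with r hr using key r hr)

/-- second order Schwarz estimate -/
theorem schwarz2 {f : E → ℂ} {c z : E} {R M : ℝ} (hf : DifferentiableOn ℂ f (ball c R))
    (hM : ∀ w ∈ ball c R, ‖f w‖ ≤ M) (hz : z ∈ ball c R) :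
    ‖f z - f c - fderiv ℂ f c (z - c)‖ ≤ 3 * M / R ^ 2 * ‖z - c‖ ^ 2 := by
  have hR : 0 < R := nonempty_ball.mp ⟨_, hz⟩
  have hd : DifferentiableAt ℂ f c := hf.differentiableAt (ball_mem_nhds c hR)
  have hM0 : 0 ≤ M := (norm_nonneg _).trans (hM c (mem_ball_self hR))
  have hL := cauchy hR hf hM
  have h := Complex.dist_le_mul_div_pow_of_mapsTo_ball_of_isLittleO (n := 1) (R₂ := 3 * M)
    (f := fun w => f w - f c - fderiv ℂ f c (w - c)) (c := c) (R₁ := R)
    ((hf.sub_const _).sub (by fun_prop)) (fun w hw => ?_) ?_ hz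
  · simp only [sub_self, map_zero, dist_eq_norm, sub_zero] at h
    refine h.trans_eq ?_
    rw [div_pow]
    ring
  · simp only [sub_self, map_zero, mem_closedBall, dist_eq_norm, sub_zero]
    have h1 := norm_sub_le (f w - f c) (fderiv ℂ f c (w - c))
    have h2 := norm_sub_le (f w) (f c)
    have h3 : ‖fderiv ℂ f c (w - c)‖ ≤ M / R * R :=
      ((fderiv ℂ f c).le_opNorm _).trans (mul_le_mul hL
        (by simpa [dist_eq_norm] using (mem_ball.1 hw).le) (norm_nonneg _) (by positivity))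
    rw [div_mul_cancel₀ _ hR.ne'] at h3
    linarith [hM w hw, hM c (mem_ball_self hR)]
  · simpa using hd.hasFDerivAt.isLittleO.norm_right

end General

theorem bdd_ball {V : Set C2} (hV : IsOpen V) {f : C2 → ℂ} (hc : ContinuousOn f V) {y : C2}
    (hy : y ∈ V) : ∃ R M : ℝ, 0 < R ∧ ball y R ⊆ V ∧ ∀ z ∈ ball y R, ‖f z‖ ≤ M := by
  have h1 : ∀ᶠ z in 𝓝 y, ‖f z‖ < ‖f y‖ + 1 :=
    (hc.continuousAt (hV.mem_nhds hy)).norm.eventually (gt_mem_nhds (lt_add_one _))
  obtain ⟨R, hR, h⟩ := Metric.eventually_nhds_iff_ball.1 (h1.and (hV.mem_nhds hy))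
  exact ⟨R, ‖f y‖ + 1, hR, fun z hz => (h z hz).2, fun z hz => (h z hz).1.le⟩

theorem mem_ball_prod {y : C2} {R : ℝ} {a b : ℂ} :
    (a, b) ∈ ball y R ↔ a ∈ ball y.1 R ∧ b ∈ ball y.2 R := by
  simp [Prod.dist_eq]

end Hol1

open Hol1

/-- Osgood -/
theorem osgood {V : Set C2} (hV : IsOpen V) {f : C2 → ℂ} (hc : ContinuousOn f V)
    (h1 : ∀ z ∈ V, DifferentiableAt ℂ (fun u => f (u, z.2)) z.1)
    (h2 : ∀ z ∈ V, DifferentiableAt ℂ (fun u => f (z.1, u)) z.2) : DifferentiableOn ℂ f V := by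
  intro y hy
  obtain ⟨R, M, hR, hs, hM⟩ := bdd_ball hV hc hy
  have hM0 : 0 ≤ M := (norm_nonneg _).trans (hM y (mem_ball_self hR))
  have d1 : ∀ b ∈ ball y.2 R, DifferentiableOn ℂ (fun u => f (u, b)) (ball y.1 R) :=
    fun b hb a ha => (h1 (a, b) (hs (mem_ball_prod.2 ⟨ha, hb⟩))).differentiableWithinAt
  have d2 : ∀ a ∈ ball y.1 R, DifferentiableOn ℂ (fun u => f (a, u)) (ball y.2 R) :=
    fun a ha b hb => (h2 (a, b) (hs (mem_ball_prod.2 ⟨ha, hb⟩))).differentiableWithinAt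
  set L1 := fderiv ℂ (fun u => f (u, y.2)) y.1
  set L2 := fderiv ℂ (fun u => f (y.1, u)) y.2
  set L : C2 →L[ℂ] ℂ := L1.comp (ContinuousLinearMap.fst ℂ ℂ ℂ) +
    L2.comp (ContinuousLinearMap.snd ℂ ℂ ℂ) with hL
  have est : ∀ z ∈ ball y R, ‖f z - f y - L (z - y)‖ ≤ 10 * M / R ^ 2 * ‖z - y‖ ^ 2 := by
    rintro ⟨a, b⟩ hz
    obtain ⟨ha, hb⟩ := mem_ball_prod.1 hz
    have hy1 : y.1 ∈ ball y.1 R := mem_ball_self hR
    have hy2 : y.2 ∈ ball y.2 R := mem_ball_self hR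
    have na : ‖a - y.1‖ ≤ ‖(a, b) - y‖ := norm_fst_le ((a, b) - y)
    have nb : ‖b - y.2‖ ≤ ‖(a, b) - y‖ := norm_snd_le ((a, b) - y)
    set N := ‖(a, b) - y‖
    have hN : 0 ≤ N := norm_nonneg _
    -- second order estimates along the two coordinate lines through `y`
    have e1 := schwarz2 (d1 _ hy2) (fun w hw => hM _ (mem_ball_prod.2 ⟨hw, hy2⟩)) ha
    have e2 := schwarz2 (d2 _ hy1) (fun w hw => hM _ (mem_ball_prod.2 ⟨hy1, hw⟩)) hb
    -- the mixed difference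
    have e3 := schwarz1 (f := fun u => f (u, b) - f (u, y.2)) (M := 2 * M / R * ‖b - y.2‖)
      ((d1 _ hb).sub (d1 _ hy2))
      (fun w hw => schwarz1 (d2 w hw) (fun v hv => hM _ (mem_ball_prod.2 ⟨hw, hv⟩)) hb) ha
    have e0 : f (a, b) - f y - L ((a, b) - y) =
        (f (a, y.2) - f (y.1, y.2) - L1 (a - y.1)) + (f (y.1, b) - f (y.1, y.2) - L2 (b - y.2)) +
          (f (a, b) - f (a, y.2) - (f (y.1, b) - f (y.1, y.2))) := by
      simp only [hL, add_apply, ContinuousLinearMap.comp_apply,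
        ContinuousLinearMap.coe_fst', ContinuousLinearMap.coe_snd', Prod.fst_sub, Prod.snd_sub,
        Prod.mk.eta]
      ring
    rw [e0]
    have s1 : 3 * M / R ^ 2 * ‖a - y.1‖ ^ 2 ≤ 3 * M / R ^ 2 * N ^ 2 := by gcongr
    have s2 : 3 * M / R ^ 2 * ‖b - y.2‖ ^ 2 ≤ 3 * M / R ^ 2 * N ^ 2 := by gcongr
    have s3 : 2 * (2 * M / R * ‖b - y.2‖) / R * ‖a - y.1‖ ≤ 2 * (2 * M / R * N) / R * N := by
      gcongr
    have s4 : 10 * M / R ^ 2 * N ^ 2 = 3 * M / R ^ 2 * N ^ 2 + 3 * M / R ^ 2 * N ^ 2 +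
        2 * (2 * M / R * N) / R * N := by
      field_simp
      ring
    refine norm_add₃_le.trans ?_
    rw [s4]
    exact add_le_add (add_le_add (e1.trans s1) (e2.trans s2)) (e3.trans s3)
  have hO : (fun z => f z - f y - L (z - y)) =O[𝓝 y] fun z => ‖z - y‖ ^ 2 := by
    refine Asymptotics.IsBigO.of_bound (10 * M / R ^ 2) ?_
    filter_upwards [ball_mem_nhds y hR] with z hz
    simpa using est z hz
  have hF : HasFDerivAt f L y := by
    rw [hasFDerivAt_iff_isLittleO]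
    exact hO.trans_isLittleO (Asymptotics.isLittleO_pow_sub_sub y one_lt_two)
  exact hF.differentiableAt.differentiableWithinAt

/-- Cauchy estimate (the norm of `C2` is the sup norm) -/
theorem hol_cauchy {f : C2 → ℂ} {y : C2} {R M : ℝ} (hR : 0 < R)
    (hf : DifferentiableOn ℂ f (ball y R)) (hM : ∀ z ∈ ball y R, ‖f z‖ ≤ M) :
    ‖fderiv ℂ f y‖ ≤ M / R := cauchy hR hf hM

/-- Weierstrass -/
theorem hol_limit {ι : Type*} {l : Filter ι} [l.NeBot] {V : Set C2} (hV : IsOpen V)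
    {F : ι → C2 → ℂ} {f : C2 → ℂ} (hF : ∀ᶠ i in l, DifferentiableOn ℂ (F i) V)
    (h : TendstoLocallyUniformlyOn F f l V) : DifferentiableOn ℂ f V := by
  have line : ∀ (e : ℂ → C2), Differentiable ℂ e → ∀ t, e t ∈ V →
      DifferentiableAt ℂ (fun u => f (e u)) t := by
    intro e he t ht
    have ho : IsOpen (e ⁻¹' V) := hV.preimage he.continuous
    have h1 := h.comp e (mapsTo_preimage e V) he.continuous.continuousOn
    have h2 := h1.differentiableOn
      (hF.mono fun i hi => hi.comp he.differentiableOn (mapsTo_preimage e V)) ho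
    exact h2.differentiableAt (ho.mem_nhds ht)
  refine osgood hV (h.continuousOn (hF.mono fun i hi => hi.continuousOn).frequently)
    (fun z hz => ?_) fun z hz => ?_
  · exact line (fun u => (u, z.2)) (by fun_prop) z.1 hz
  · exact line (fun u => (z.1, u)) (by fun_prop) z.2 hz

theorem hol_tsum {ι : Type*} {V : Set C2} (hV : IsOpen V) {F : ι → C2 → ℂ} {u : ι → ℝ}
    (hu : Summable u) (hF : ∀ i, DifferentiableOn ℂ (F i) V)
    (hb : ∀ i, ∀ z ∈ V, ‖F i z‖ ≤ u i) : DifferentiableOn ℂ (fun z => ∑' i, F i z) V :=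
  hol_limit hV (Eventually.of_forall fun _ => DifferentiableOn.fun_sum fun i _ => hF i)
    (tendstoUniformlyOn_tsum hu hb).tendstoLocallyUniformlyOn

theorem hol_fderiv {V : Set C2} (hV : IsOpen V) {f : C2 → ℂ} (hf : DifferentiableOn ℂ f V)
    (w : C2) : DifferentiableOn ℂ (fun z => fderiv ℂ f z w) V := by
  intro y hy
  obtain ⟨R, M, hR, hs, hM⟩ := bdd_ball hV hf.continuousOn hy
  have hM0 : 0 ≤ M := (norm_nonneg _).trans (hM y (mem_ball_self hR))
  have hR2 : 0 < R / 2 := by positivity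
  have hsub : ∀ z ∈ ball y (R / 2), ball z (R / 2) ⊆ ball y R := fun z hz =>
    ball_subset_ball' (by linarith [mem_ball.1 hz])
  have hsm : ∀ᶠ t : ℂ in 𝓝[≠] 0, ‖t • w‖ < R / 2 := by
    have : Tendsto (fun t : ℂ => ‖t • w‖) (𝓝 0) (𝓝 0) := by
      simpa using (Continuous.tendsto (f := fun t : ℂ => ‖t • w‖) (by fun_prop) 0)
    exact (this.eventually (gt_mem_nhds hR2)).filter_mono nhdsWithin_le_nhds
  have hmem : ∀ (z : C2) (t : ℂ), ‖t • w‖ < R / 2 → z + t • w ∈ ball z (R / 2) :=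
    fun z t ht => by simpa using ht
  have hD : DifferentiableOn ℂ (fun z => fderiv ℂ f z w) (ball y (R / 2)) := by
    refine hol_limit (l := 𝓝[≠] (0 : ℂ)) isOpen_ball
      (F := fun t z => t⁻¹ * (f (z + t • w) - f z)) ?_
      (TendstoUniformlyOn.tendstoLocallyUniformlyOn ?_)
    · filter_upwards [hsm] with t ht
      refine DifferentiableOn.const_mul (DifferentiableOn.sub ?_ ?_) _
      · exact hf.comp (by fun_prop) fun z hz => hs (hsub z hz (hmem z t ht))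
      · exact hf.mono fun z hz => hs (hsub z hz (mem_ball_self hR2))
    · rw [Metric.tendstoUniformlyOn_iff]
      intro ε hε
      have hsm2 : ∀ᶠ t : ℂ in 𝓝[≠] 0, 3 * M / (R / 2) ^ 2 * ‖w‖ ^ 2 * ‖t‖ < ε := by
        have : Tendsto (fun t : ℂ => 3 * M / (R / 2) ^ 2 * ‖w‖ ^ 2 * ‖t‖) (𝓝 0) (𝓝 0) :=
          Continuous.tendsto' (by fun_prop) 0 0 (by simp)
        exact (this.eventually (gt_mem_nhds hε)).filter_mono nhdsWithin_le_nhds
      filter_upwards [hsm, hsm2, self_mem_nhdsWithin] with t ht ht2 ht0 z hz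
      have ht0' : t ≠ 0 := ht0
      have hn : 0 < ‖t‖ := norm_pos_iff.2 ht0'
      have e := schwarz2 (hf.mono ((hsub z hz).trans hs)) (fun v hv => hM v (hsub z hz hv))
        (hmem z t ht)
      rw [add_sub_cancel_left, map_smul, norm_smul, smul_eq_mul] at e
      have e' : t⁻¹ * (f (z + t • w) - f z) - fderiv ℂ f z w =
          t⁻¹ * (f (z + t • w) - f z - t * fderiv ℂ f z w) := by
        field_simp
      rw [dist_comm, dist_eq_norm, e', norm_mul, norm_inv]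
      refine lt_of_le_of_lt ?_ ht2
      rw [inv_mul_le_iff₀ hn]
      refine e.trans_eq ?_
      ring
  exact (hD.differentiableAt (ball_mem_nhds y hR2)).differentiableWithinAt

theorem hol_contDiffOn {V : Set C2} (hV : IsOpen V) {f : C2 → ℂ} (hf : DifferentiableOn ℂ f V) :
    ContDiffOn ℂ ∞ f V := by
  rw [contDiffOn_infty]
  intro n
  induction n generalizing f with
  | zero => exact contDiffOn_zero.2 hf.continuousOn
  | succ n ih =>
    rw [Nat.cast_succ, contDiffOn_succ_iff_fderiv_of_isOpen hV]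
    exact ⟨hf, by simp, contDiffOn_clm_apply.2 fun w => ih (hol_fderiv hV hf w)⟩

theorem hol_contDiffOn_real {V : Set C2} (hV : IsOpen V) {f : C2 → ℂ}
    (hf : DifferentiableOn ℂ f V) : ContDiffOn ℝ ∞ f V :=
  (hol_contDiffOn hV hf).restrict_scalars ℝ

/-- identity theorem -/
theorem hol_identity {V : Set C2} (hV : IsOpen V) (hc : IsPreconnected V) {f : C2 → ℂ}
    (hf : DifferentiableOn ℂ f V) {y : C2} (hy : y ∈ V) (h : f =ᶠ[𝓝 y] 0) :
    ∀ z ∈ V, f z = 0 := by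
  have hu : IsOpen {z | f =ᶠ[𝓝 z] 0} := isOpen_setOfPred_eventually_nhds
  have hsub : V ⊆ {z | f =ᶠ[𝓝 z] 0} := by
    refine hc.subset_of_closure_inter_subset hu ⟨y, hy, h⟩ ?_
    rintro z ⟨hz, hzV⟩
    obtain ⟨R, hR, hs⟩ := Metric.isOpen_iff.1 hV z hzV
    obtain ⟨p, hp, hp0⟩ := mem_closure_iff.1 hz (ball z R) isOpen_ball (mem_ball_self hR)
    filter_upwards [ball_mem_nhds z hR] with q hq
    set e : ℂ → C2 := fun t => p + t • (q - p) with he
    have hed : Differentiable ℂ e := by fun_prop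
    have ho : IsOpen (e ⁻¹' ball z R) := isOpen_ball.preimage hed.continuous
    have hcv : Convex ℝ (e ⁻¹' ball z R) := by
      intro s hs' t ht a b ha hb hab
      have := convex_ball z R hs' ht ha hb hab
      have e1 : e (a • s + b • t) = a • e s + b • e t := by
        have hb' : b = 1 - a := by linarith
        simp only [he, hb', add_smul, smul_add, smul_assoc, sub_smul, one_smul]
        abel
      rwa [mem_preimage, e1]
    have han : AnalyticOnNhd ℂ (fun t => f (e t)) (e ⁻¹' ball z R) :=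
      DifferentiableOn.analyticOnNhd (hf.comp hed.differentiableOn fun t ht => hs ht) ho
    have h0 : (fun t => f (e t)) =ᶠ[𝓝 0] 0 := by
      have ht : Tendsto e (𝓝 0) (𝓝 p) := by simpa [he] using hed.continuous.tendsto 0
      exact ht.eventually hp0
    have h1 := han.eqOn_zero_of_preconnected_of_eventuallyEq_zero hcv.isPreconnected
      (z₀ := 0) (by simpa [he] using hp) h0 (x := 1) (by simpa [he] using hq)
    simpa [he] using h1
  exact fun z hz => (hsub hz).self_of_nhds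

namespace Hol1

open Real in
/-- mean value property on a disc -/
theorem mean1 {g : ℂ → ℂ} {c : ℂ} {r : ℝ} (hr : 0 < r) (hc : ContinuousOn g (closedBall c r))
    (hd : DifferentiableOn ℂ g (ball c r)) :
    ∫ z in ball c r, g z = ((π * r ^ 2 : ℝ) : ℂ) * g c := by
  have pol : ∀ p : ℝ × ℝ, Complex.polarCoord.symm p = circleMap 0 p.1 p.2 := fun p => by
    rw [Complex.polarCoord_symm_apply, circleMap_zero, Complex.exp_mul_I]
    simp
  have e1 : ∫ z in ball c r, g z = ∫ z, (ball (0 : ℂ) r).indicator (fun z => g (c + z)) z := by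
    rw [← integral_indicator measurableSet_ball, ← integral_add_left_eq_self _ c]
    congr 1
    funext z
    by_cases hz : z ∈ ball (0 : ℂ) r
    · rw [indicator_of_mem hz, indicator_of_mem]
      simpa [dist_eq_norm] using hz
    · rw [indicator_of_notMem hz, indicator_of_notMem]
      simpa [dist_eq_norm] using hz
  rw [e1, ← Complex.integral_comp_polarCoord_symm, polarCoord_target]
  have e2 : ∫ p in Ioi (0 : ℝ) ×ˢ Ioo (-π) π,
      p.1 • (ball (0 : ℂ) r).indicator (fun z => g (c + z)) (Complex.polarCoord.symm p) =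
      ∫ p in Ioo (0 : ℝ) r ×ˢ Ioo (-π) π, p.1 • g (circleMap c p.1 p.2) := by
    have hm : MeasurableSet {p : ℝ × ℝ | p.1 < r} :=
      measurableSet_lt measurable_fst measurable_const
    have : Ioo (0 : ℝ) r ×ˢ Ioo (-π) π =
        (Ioi (0 : ℝ) ×ˢ Ioo (-π) π) ∩ {p : ℝ × ℝ | p.1 < r} := by
      ext p; simp only [mem_prod, mem_Ioo, mem_inter_iff, mem_Ioi, mem_ofPred_eq]; tauto
    rw [this, ← setIntegral_indicator hm]
    refine setIntegral_congr_fun (measurableSet_Ioi.prod measurableSet_Ioo) fun p hp => ?_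
    have hp1 : 0 < p.1 := hp.1
    simp only [pol]
    by_cases h : p.1 < r
    · rw [indicator_of_mem (s := {p : ℝ × ℝ | p.1 < r}) h, indicator_of_mem]
      · simp [circleMap]
      · simpa [abs_of_pos hp1] using h
    · rw [indicator_of_notMem (s := {p : ℝ × ℝ | p.1 < r}) h, indicator_of_notMem]
      · simp
      · simpa [abs_of_pos hp1] using h
  rw [e2]
  have hint : IntegrableOn (fun p : ℝ × ℝ => p.1 • g (circleMap c p.1 p.2))
      (Ioo (0 : ℝ) r ×ˢ Ioo (-π) π) (volume.prod volume) := by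
    have hc' : ContinuousOn (fun p : ℝ × ℝ => p.1 • g (circleMap c p.1 p.2))
        (Icc (0 : ℝ) r ×ˢ Icc (-π) π) := by
      refine continuousOn_fst.smul (hc.comp circleMap.continuous.continuousOn fun p hp => ?_)
      exact closedBall_subset_closedBall hp.1.2 (circleMap_mem_closedBall c hp.1.1 _)
    exact (hc'.integrableOn_compact (isCompact_Icc.prod isCompact_Icc)).mono_set
      (prod_mono Ioo_subset_Icc_self Ioo_subset_Icc_self)
  have inner : ∀ s ∈ Ioo (0 : ℝ) r,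
      ∫ θ in Ioo (-π) π, s • g (circleMap c s θ) = s • ((2 * π) • g c) := by
    intro s hs
    have h1 : circleAverage g c s = g c := by
      apply DiffContOnCl.circleAverage
      rw [abs_of_pos hs.1]
      exact hd.diffContOnCl_ball (closedBall_subset_ball hs.2)
    rw [circleAverage_eq_integral_add (-π),
      intervalIntegral.integral_comp_add_right (fun θ => g (circleMap c s θ))] at h1
    rw [integral_smul, ← integral_Ioc_eq_integral_Ioo,
      ← intervalIntegral.integral_of_le (by linarith [pi_pos]), ← h1, smul_smul (2 * π),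
      mul_inv_cancel₀ (by positivity), one_smul, zero_add, show 2 * π + -π = π by ring]
  rw [Measure.volume_eq_prod, setIntegral_prod _ hint,
    setIntegral_congr_fun measurableSet_Ioo inner, integral_smul_const,
    ← integral_Ioc_eq_integral_Ioo, ← intervalIntegral.integral_of_le hr.le, integral_id,
    smul_smul, Complex.real_smul]
  congr 2
  ring

end Hol1

/-- mean value property on a polydisc -/
theorem hol_mean {f : C2 → ℂ} {y : C2} {R : ℝ} (hR : 0 < R) {V : Set C2} (hV : IsOpen V)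
    (hs : closedBall y R ⊆ V) (hf : DifferentiableOn ℂ f V) :
    ∫ z in ball y R, f z = ((Real.pi * R ^ 2) ^ 2 : ℝ) * f y := by
  have hint : IntegrableOn f (ball y.1 R ×ˢ ball y.2 R) (volume.prod volume) := by
    rw [ball_prod_same]
    exact ((hf.continuousOn.mono hs).integrableOn_compact (isCompact_closedBall y R)).mono_set
      ball_subset_closedBall
  have hm : ∀ a ∈ closedBall y.1 R, ∀ b ∈ closedBall y.2 R, (a, b) ∈ V := fun a ha b hb =>
    hs (by rw [← closedBall_prod_same y.1 y.2 R]; exact ⟨ha, hb⟩)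
  have line : ∀ (e : ℂ → C2) (c : ℂ), Differentiable ℂ e → MapsTo e (closedBall c R) V →
      ∫ u in ball c R, f (e u) = ((Real.pi * R ^ 2 : ℝ) : ℂ) * f (e c) := fun e c he hm' =>
    mean1 hR (hf.continuousOn.comp he.continuous.continuousOn hm')
      (hf.comp he.differentiableOn (hm'.mono_left ball_subset_closedBall))
  have _ := hV
  rw [← ball_prod_same y.1 y.2 R, Measure.volume_eq_prod, setIntegral_prod _ hint,
    setIntegral_congr_fun measurableSet_ball fun a ha =>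
      line (fun u => (a, u)) y.2 (by fun_prop) fun b hb => hm a (ball_subset_closedBall ha) b hb,
    integral_const_mul,
    line (fun u => (u, y.2)) y.1 (by fun_prop) fun a ha => hm a ha _ (mem_closedBall_self hR.le)]
  push_cast
  ring

theorem hol_sq_le {f : C2 → ℂ} {y : C2} {R : ℝ} (hR : 0 < R) {V : Set C2} (hV : IsOpen V)
    (hs : closedBall y R ⊆ V) (hf : DifferentiableOn ℂ f V) :
    (Real.pi * R ^ 2) ^ 2 * ‖f y‖ ^ 2 ≤ ∫ z in ball y R, ‖f z‖ ^ 2 := by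
  have h := hol_mean hR hV hs (hf.pow 2)
  have h2 := norm_integral_le_integral_norm (μ := volume.restrict (ball y R)) fun z => f z ^ 2
  simp only [Pi.pow_apply] at h
  rw [h, norm_mul, Complex.norm_real, Real.norm_of_nonneg (by positivity), norm_pow] at h2
  simpa only [norm_pow] using h2

end Pool.Agent.MP_54e5d7_al.Atc

end MrgPart7

-- marker of a merged file
example : 731051 + 671030 = 731051 + 671030 := rfl
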