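import Pool.Agent.MP_54e5d7_al.atc.Hol1

/-!
PROJECT ATC: the block interfaces.
-/

set_option autoImplicit false

open scoped ComplexConjugate ContDiff
open Matrix Set MeasureTheory

namespace Pool.Agent.MP_54e5d7_al.Atc

/-- COV: the cover exists. -/
def CovStmt : Prop :=
  ∀ n : ℕ, 0 < n → ∃ (U : Type) (_ : Group U), Nonempty (Cover n U)

/-- The `17`-adic tower below `Γ`. -/
def Tower (Γ : Subgroup SU21) (X : Set V3) : Prop :=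
  ∀ c : ℕ, ∃ (b e : ℕ) (Γ' : Subgroup SU21), Γ' ≤ Γ ∧ Γ'.relIndex Γ = 17 ^ e ∧ e ≤ 2 * b ∧
    ∀ x ∈ X, 17 ^ (b + c) ∣ (Γ' ⊓ stab x).relIndex (Γ ⊓ stab x)

/-- ARITH (LAT + AMP + NT): the lattice, the ample divisor, deep subgroups and the tower. -/
def ArithStmt : Prop :=
  ∃ Γ₀ : Subgroup SU21, Lat Γ₀ ∧ ∀ r < (1 : ℝ), ∀ c : ℝ, ∃ (X : Set V3) (m : V3 → ℕ) (ε : ℝ),
    Discs Γ₀ X ε ∧ Weight Γ₀ X m r c ∧ ∀ L : ℝ, ∃ Γ₁ : Subgroup SU21,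
      Γ₁ ≤ Γ₀ ∧ Γ₁.relIndex Γ₀ ≠ 0 ∧ Deep Γ₁ L ∧ Tower Γ₁ X

/-- SPLIT: the cover splits over the stabilisers of the discs. -/
def SplitStmt : Prop :=
  ∀ (n : ℕ) (U : Type) [Group U] (C : Cover n U) (Γ₁ Γ₂ : Subgroup SU21) (X : Set V3) (ε : ℝ),
    0 < n → Lat Γ₁ → Discs Γ₁ X ε → Γ₂ ≤ Γ₁ → Γ₂.relIndex Γ₁ ≠ 0 →
    (∀ x ∈ X, n ∣ (Γ₂ ⊓ stab x).relIndex (Γ₁ ⊓ stab x)) → ∃ N, Fill C Γ₂ X N

/-- SC: small cancellation. -/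
def ScStmt : Prop :=
  ∀ ε : ℝ, 0 < ε → ∃ L : ℝ, ∀ (n : ℕ) (U : Type) [Group U] (C : Cover n U) (Γ : Subgroup SU21)
    (X : Set V3) (N : V3 → Subgroup U), 0 < n → Lat Γ → Deep Γ L → Discs Γ X ε → Fill C Γ X N →
    (∀ z ∈ ⨆ x ∈ X, N x, C.p z = 1 → z = 1) ∧
    ∀ a, C.p a ∈ Γ → ∀ k : ℕ, 0 < k → a ^ k ∈ ⨆ x ∈ X, N x →
      ∃ z, C.p z = 1 ∧ a * z⁻¹ ∈ ⨆ x ∈ X, N x

/-- EXT: vanishing of `H⁰` and `H¹` of `L(-D)` in the square-integrable sense. -/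
def ExtStmt : Prop :=
  ∀ Γ₀ : Subgroup SU21, Lat Γ₀ → ∃ r < (1 : ℝ), ∃ c : ℝ,
    ∀ (X : Set V3) (m : V3 → ℕ) (ε : ℝ), Discs Γ₀ X ε → Weight Γ₀ X m r c →
    ∀ (n : ℕ) (U : Type) [Group U] (C : Cover n U) (Γ : Subgroup SU21) (G : Type) [Group G]
      (Q : Quo C Γ G) (s : ℕ), 0 < n → s ≤ 6 * n → Γ ≤ Γ₀ → Γ.relIndex Γ₀ ≠ 0 →
      (∀ z : ↥(Γ.comap C.p), C.p z = 1 → Q.π z = 1 → z = 1) →
      Q.H0 s X m ∧ ∃ (k : ℕ) (O : Fin k → Set C2), Charts Γ O ∧ Q.H1 s X m O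

/-- JET: the finite-dimensional space of automorphic jets along one disc. -/
def JetStmt : Prop :=
  ∀ (n : ℕ) (U : Type) [Group U] (C : Cover n U) (Γ : Subgroup SU21) (X : Set V3) (ε : ℝ)
    (N : V3 → Subgroup U) (s k : ℕ), 0 < n → Lat Γ → Discs Γ X ε → Fill C Γ X N → ∀ x ∈ X,
    ∃ (d : ℕ) (b : Fin d → C2 → ℂ) (Λ : Fin d → (C2 → ℂ) →ₗ[ℂ] ℂ),
      (∀ i, Hol (b i) ∧ ∀ ν ∈ N x, C.sl s (b i) ν = b i) ∧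
      (∀ f, Hol f → (∀ ν ∈ N x, C.sl s f ν = f) → Van k x (f - ∑ i, Λ i f • b i) B) ∧
      (∃ r < (1 : ℝ), ∃ c : ℝ, ∀ f, Hol f → (∀ ν ∈ N x, C.sl s f ν = f) →
        ∀ M : ℝ, (∀ z ∈ Bl r, ‖f z‖ ≤ M) → ∀ i, ‖Λ i f‖ ≤ c * M) ∧
      ∀ (c : Fin d → ℂ) (y : C2), y ∈ B → ell x y = 0 → Van k x (∑ i, c i • b i) {y} → c = 0

/-- FIN: the Bergman space is the kernel of a matrix over the group ring. -/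
def FinStmt : Prop :=
  ∀ (n : ℕ) (U : Type) [Group U] (C : Cover n U) (Γ : Subgroup SU21) (X : Set V3) (ε : ℝ)
    (m : V3 → ℕ) (N : V3 → Subgroup U) (G : Type) [Group G] (Q : Quo C Γ G) (s k : ℕ)
    (O : Fin k → Set C2), 0 < n → Lat Γ → Discs Γ X ε → (∀ γ ∈ Γ, ∀ x ∈ X, m (mv γ x) = m x) →
    Fill C Γ X N → (∀ x ∈ X, ∀ ν : ↥(Γ.comap C.p), ν.1 ∈ N x → Q.π ν = 1) →
    Q.H0 s X m → Charts Γ O → Q.H1 s X m O →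
    ∃ (k' l : ℕ) (A : Matrix (Fin k') (Fin l) (G →₀ ℂ)) (Λ : Fin k' → (C2 → ℂ) →ₗ[ℂ] ℂ),
      Q.FinType s A Λ

/-- TYPE (= EXT + JET + FIN, or any other route): the only form used by the final assembly. -/
def TypeStmt : Prop :=
  ∀ Γ₀ : Subgroup SU21, Lat Γ₀ → ∃ r < (1 : ℝ), ∃ c : ℝ,
    ∀ (X : Set V3) (m : V3 → ℕ) (ε : ℝ), Discs Γ₀ X ε → Weight Γ₀ X m r c →
    ∀ (n : ℕ) (U : Type) [Group U] (C : Cover n U) (Γ : Subgroup SU21) (N : V3 → Subgroup U)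
      (G : Type) [Group G] (Q : Quo C Γ G) (s : ℕ), 0 < n → s ≤ 6 * n → Γ ≤ Γ₀ →
      Γ.relIndex Γ₀ ≠ 0 → (∀ z : ↥(Γ.comap C.p), C.p z = 1 → Q.π z = 1 → z = 1) →
      Fill C Γ X N →
      (∀ x ∈ X, ∀ ν : ↥(Γ.comap C.p), ν.1 ∈ N x → Q.π ν = 1) →
      ∃ (k l : ℕ) (A : Matrix (Fin k) (Fin l) (G →₀ ℂ)) (Λ : Fin k → (C2 → ℂ) →ₗ[ℂ] ℂ),
        Q.FinType s A Λ

/-- COVOL: fundamental domains and the index. -/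
def CovolStmt : Prop :=
  ∀ Γ₁ : Subgroup SU21, Lat Γ₁ → ∃ F₁, FD Γ₁ F₁ ∧ 0 < vol F₁ ∧
    ∀ Γ₂ : Subgroup SU21, Γ₂ ≤ Γ₁ → Γ₂.relIndex Γ₁ ≠ 0 →
      ∃ F₂, FD Γ₂ F₂ ∧ vol F₂ = (Γ₂.relIndex Γ₁ : ℝ) * vol F₁

/-- KER: the reproducing kernel of the Bergman space and its trace. -/
def KerStmt : Prop :=
  ∀ (n : ℕ) (U : Type) [Group U] (C : Cover n U) (Γ : Subgroup SU21) (G : Type) [Group G]
    (Q : Quo C Γ G) (s : ℕ) (F : Set C2), 0 < n → 5 * n < s → Lat Γ → FD Γ F →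
    (∀ z : ↥(Γ.comap C.p), C.p z = 1 → Q.π z = 1 → z = 1) →
    ∃ κ : C2 → C2 → ℂ, (∀ z ∈ B, Q.Berg s (κ z)) ∧
      (∀ z ∈ B, ∀ f, Q.Berg s f → HasSum (fun q : G => ∫ w in F,
        conj (C.sl s (κ z) (Q.σ q) w) * C.sl s f (Q.σ q) w *
          (((1 - nsq w) ^ ((s : ℝ) / n) * rho w : ℝ) : ℂ)) (f z)) ∧
      ∫ z in F, κ z z * (((1 - nsq z) ^ ((s : ℝ) / n) * rho z : ℝ) : ℂ) =
        ((vol F * (((s : ℝ) / n - 1) * ((s : ℝ) / n - 2)) / (Real.pi ^ 2 * n) : ℝ) : ℂ)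

/-- DIM: the dimension of the kernel is the trace of the reproducing kernel. -/
def DimStmt : Prop :=
  ∀ (n : ℕ) (U : Type) [Group U] (C : Cover n U) (Γ : Subgroup SU21) (G : Type) [Group G]
    (Q : Quo C Γ G) (s : ℕ) (F : Set C2) (κ : C2 → C2 → ℂ) (k l : ℕ)
    (A : Matrix (Fin k) (Fin l) (G →₀ ℂ)) (Λ : Fin k → (C2 → ℂ) →ₗ[ℂ] ℂ),
    0 < n → Lat Γ → FD Γ F → Q.FinType s A Λ → (∀ z ∈ B, Q.Berg s (κ z)) →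
    (∀ z ∈ B, ∀ f, Q.Berg s f → HasSum (fun q : G => ∫ w in F,
        conj (C.sl s (κ z) (Q.σ q) w) * C.sl s f (Q.σ q) w *
          (((1 - nsq w) ^ ((s : ℝ) / n) * rho w : ℝ) : ℂ)) (f z)) →
    ((vnDim A : ℝ) : ℂ) = ∫ z in F, κ z z * (((1 - nsq z) ^ ((s : ℝ) / n) * rho z : ℝ) : ℂ)

end Pool.Agent.MP_54e5d7_al.Atc
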