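import Mathlib.LinearAlgebra.FreeModule.PID
import Mathlib.Algebra.Module.StablyFree.Basic
import Mathlib.RingTheory.Complex
import Mathlib.RingTheory.Norm.Transitivity
import Mathlib.Analysis.InnerProductSpace.NormDet
import Pool.Agent.MP_54e5d7_al.atc.Hol1

/-!
PROJECT ATC, library Meas, part 1: the invariant measure on the ball, its invariance and the
radial integrals.
-/

set_option autoImplicit false

open scoped ComplexConjugate ENNReal
open Set MeasureTheory

namespace Pool.Agent.MP_54e5d7_al.Atc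

/-- the linear map with matrix rows a b and c d -/
noncomputable def M1.lin2 (a b c d : ℂ) : C2 →L[ℂ] C2 :=
  (a • ContinuousLinearMap.fst ℂ ℂ ℂ + b • ContinuousLinearMap.snd ℂ ℂ ℂ).prod
    (c • ContinuousLinearMap.fst ℂ ℂ ℂ + d • ContinuousLinearMap.snd ℂ ℂ ℂ)

open M1

theorem M1.det_lin2 (a b c d : ℂ) : (lin2 a b c d).det = a * d - b * c := by
  have h : ((lin2 a b c d : C2 →L[ℂ] C2) : C2 →ₗ[ℂ] C2) =
      Matrix.toLin (Module.Basis.finTwoProd ℂ) (Module.Basis.finTwoProd ℂ) !![a, b; c, d] := by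
    refine LinearMap.ext fun w => ?_
    rw [Matrix.toLin_finTwoProd_apply]
    simp [lin2]
  rw [ContinuousLinearMap.det, h, LinearMap.det_toLin, Matrix.det_fin_two_of]

theorem M1.det_restrict (L : C2 →L[ℂ] C2) : (L.restrictScalars ℝ).det = ‖L.det‖ ^ 2 := by
  have h : ((L.restrictScalars ℝ : C2 →L[ℝ] C2) : C2 →ₗ[ℝ] C2) =
      (L : C2 →ₗ[ℂ] C2).restrictScalars ℝ := rfl
  rw [ContinuousLinearMap.det, h, LinearMap.det_restrictScalars, Algebra.norm_complex_apply,
    Complex.normSq_eq_norm_sq]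

theorem M1.mv_hat_apply (g : SU21) (z : C2) (i : Fin 3) :
    mv g (hat z) i = g.1.1 i 0 * z.1 + g.1.1 i 1 * z.2 + g.1.1 i 2 := by
  simp [mv, hat, Matrix.mulVec, dotProduct, Fin.sum_univ_three]

theorem M1.hasFDerivAt_mv_hat (g : SU21) (z : C2) (i : Fin 3) :
    HasFDerivAt (fun z : C2 => mv g (hat z) i)
      (g.1.1 i 0 • ContinuousLinearMap.fst ℂ ℂ ℂ + g.1.1 i 1 • ContinuousLinearMap.snd ℂ ℂ ℂ) z := by
  simp only [mv_hat_apply]
  exact ((hasFDerivAt_fst.const_mul _).add (hasFDerivAt_snd.const_mul _)).add_const _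

/-- the complex derivative of the action and its determinant -/
theorem M1.hasFDerivAt_act (g : SU21) {z : C2} (hz : z ∈ B) :
    ∃ L : C2 →L[ℂ] C2, HasFDerivAt (act g) L z ∧ L.det = (jf g z ^ 3)⁻¹ := by
  have hj := jf_ne_zero g hz
  set M := g.1.1 with hM
  set j := jf g z with hjd
  set a := mv g (hat z) 0 with ha
  set b := mv g (hat z) 1 with hb
  refine ⟨lin2 ((M 0 0 * j - a * M 2 0) / j ^ 2) ((M 0 1 * j - a * M 2 1) / j ^ 2)
    ((M 1 0 * j - b * M 2 0) / j ^ 2) ((M 1 1 * j - b * M 2 1) / j ^ 2), ?_, ?_⟩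
  · have h2 := hasFDerivAt_mv_hat g z 2
    have hi : HasFDerivAt (fun z : C2 => (mv g (hat z) 2)⁻¹)
        ((-(j ^ 2)⁻¹) • (M 2 0 • ContinuousLinearMap.fst ℂ ℂ ℂ +
          M 2 1 • ContinuousLinearMap.snd ℂ ℂ ℂ)) z :=
      (hasDerivAt_inv hj).comp_hasFDerivAt z h2
    have h0 := (hasFDerivAt_mv_hat g z 0).mul hi
    have h1 := (hasFDerivAt_mv_hat g z 1).mul hi
    have h := h0.prodMk h1
    have hjj : mv g (hat z) 2 = j := rfl
    have hf : act g = fun x => (((fun z => mv g (hat z) 0) * fun z => (mv g (hat z) 2)⁻¹) x,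
        ((fun z => mv g (hat z) 1) * fun z => (mv g (hat z) 2)⁻¹) x) := by
      funext w
      simp [act, jf, div_eq_mul_inv]
    rw [hf]
    refine h.congr_fderiv ?_
    · refine ContinuousLinearMap.ext fun w => ?_
      refine Prod.ext ?_ ?_
      · simp only [lin2, ContinuousLinearMap.prod_apply, add_apply,
          smul_apply, ContinuousLinearMap.coe_fst',
          ContinuousLinearMap.coe_snd', smul_eq_mul, hjj, ← ha, ← hM]
        field_simp
        ring
      · simp only [lin2, ContinuousLinearMap.prod_apply, add_apply,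
          smul_apply, ContinuousLinearMap.coe_fst',
          ContinuousLinearMap.coe_snd', smul_eq_mul, hjj, ← hb, ← hM]
        field_simp
        ring
  · rw [det_lin2]
    have hd : M.det = 1 := g.1.2
    rw [Matrix.det_fin_three] at hd
    have e0 : a = M 0 0 * z.1 + M 0 1 * z.2 + M 0 2 := mv_hat_apply g z 0
    have e1 : b = M 1 0 * z.1 + M 1 1 * z.2 + M 1 2 := mv_hat_apply g z 1
    have e2 : j = M 2 0 * z.1 + M 2 1 * z.2 + M 2 2 := mv_hat_apply g z 2
    have key : j * (M 0 0 * M 1 1 - M 0 1 * M 1 0) - b * (M 0 0 * M 2 1 - M 0 1 * M 2 0) -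
        a * (M 2 0 * M 1 1 - M 2 1 * M 1 0) = 1 := by
      rw [e0, e1, e2]
      linear_combination hd
    field_simp
    linear_combination j * key

theorem M1.isAddHaarMeasure_volume : (volume : Measure C2).IsAddHaarMeasure :=
  Measure.prod.instIsAddHaarMeasure (volume : Measure ℂ) (volume : Measure ℂ)

theorem M1.measurableSet_Bl (r : ℝ) : MeasurableSet (Bl r) := (isOpen_Bl r).measurableSet

theorem M1.measurable_rho : Measurable rho := by
  unfold rho
  exact ((measurable_const.sub continuous_nsq.measurable).pow_const 3).inv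

theorem M1.rho_pos {z : C2} (hz : z ∈ B) : 0 < rho z := by
  have : 0 < 1 - nsq z := sub_pos.2 hz
  unfold rho
  positivity

theorem M1.one_le_rho {z : C2} (hz : z ∈ B) : 1 ≤ rho z := by
  have h : 0 < 1 - nsq z := sub_pos.2 hz
  have h1 : 1 - nsq z ≤ 1 := by linarith [nsq_nonneg z]
  unfold rho
  exact (one_le_inv₀ (by positivity)).2 (pow_le_one₀ h.le h1)

theorem M1.mu_apply {s : Set C2} (hs : MeasurableSet s) :
    mu s = ∫⁻ z in s ∩ B, ENNReal.ofReal (rho z) := by
  rw [mu, withDensity_apply _ hs, Measure.restrict_restrict hs]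

theorem M1.lintegral_mu {f : C2 → ℝ≥0∞} (hf : Measurable f) :
    ∫⁻ z, f z ∂mu = ∫⁻ z in B, ENNReal.ofReal (rho z) * f z := by
  rw [mu, lintegral_withDensity_eq_lintegral_mul _ measurable_rho.ennreal_ofReal hf]
  rfl

theorem measurePreserving_act (g : SU21) : MeasurePreserving (act g) mu mu := by
  refine ⟨measurable_act g, Measure.ext fun s hs => ?_⟩
  rw [Measure.map_apply (measurable_act g) hs, mu_apply hs, mu_apply (measurable_act g hs)]
  have hT : MeasurableSet (act g ⁻¹' s ∩ B) := (measurable_act g hs).inter (measurableSet_Bl 1)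
  have him : act g '' (act g ⁻¹' s ∩ B) = s ∩ B := by
    ext w
    constructor
    · rintro ⟨z, ⟨h1, h2⟩, rfl⟩
      exact ⟨h1, act_mem g h2⟩
    · rintro ⟨h1, h2⟩
      refine ⟨act g⁻¹ w, ⟨?_, act_mem _ h2⟩, act_act_inv g h2⟩
      show act g (act g⁻¹ w) ∈ s
      rwa [act_act_inv g h2]
  have hinj : InjOn (act g) (act g ⁻¹' s ∩ B) := by
    intro z hz w hw h
    rw [← act_inv_act g hz.2, h, act_inv_act g hw.2]
  classical
  have : (volume : Measure C2).IsAddHaarMeasure := isAddHaarMeasure_volume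
  choose! L hL hdet using fun z (hz : z ∈ B) => hasFDerivAt_act g hz
  rw [← him, lintegral_image_eq_lintegral_abs_det_fderiv_mul volume hT
    (f' := fun z => (L z).restrictScalars ℝ)
    (fun z hz => ((hL z hz.2).restrictScalars ℝ).hasFDerivWithinAt) hinj]
  refine setLIntegral_congr_fun hT fun z hz => ?_
  have hj : ‖jf g z‖ ≠ 0 := norm_ne_zero_iff.2 (jf_ne_zero g hz.2)
  have h1 : 1 - nsq z ≠ 0 := (sub_pos.2 hz.2).ne'
  show _ = ENNReal.ofReal |((L z).restrictScalars ℝ).det| * ENNReal.ofReal (rho (act g z))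
  rw [← ENNReal.ofReal_mul (abs_nonneg _), det_restrict, hdet z hz.2, abs_of_nonneg (by positivity)]
  congr 1
  unfold rho
  rw [one_sub_nsq_act g hz.2, norm_inv, norm_pow]
  field_simp

theorem integral_mu {E : Type*} [NormedAddCommGroup E] [NormedSpace ℝ E] {F : Set C2}
    (hF : MeasurableSet F) (hB : F ⊆ B) (f : C2 → E) :
    ∫ z in F, f z ∂mu = ∫ z in F, rho z • f z := by
  rw [mu, setIntegral_withDensity_eq_setIntegral_toReal_smul measurable_rho.ennreal_ofReal
    (Filter.Eventually.of_forall fun _ => ENNReal.ofReal_lt_top) f hF,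
    Measure.restrict_restrict hF, inter_eq_left.2 hB]
  refine setIntegral_congr_fun hF fun z hz => ?_
  show (ENNReal.ofReal (rho z)).toReal • f z = _
  rw [ENNReal.toReal_ofReal (rho_pos (hB hz)).le]

theorem mu_compl_B : mu Bᶜ = 0 := by
  rw [mu_apply (measurableSet_Bl 1).compl, compl_inter_self]
  simp

theorem M1.ae_mem_B : ∀ᵐ z ∂mu, z ∈ B := mu_compl_B

theorem mu_Bl_lt_top {r : ℝ} (hr : r < 1) : mu (Bl r) < ∞ := by
  rw [mu_apply (measurableSet_Bl r), inter_eq_left.2 (Bl_mono hr.le)]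
  have hv : volume (Bl r) < ∞ :=
    (measure_mono fun z (hz : z ∈ Bl r) => (le_of_lt hz : nsq z ≤ r)).trans_lt
      (isCompact_nsq_le r).measure_lt_top
  calc ∫⁻ z in Bl r, ENNReal.ofReal (rho z)
      ≤ ∫⁻ _ in Bl r, ENNReal.ofReal (((1 - r) ^ 3)⁻¹) := by
        refine setLIntegral_mono' (measurableSet_Bl r) fun z hz => ENNReal.ofReal_le_ofReal ?_
        have h1 : 0 < 1 - r := sub_pos.2 hr
        have h2 : 1 - r ≤ 1 - nsq z := by
          have : nsq z < r := hz
          linarith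
        unfold rho
        exact inv_anti₀ (by positivity) (pow_le_pow_left₀ h1.le h2 3)
    _ < ∞ := by
        rw [setLIntegral_const]
        exact ENNReal.mul_lt_top ENNReal.ofReal_lt_top hv

theorem mu_pos {V : Set C2} (hV : IsOpen V) (hB : V ⊆ B) (hne : V.Nonempty) : 0 < mu V := by
  rw [mu_apply hV.measurableSet, inter_eq_left.2 hB]
  calc 0 < volume V := hV.measure_pos _ hne
    _ = ∫⁻ _ in V, 1 := by simp
    _ ≤ _ := setLIntegral_mono' hV.measurableSet fun z hz =>
        ENNReal.one_le_ofReal.2 (one_le_rho (hB hz))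

/-- the one-dimensional radial integral -/
theorem M1.lintegral_rad1 {a s : ℝ} (ha : 0 < a) (hs : -1 < s) :
    ∫⁻ r in Ioo (0 : ℝ) (√a), ENNReal.ofReal (r * (a - r ^ 2) ^ s) =
      ENNReal.ofReal (a ^ (s + 1) / (2 * (s + 1))) := by
  have hs1 : 0 < s + 1 := by linarith
  have hsq : 0 < √a := Real.sqrt_pos.2 ha
  have hpos : ∀ r ∈ Ioo (0 : ℝ) (√a), 0 < a - r ^ 2 := fun r hr => by
    have := (Real.lt_sqrt hr.1.le).1 hr.2
    linarith
  set F : ℝ → ℝ := fun r => -((a - r ^ 2) ^ (s + 1)) / (2 * (s + 1)) with hF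
  have hc : ContinuousOn F (Icc 0 (√a)) := by
    refine Continuous.continuousOn ?_
    refine (Continuous.neg ?_).div_const _
    exact (continuous_const.sub (continuous_pow 2)).rpow_const fun _ => Or.inr hs1.le
  have hd : ∀ r ∈ Ioo (0 : ℝ) (√a), HasDerivAt F (r * (a - r ^ 2) ^ s) r := fun r hr => by
    have h1 : HasDerivAt (fun r : ℝ => a - r ^ 2) (-(2 * r)) r := by
      simpa using (hasDerivAt_pow 2 r).const_sub a
    have h2 := (h1.rpow_const (p := s + 1) (Or.inl (hpos r hr).ne')).neg.div_const (2 * (s + 1))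
    refine h2.congr_deriv ?_
    rw [add_sub_cancel_right]
    field_simp
  have hnn : ∀ r ∈ Ioo (0 : ℝ) (√a), 0 ≤ r * (a - r ^ 2) ^ s := fun r hr =>
    mul_nonneg hr.1.le (Real.rpow_nonneg (hpos r hr).le _)
  have hint := intervalIntegral.integrableOn_deriv_of_nonneg hc hd hnn
  have hval := intervalIntegral.integral_eq_sub_of_hasDerivAt_of_le hsq.le hc hd
    ((intervalIntegrable_iff_integrableOn_Ioc_of_le hsq.le).2 hint)
  rw [intervalIntegral.integral_of_le hsq.le, integral_Ioc_eq_integral_Ioo] at hval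
  rw [← ofReal_integral_eq_lintegral_ofReal (hint.mono_set Ioo_subset_Ioc_self)
    ((ae_restrict_iff' measurableSet_Ioo).2 (Filter.Eventually.of_forall hnn)), hval]
  congr 1
  simp only [hF]
  rw [Real.sq_sqrt ha.le, sub_self, Real.zero_rpow hs1.ne']
  simp
  ring

/-- the integral over a disc -/
theorem M1.lintegral_disc {a s : ℝ} (ha : 0 < a) (hs : -1 < s) :
    ∫⁻ w in {w : ℂ | ‖w‖ ^ 2 < a}, ENNReal.ofReal ((a - ‖w‖ ^ 2) ^ s) =
      ENNReal.ofReal (Real.pi * a ^ (s + 1) / (s + 1)) := by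
  have hs1 : 0 < s + 1 := by linarith
  have hm : MeasurableSet {w : ℂ | ‖w‖ ^ 2 < a} :=
    (isOpen_lt (continuous_norm.pow 2) continuous_const).measurableSet
  rw [← lintegral_indicator hm, ← Complex.lintegral_comp_polarCoord_symm, polarCoord_target]
  have h1 : ∫⁻ p in Ioi (0 : ℝ) ×ˢ Ioo (-Real.pi) Real.pi, ENNReal.ofReal p.1 •
      {w : ℂ | ‖w‖ ^ 2 < a}.indicator (fun w => ENNReal.ofReal ((a - ‖w‖ ^ 2) ^ s))
        (Complex.polarCoord.symm p) =
      ∫⁻ p in Ioi (0 : ℝ) ×ˢ Ioo (-Real.pi) Real.pi,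
        (Ioo (0 : ℝ) (√a)).indicator (fun r => ENNReal.ofReal (r * (a - r ^ 2) ^ s)) p.1 *
          (fun _ : ℝ => (1 : ℝ≥0∞)) p.2 := by
    refine setLIntegral_congr_fun (measurableSet_Ioi.prod measurableSet_Ioo) fun p hp => ?_
    have hp0 : 0 < p.1 := hp.1
    have hn : ‖Complex.polarCoord.symm p‖ = p.1 := by
      rw [Complex.norm_polarCoord_symm, abs_of_pos hp0]
    by_cases h : p.1 ^ 2 < a
    · have hI : p.1 ∈ Ioo (0 : ℝ) (√a) := ⟨hp0, (Real.lt_sqrt hp0.le).2 h⟩
      have hJ : Complex.polarCoord.symm p ∈ {w : ℂ | ‖w‖ ^ 2 < a} := by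
        show ‖Complex.polarCoord.symm p‖ ^ 2 < a
        rwa [hn]
      simp only [indicator_of_mem hI, indicator_of_mem hJ, hn, mul_one, smul_eq_mul]
      rw [ENNReal.ofReal_mul hp0.le]
    · have hI : p.1 ∉ Ioo (0 : ℝ) (√a) := fun hI => h ((Real.lt_sqrt hp0.le).1 hI.2)
      have hJ : Complex.polarCoord.symm p ∉ {w : ℂ | ‖w‖ ^ 2 < a} := by
        show ¬ ‖Complex.polarCoord.symm p‖ ^ 2 < a
        rwa [hn]
      simp only [indicator_of_notMem hI, indicator_of_notMem hJ, mul_one, smul_zero]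
  have hme : Measurable fun r : ℝ => ENNReal.ofReal (r * (a - r ^ 2) ^ s) :=
    (measurable_id.mul ((measurable_const.sub (measurable_id.pow_const 2)).pow_const s)).ennreal_ofReal
  rw [h1, Measure.volume_eq_prod, ← Measure.prod_restrict,
    lintegral_prod_mul (hme.indicator measurableSet_Ioo).aemeasurable aemeasurable_const,
    lintegral_indicator measurableSet_Ioo, Measure.restrict_restrict measurableSet_Ioo,
    inter_eq_left.2 Ioo_subset_Ioi_self, lintegral_rad1 ha hs, setLIntegral_const, one_mul,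
    Real.volume_Ioo, ← ENNReal.ofReal_mul (by positivity)]
  congr 1
  field_simp
  ring

/-- the integral over the ball -/
theorem M1.lintegral_ball {s : ℝ} (hs : -1 < s) :
    ∫⁻ z in B, ENNReal.ofReal ((1 - nsq z) ^ s) =
      ENNReal.ofReal (Real.pi ^ 2 / ((s + 2) * (s + 1))) := by
  have hs1 : 0 < s + 1 := by linarith
  have hs2 : 0 < s + 2 := by linarith
  have hme : Measurable fun z : C2 => ENNReal.ofReal ((1 - nsq z) ^ s) :=
    ((measurable_const.sub continuous_nsq.measurable).pow_const s).ennreal_ofReal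
  have hm : ∀ a : ℝ, MeasurableSet {w : ℂ | ‖w‖ ^ 2 < a} := fun a =>
    (isOpen_lt (continuous_norm.pow 2) continuous_const).measurableSet
  rw [← lintegral_indicator (measurableSet_Bl 1), Measure.volume_eq_prod,
    lintegral_prod _ (hme.indicator (measurableSet_Bl 1)).aemeasurable]
  have h1 : ∀ u : ℂ, ∫⁻ w : ℂ, B.indicator (fun z : C2 => ENNReal.ofReal ((1 - nsq z) ^ s)) (u, w) =
      {w : ℂ | ‖w‖ ^ 2 < 1}.indicator (fun u => ENNReal.ofReal (Real.pi / (s + 1)) *
        ENNReal.ofReal ((1 - ‖u‖ ^ 2) ^ (s + 1))) u := by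
    intro u
    have h2 : ∀ w : ℂ, B.indicator (fun z : C2 => ENNReal.ofReal ((1 - nsq z) ^ s)) (u, w) =
        {w : ℂ | ‖w‖ ^ 2 < 1 - ‖u‖ ^ 2}.indicator
          (fun w => ENNReal.ofReal ((1 - ‖u‖ ^ 2 - ‖w‖ ^ 2) ^ s)) w := by
      intro w
      by_cases h : ‖w‖ ^ 2 < 1 - ‖u‖ ^ 2
      · have hB : (u, w) ∈ B := by
          show ‖u‖ ^ 2 + ‖w‖ ^ 2 < 1
          linarith
        rw [indicator_of_mem hB, indicator_of_mem (show w ∈ {w : ℂ | ‖w‖ ^ 2 < 1 - ‖u‖ ^ 2} from h)]
        simp only [nsq, sub_sub]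
      · have hB : (u, w) ∉ B := fun hB => h (by
          have : ‖u‖ ^ 2 + ‖w‖ ^ 2 < 1 := hB
          linarith)
        rw [indicator_of_notMem hB,
          indicator_of_notMem (show w ∉ {w : ℂ | ‖w‖ ^ 2 < 1 - ‖u‖ ^ 2} from h)]
    simp only [h2]
    rw [lintegral_indicator (hm _)]
    by_cases h : ‖u‖ ^ 2 < 1
    · rw [lintegral_disc (sub_pos.2 h) hs,
        indicator_of_mem (show u ∈ {w : ℂ | ‖w‖ ^ 2 < 1} from h),
        ← ENNReal.ofReal_mul (by positivity)]
      congr 1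
      ring
    · rw [indicator_of_notMem (show u ∉ {w : ℂ | ‖w‖ ^ 2 < 1} from h)]
      have : {w : ℂ | ‖w‖ ^ 2 < 1 - ‖u‖ ^ 2} = ∅ := by
        refine eq_empty_of_forall_notMem fun w hw => h ?_
        have h3 : ‖w‖ ^ 2 < 1 - ‖u‖ ^ 2 := hw
        nlinarith [sq_nonneg ‖w‖]
      rw [this]
      simp
  simp only [h1]
  rw [lintegral_indicator (hm 1), lintegral_const_mul' _ _ ENNReal.ofReal_ne_top,
    lintegral_disc one_pos (by linarith : -1 < s + 1), ← ENNReal.ofReal_mul (by positivity)]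
  congr 1
  rw [Real.one_rpow, show s + 1 + 1 = s + 2 by ring]
  field_simp

theorem M1.lintegral_rad {τ : ℝ} (hτ : 2 < τ) :
    ∫⁻ z, ENNReal.ofReal ((1 - nsq z) ^ τ) ∂mu =
      ENNReal.ofReal (Real.pi ^ 2 / ((τ - 1) * (τ - 2))) := by
  have hme : Measurable fun z : C2 => ENNReal.ofReal ((1 - nsq z) ^ τ) :=
    ((measurable_const.sub continuous_nsq.measurable).pow_const τ).ennreal_ofReal
  rw [lintegral_mu hme]
  have h := lintegral_ball (s := τ - 3) (by linarith)
  rw [show τ - 3 + 2 = τ - 1 by ring, show τ - 3 + 1 = τ - 2 by ring] at h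
  rw [← h]
  refine setLIntegral_congr_fun (measurableSet_Bl 1) fun z hz => ?_
  have h0 : 0 < 1 - nsq z := sub_pos.2 hz
  show ENNReal.ofReal (rho z) * ENNReal.ofReal ((1 - nsq z) ^ τ) = ENNReal.ofReal _
  rw [← ENNReal.ofReal_mul (rho_pos hz).le]
  congr 1
  unfold rho
  rw [Real.rpow_sub h0, show (3 : ℝ) = ((3 : ℕ) : ℝ) by norm_num, Real.rpow_natCast]
  ring

theorem M1.rad_nonneg (τ : ℝ) : 0 ≤ᵐ[mu] fun z => (1 - nsq z) ^ τ :=
  ae_mem_B.mono fun _ hz => Real.rpow_nonneg (sub_pos.2 hz).le _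

/-- radial integral -/
theorem integrable_rad {τ : ℝ} (hτ : 2 < τ) : Integrable (fun z => (1 - nsq z) ^ τ) mu := by
  refine ⟨((measurable_const.sub continuous_nsq.measurable).pow_const τ).aestronglyMeasurable, ?_⟩
  rw [hasFiniteIntegral_iff_ofReal (rad_nonneg τ), lintegral_rad hτ]
  exact ENNReal.ofReal_lt_top

theorem integral_rad {τ : ℝ} (hτ : 2 < τ) :
    ∫ z, (1 - nsq z) ^ τ ∂mu = Real.pi ^ 2 / ((τ - 1) * (τ - 2)) := by
  have h1 : 0 < τ - 1 := by linarith
  have h2 : 0 < τ - 2 := by linarith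
  rw [integral_eq_lintegral_of_nonneg_ae (rad_nonneg τ) (integrable_rad hτ).1, lintegral_rad hτ,
    ENNReal.toReal_ofReal (by positivity)]

end Pool.Agent.MP_54e5d7_al.Atc
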