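import Mathlib.Algebra.Group.Subgroup.Pointwise
import Mathlib.GroupTheory.QuotientGroup.Basic
import Mathlib.GroupTheory.GroupAction.Basic
import Mathlib.GroupTheory.OrderOfElement
import Mathlib.Algebra.Order.Archimedean.Real.Basic
import Mathlib.Order.ConditionallyCompleteLattice.Basic
import Mathlib.Tactic.Linarith
import Mathlib.Tactic.Group
import Mathlib.GroupTheory.Coset.Card
import Mathlib.GroupTheory.Index

-- ======== part 0: formerly Pool.Agent.MP_54e5d7_al.atc.SCWind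
section MrgPart0

/-! Abstract small cancellation for a spinning family with projection data: the windmill. -/

set_option autoImplicit false

namespace Pool.Agent.MP_54e5d7_al.SC

/-- Projection data with a spinning family of subgroups. -/
structure Dat (G B I : Type*) [Group G] [MulAction G B] [MulAction G I] where
  d : B → B → ℝ
  p : I → B → B
  N : I → Subgroup G
  th : ℝ
  th_pos : 0 < th
  symm : ∀ x y, d x y = d y x
  tri : ∀ x y z, d x z ≤ d x y + d y z
  self : ∀ x, d x x = 0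
  inv : ∀ (g : G) x y, d (g • x) (g • y) = d x y
  p_eq : ∀ (g : G) Y x, p (g • Y) (g • x) = g • p Y x
  N_conj : ∀ (g : G) Y n, n ∈ N Y → g * n * g⁻¹ ∈ N (g • Y)
  N_fix : ∀ Y n, n ∈ N Y → n • Y = Y
  lip : ∀ Y x y, d (p Y x) (p Y y) ≤ d x y
  conn : ∀ x y, Relation.ReflTransGen (fun a b => d a b ≤ th) x y
  beh : ∀ Y Z, Y ≠ Z → ∃ a b, (∀ x, d (p Y x) a ≤ th ∨ d (p Z x) b ≤ th) ∧
    ∀ x, d (p Y (p Z x)) a ≤ th ∧ d (p Z (p Y x)) b ≤ th
  con : ∀ Y x y, th ≤ d (p Y x) (p Y y) →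
    d x (p Y x) + d (p Y x) (p Y y) + d (p Y y) y ≤ d x y + th
  spin : ∀ Y n x, n ∈ N Y → n ≠ 1 → 100 * th ≤ d (p Y x) (n • p Y x)

variable {G B I : Type*} [Group G] [MulAction G B] [MulAction G I]

namespace Dat

variable (D : Dat G B I)

theorem nonneg (x y : B) : 0 ≤ D.d x y := by
  have h1 := D.tri x y x
  have h2 := D.symm x y
  have h3 := D.self x
  linarith

theorem p_N {Y : I} {n : G} (hn : n ∈ D.N Y) (x : B) : D.p Y (n • x) = n • D.p Y x := by
  have h := D.p_eq n Y x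
  rwa [D.N_fix Y n hn] at h

theorem dp_eq (g : G) (Y : I) (x y : B) :
    D.d (D.p (g • Y) (g • x)) (D.p (g • Y) (g • y)) = D.d (D.p Y x) (D.p Y y) := by
  rw [D.p_eq, D.p_eq, D.inv]

/-- The subgroup generated by all spinning subgroups. -/
def K : Subgroup G := Subgroup.closure {g | ∃ Y, g ∈ D.N Y}

theorem N_le_K (Y : I) : D.N Y ≤ D.K := fun _ hg => Subgroup.subset_closure ⟨Y, hg⟩

theorem K_normal : D.K.Normal := by
  refine ⟨fun k hk g => ?_⟩
  induction hk using Subgroup.closure_induction with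
  | mem x hx =>
    obtain ⟨Y, hY⟩ := hx
    exact D.N_le_K _ (D.N_conj g Y x hY)
  | one => simp
  | mul x y _ _ hx hy =>
    have : g * (x * y) * g⁻¹ = (g * x * g⁻¹) * (g * y * g⁻¹) := by group
    rw [this]; exact D.K.mul_mem hx hy
  | inv x _ hx =>
    have : g * x⁻¹ * g⁻¹ = (g * x * g⁻¹)⁻¹ := by group
    rw [this]; exact D.K.inv_mem hx

/-- A stage of the windmill. -/
structure St (G B I : Type*) [Group G] where
  W : Set B
  A : Set I
  H : Subgroup G

/-- The one step neighbourhood. -/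
def nb (s : St G B I) : Set B := {y | ∃ x ∈ s.W, D.d x y ≤ D.th}

/-- The new indices. -/
def new (s : St G B I) : Set I :=
  {Y | Y ∉ s.A ∧ ∃ x ∈ D.nb s, ∃ y ∈ D.nb s, 2 * D.th < D.d (D.p Y x) (D.p Y y)}

/-- The next group. -/
def nextH (s : St G B I) : Subgroup G :=
  Subgroup.closure ({g | g ∈ s.H} ∪ {g | ∃ Y ∈ D.new s, g ∈ D.N Y})

/-- The next stage. -/
def next (s : St G B I) : St G B I where
  W := {y | ∃ g ∈ D.nextH s, ∃ x ∈ D.nb s, y = g • x}
  A := {Z | ∃ g ∈ D.nextH s, ∃ Y, (Y ∈ s.A ∨ Y ∈ D.new s) ∧ Z = g • Y}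
  H := D.nextH s

/-- The Greendlinger property of an element with respect to a centre. -/
def GL (x0 : B) (k : G) : Prop :=
  k = 1 ∨ ∃ u n, n ∈ D.N u ∧ n ≠ 1 ∧ D.d (D.p u (k • x0)) (n • D.p u x0) ≤ 12 * D.th

/-- The invariant of the windmill. -/
structure Inv (x0 : B) (s : St G B I) : Prop where
  base : x0 ∈ s.W
  hW : ∀ h ∈ s.H, ∀ x ∈ s.W, h • x ∈ s.W
  hA : ∀ h ∈ s.H, ∀ Y ∈ s.A, h • Y ∈ s.A
  hN : ∀ Y ∈ s.A, D.N Y ≤ s.H
  small : ∀ Y, Y ∉ s.A → ∀ x ∈ s.W, ∀ y ∈ s.W, D.d (D.p Y x) (D.p Y y) ≤ 8 * D.th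
  gl : ∀ k ∈ s.H, D.GL x0 k

/-- Normal forms, with the index of the first letter. -/
inductive NF (s : St G B I) : Option I → G → Prop
  | base (h : G) : h ∈ s.H → NF s none h
  | cons (Y : I) (n : G) (o : Option I) (k : G) : Y ∈ D.new s → n ∈ D.N Y → n ≠ 1 →
      o ≠ some Y → NF s o k → NF s (some Y) (n * k)

variable {D}
variable {x0 : B} {s : St G B I}

theorem W_sub_nb {x : B} (hx : x ∈ s.W) : x ∈ D.nb s :=
  ⟨x, hx, by rw [D.self]; exact D.th_pos.le⟩

theorem nb_smul (hs : D.Inv x0 s) {h : G} (hh : h ∈ s.H) {x : B} (hx : x ∈ D.nb s) :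
    h • x ∈ D.nb s := by
  obtain ⟨w, hw, hd⟩ := hx
  exact ⟨h • w, hs.hW h hh w hw, by rwa [D.inv]⟩

theorem new_smul (hs : D.Inv x0 s) {h : G} (hh : h ∈ s.H) {Y : I} (hY : Y ∈ D.new s) :
    h • Y ∈ D.new s := by
  obtain ⟨hA, x, hx, y, hy, hd⟩ := hY
  refine ⟨fun hc => hA ?_, h • x, nb_smul hs hh hx, h • y, nb_smul hs hh hy, ?_⟩
  · have := hs.hA h⁻¹ (s.H.inv_mem hh) _ hc
    rwa [inv_smul_smul] at this
  · rwa [D.dp_eq]

theorem nb_small (hs : D.Inv x0 s) {Y : I} (hY : Y ∉ s.A) {x y : B} (hx : x ∈ D.nb s)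
    (hy : y ∈ D.nb s) : D.d (D.p Y x) (D.p Y y) ≤ 10 * D.th := by
  obtain ⟨x', hx', h1⟩ := hx
  obtain ⟨y', hy', h2⟩ := hy
  have h3 := hs.small Y hY x' hx' y' hy'
  have h4 := D.lip Y x' x
  have h5 := D.lip Y y' y
  have h6 := D.tri (D.p Y x) (D.p Y x') (D.p Y y)
  have h7 := D.tri (D.p Y x') (D.p Y y') (D.p Y y)
  have h8 := D.symm (D.p Y x) (D.p Y x')
  linarith

theorem exists_far {Z : I} (hZ : Z ∈ D.new s) (b : B) :
    ∃ w ∈ D.nb s, D.th < D.d (D.p Z w) b := by
  obtain ⟨-, x, hx, y, hy, hd⟩ := hZ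
  by_contra hc
  push Not at hc
  have h1 := hc x hx
  have h2 := hc y hy
  have h3 := D.tri (D.p Z x) b (D.p Z y)
  have h4 := D.symm b (D.p Z y)
  linarith

theorem step (hs : D.Inv x0 s) {Z Z' : I} (hZ : Z ∈ D.new s) (hZ' : Z' ∈ D.new s)
    (hne : Z ≠ Z') {z : B} (hz : ∀ w ∈ D.nb s, 2 * D.th < D.d (D.p Z z) (D.p Z w))
    {w : B} (hw : w ∈ D.nb s) : D.d (D.p Z' z) (D.p Z' w) ≤ 12 * D.th := by
  obtain ⟨a, b, hab, -⟩ := D.beh Z Z' hne
  obtain ⟨w1, hw1, h1⟩ := exists_far hZ' b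
  obtain ⟨w2, hw2, h2⟩ := exists_far hZ a
  have h3 : D.d (D.p Z w1) a ≤ D.th := (hab w1).resolve_right (not_le.mpr h1)
  have h4 : D.d (D.p Z' w2) b ≤ D.th := (hab w2).resolve_left (not_le.mpr h2)
  have h5 := hz w1 hw1
  have h6 := D.tri (D.p Z z) a (D.p Z w1)
  have h7 := D.symm a (D.p Z w1)
  have h8 : D.d (D.p Z' z) b ≤ D.th := (hab z).resolve_left (not_le.mpr (by linarith))
  have h9 := nb_small hs hZ'.1 hw2 hw
  have h10 := D.tri (D.p Z' z) b (D.p Z' w)
  have h11 := D.tri b (D.p Z' w2) (D.p Z' w)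
  have h12 := D.symm b (D.p Z' w2)
  linarith

theorem NF.mem_new {o : Option I} {k : G} (h : D.NF s o k) {Z : I} (hZ : o = some Z) :
    Z ∈ D.new s := by
  cases h with
  | base _ _ => cases hZ
  | cons Y n o k hY _ _ _ _ => cases hZ; exact hY

theorem NF.smul (hs : D.Inv x0 s) {h : G} (hh : h ∈ s.H) {o : Option I} {k : G}
    (hk : D.NF s o k) : D.NF s (o.map (fun Y => h • Y)) (h * k) := by
  induction hk with
  | base k hk => exact NF.base _ (s.H.mul_mem hh hk)
  | cons Y n o k hY hn hn1 ho _ ih =>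
    have e : h * (n * k) = (h * n * h⁻¹) * (h * k) := by group
    rw [e]
    refine NF.cons (h • Y) _ _ _ (new_smul hs hh hY) (D.N_conj h Y n hn) ?_ ?_ ih
    · intro hc
      apply hn1
      have : n = h⁻¹ * (h * n * h⁻¹) * h := by group
      rw [this, hc]; group
    · intro hc
      apply ho
      cases o with
      | none => cases hc
      | some Z =>
        simp only [Option.map_some, Option.some.injEq] at hc
        rw [MulAction.injective h hc]

theorem NF.letter {Y : I} (hY : Y ∈ D.new s) {n : G} (hn : n ∈ D.N Y) {o : Option I} {k : G}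
    (hk : D.NF s o k) : ∃ o', D.NF s o' (n * k) := by
  by_cases hn1 : n = 1
  · exact ⟨o, by rw [hn1, one_mul]; exact hk⟩
  by_cases ho : o = some Y
  · cases hk with
    | base _ _ => cases ho
    | cons Z m o' k' hZ hm hm1 ho' hk' =>
      cases ho
      by_cases hnm : n * m = 1
      · exact ⟨o', by rw [← mul_assoc, hnm, one_mul]; exact hk'⟩
      · exact ⟨some Y, by
          rw [← mul_assoc]
          exact NF.cons Y _ o' k' hY ((D.N Y).mul_mem hn hm) hnm ho' hk'⟩
  · exact ⟨some Y, NF.cons Y n o k hY hn hn1 ho hk⟩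

theorem exists_NF (hs : D.Inv x0 s) {k : G} (hk : k ∈ D.nextH s) : ∃ o, D.NF s o k := by
  induction hk using Subgroup.closure_induction_left with
  | one => exact ⟨none, NF.base _ s.H.one_mem⟩
  | mul_left x hx y _ ih =>
    obtain ⟨o, ho⟩ := ih
    rcases hx with hx | ⟨Y, hY, hx⟩
    · exact ⟨_, ho.smul hs hx⟩
    · exact ho.letter hY hx
  | inv_mul_cancel x hx y _ ih =>
    obtain ⟨o, ho⟩ := ih
    rcases hx with hx | ⟨Y, hY, hx⟩
    · exact ⟨_, ho.smul hs (s.H.inv_mem hx)⟩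
    · exact ho.letter hY ((D.N Y).inv_mem hx)

theorem P1 (hs : D.Inv x0 s) {o : Option I} {k : G} (hk : D.NF s o k) :
    ∀ Z ∈ D.new s, o ≠ some Z → ∀ x ∈ D.nb s, ∀ w ∈ D.nb s,
      D.d (D.p Z (k • x)) (D.p Z w) ≤ 12 * D.th := by
  induction hk with
  | base k hk =>
    intro Z hZ _ x hx w hw
    have := nb_small hs hZ.1 (nb_smul hs hk hx) hw
    have := D.th_pos
    linarith
  | cons Y n o k hY hn hn1 ho _ ih =>
    intro Z hZ hne x hx w hw
    have hYZ : Y ≠ Z := fun hc => hne (by rw [hc])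
    refine step hs hY hZ hYZ (fun w' hw' => ?_) hw
    have h1 := ih Y hY ho x hx w' hw'
    have h2 := D.spin Y n w' hn hn1
    have h3 := D.inv n (D.p Y (k • x)) (D.p Y w')
    rw [mul_smul, D.p_N hn]
    have h4 := D.tri (D.p Y w') (n • D.p Y (k • x)) (n • D.p Y w')
    have h5 := D.symm (D.p Y w') (n • D.p Y (k • x))
    have := D.th_pos
    linarith

theorem mem_nextH_of_N {Y : I} (hY : Y ∈ D.new s) {n : G} (hn : n ∈ D.N Y) : n ∈ D.nextH s :=
  Subgroup.subset_closure (Or.inr ⟨Y, hY, hn⟩)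

theorem mem_nextH_of_H {h : G} (hh : h ∈ s.H) : h ∈ D.nextH s :=
  Subgroup.subset_closure (Or.inl hh)

theorem nextA_smul {g : G} (hg : g ∈ D.nextH s) {Y : I} (hY : Y ∈ (D.next s).A) :
    g • Y ∈ (D.next s).A := by
  obtain ⟨g', hg', Z, hZ, rfl⟩ := hY
  exact ⟨g * g', (D.nextH s).mul_mem hg hg', Z, hZ, by rw [mul_smul]⟩

theorem tiny {Y : I} (hY : Y ∉ (D.next s).A) {x y : B} (hx : x ∈ D.nb s) (hy : y ∈ D.nb s) :
    D.d (D.p Y x) (D.p Y y) ≤ 2 * D.th := by
  by_contra hc
  apply hY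
  refine ⟨1, (D.nextH s).one_mem, Y, ?_, by rw [one_smul]⟩
  by_cases hA : Y ∈ s.A
  · exact Or.inl hA
  · exact Or.inr ⟨hA, x, hx, y, hy, not_le.mp hc⟩

theorem P2 (hs : D.Inv x0 s) {o : Option I} {k : G} (hk : D.NF s o k) :
    ∀ Y, Y ∉ (D.next s).A → ∀ y ∈ D.nb s, ∀ z : B,
      (∃ w ∈ D.nb s, D.d (D.p Y z) (D.p Y w) ≤ 2 * D.th) →
      (∀ Z, o = some Z → ∀ w ∈ D.nb s, D.d (D.p Z z) (D.p Z w) ≤ 12 * D.th) →
      D.d (D.p Y z) (D.p Y (k • y)) ≤ 8 * D.th := by
  have hth := D.th_pos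
  induction hk with
  | base k hk =>
    rintro Y hY y hy z ⟨w, hw, h1⟩ -
    have h2 := tiny hY hw (nb_smul hs hk hy)
    have h3 := D.tri (D.p Y z) (D.p Y w) (D.p Y (k • y))
    linarith
  | cons Z n o k hZ hn hn1 ho hk ih =>
    rintro Y hY y hy z ⟨w, hw, h1⟩ hz
    have hz' := hz Z rfl
    have hYZ : Y ≠ Z := by
      rintro rfl
      exact hY ⟨1, (D.nextH s).one_mem, Y, Or.inr hZ, by rw [one_smul]⟩
    obtain ⟨a, b, hab, -⟩ := D.beh Y Z hYZ
    rcases hab ((n * k) • y) with h2 | h2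
    · obtain ⟨w1, hw1, h3⟩ := exists_far hZ b
      have h4 : D.d (D.p Y w1) a ≤ D.th := (hab w1).resolve_right (not_le.mpr h3)
      have h5 := tiny hY hw hw1
      have h6 := D.tri (D.p Y z) (D.p Y w) (D.p Y ((n * k) • y))
      have h7 := D.tri (D.p Y w) (D.p Y w1) (D.p Y ((n * k) • y))
      have h8 := D.tri (D.p Y w1) a (D.p Y ((n * k) • y))
      have h9 := D.symm a (D.p Y ((n * k) • y))
      linarith
    · have h3 := P1 hs hk Z hZ ho y hy w hw
      have h4 := D.spin Z n w hn hn1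
      have h5 := D.inv n (D.p Z (k • y)) (D.p Z w)
      have h6 := hz' w hw
      rw [mul_smul, D.p_N hn] at h2
      have h7 : D.th < D.d (D.p Z z) b := by
        have e1 := D.tri (D.p Z w) (D.p Z z) (n • D.p Z w)
        have e2 := D.tri (D.p Z z) b (n • D.p Z w)
        have e3 := D.tri b (n • D.p Z (k • y)) (n • D.p Z w)
        have e4 := D.symm b (n • D.p Z (k • y))
        have e5 := D.symm (D.p Z w) (D.p Z z)
        linarith
      have h8 : D.d (D.p Y z) a ≤ D.th := (hab z).resolve_right (not_le.mpr h7)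
      have hY' : n⁻¹ • Y ∉ (D.next s).A := by
        intro hc
        have := nextA_smul (mem_nextH_of_N hZ hn) hc
        rw [smul_inv_smul] at this
        exact hY this
      have key := ih (n⁻¹ • Y) hY' y hy (n⁻¹ • z) ?_ ?_
      · have e := D.dp_eq n (n⁻¹ • Y) (n⁻¹ • z) (k • y)
        rw [smul_inv_smul, smul_inv_smul] at e
        rw [mul_smul, e]
        exact key
      · obtain ⟨w1, hw1, h9⟩ := exists_far hZ (n⁻¹ • b)
        refine ⟨w1, hw1, ?_⟩
        have e := D.dp_eq n (n⁻¹ • Y) (n⁻¹ • z) w1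
        rw [smul_inv_smul, smul_inv_smul] at e
        have e2 := D.inv n (D.p Z w1) (n⁻¹ • b)
        rw [smul_inv_smul, ← D.p_N hn] at e2
        have h10 : D.d (D.p Y (n • w1)) a ≤ D.th :=
          (hab (n • w1)).resolve_right (not_le.mpr (by linarith))
        have e3 := D.tri (D.p Y z) a (D.p Y (n • w1))
        have e4 := D.symm a (D.p Y (n • w1))
        linarith
      · intro Z' hZ' w' hw'
        have hne : Z ≠ Z' := by
          rintro rfl
          exact ho hZ'
        refine step hs hZ (hk.mem_new hZ') hne (fun w1 hw1 => ?_) hw'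
        have e1 := D.inv n (D.p Z (n⁻¹ • z)) (D.p Z w1)
        rw [← D.p_N hn, smul_inv_smul] at e1
        have e2 := D.spin Z n w1 hn hn1
        have e3 := hz' w1 hw1
        have e4 := D.tri (D.p Z w1) (D.p Z z) (n • D.p Z w1)
        have e5 := D.symm (D.p Z w1) (D.p Z z)
        linarith

theorem inv_next (hs : D.Inv x0 s) : D.Inv x0 (D.next s) where
  base := ⟨1, (D.nextH s).one_mem, x0, W_sub_nb hs.base, by rw [one_smul]⟩
  hW := by
    rintro h hh x ⟨g, hg, y, hy, rfl⟩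
    exact ⟨h * g, (D.nextH s).mul_mem hh hg, y, hy, by rw [mul_smul]⟩
  hA := fun h hh Y hY => nextA_smul hh hY
  hN := by
    rintro Z ⟨g, hg, Y, hY, rfl⟩ n hn
    have h1 := D.N_conj g⁻¹ _ n hn
    rw [inv_smul_smul] at h1
    have h2 : g⁻¹ * n * g⁻¹⁻¹ ∈ D.nextH s := by
      rcases hY with hY | hY
      · exact mem_nextH_of_H (hs.hN Y hY h1)
      · exact mem_nextH_of_N hY h1
    have e : n = g * (g⁻¹ * n * g⁻¹⁻¹) * g⁻¹ := by group
    rw [e]
    exact (D.nextH s).mul_mem ((D.nextH s).mul_mem hg h2) ((D.nextH s).inv_mem hg)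
  small := by
    rintro Y hY x ⟨g, hg, x', hx', rfl⟩ y ⟨g', hg', y', hy', rfl⟩
    have hth := D.th_pos
    obtain ⟨o, ho⟩ := exists_NF hs ((D.nextH s).mul_mem ((D.nextH s).inv_mem hg) hg')
    have hY' : g⁻¹ • Y ∉ (D.next s).A := by
      intro hc
      have := nextA_smul hg hc
      rw [smul_inv_smul] at this
      exact hY this
    have key := P2 hs ho (g⁻¹ • Y) hY' y' hy' x'
      ⟨x', hx', by rw [D.self]; linarith⟩
      (fun Z hZ w hw => by
        have := nb_small hs (ho.mem_new hZ).1 hx' hw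
        linarith)
    have e := D.dp_eq g (g⁻¹ • Y) x' ((g⁻¹ * g') • y')
    rw [smul_inv_smul, mul_smul, smul_inv_smul] at e
    rw [e, ← mul_smul]
    exact key
  gl := by
    intro k hk
    obtain ⟨o, ho⟩ := exists_NF hs hk
    cases ho with
    | base _ hk' => exact hs.gl k hk'
    | cons Y n o k' hY hn hn1 ho' hk' =>
      refine Or.inr ⟨Y, n, hn, hn1, ?_⟩
      have h := P1 hs hk' Y hY ho' x0 (W_sub_nb hs.base) x0 (W_sub_nb hs.base)
      rw [mul_smul, D.p_N hn, D.inv]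
      exact h

variable (D)

/-- The stages of the windmill centred at a point. -/
def stage (x0 : B) : ℕ → St G B I
  | 0 => ⟨{x0}, ∅, ⊥⟩
  | j + 1 => D.next (stage x0 j)

theorem inv_stage (x0 : B) (j : ℕ) : D.Inv x0 (D.stage x0 j) := by
  induction j with
  | zero =>
    refine ⟨rfl, ?_, ?_, ?_, ?_, ?_⟩
    · intro h hh x hx
      have : h = 1 := Subgroup.mem_bot.mp hh
      rw [this, one_smul]; exact hx
    · intro h _ Y hY; exact hY.elim
    · intro Y hY; exact hY.elim
    · intro Y _ x hx y hy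
      have e1 : x = x0 := hx
      have e2 : y = x0 := hy
      rw [e1, e2, D.self]
      have := D.th_pos
      linarith
    · intro k hk
      exact Or.inl (Subgroup.mem_bot.mp hk)
  | succ j ih => exact inv_next ih

theorem stage_W_mono (x0 : B) : Monotone (fun j => (D.stage x0 j).W) := by
  refine monotone_nat_of_le_succ (fun j x hx => ?_)
  exact ⟨1, (D.nextH _).one_mem, x, W_sub_nb hx, by rw [one_smul]⟩

theorem stage_H_mono (x0 : B) : Monotone (fun j => (D.stage x0 j).H) := by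
  refine monotone_nat_of_le_succ (fun j x hx => ?_)
  exact mem_nextH_of_H hx

theorem exists_stage_W (x0 y : B) : ∃ j, y ∈ (D.stage x0 j).W := by
  have h := D.conn x0 y
  induction h with
  | refl => exact ⟨0, rfl⟩
  | tail _ hbc ih =>
    obtain ⟨j, hj⟩ := ih
    exact ⟨j + 1, 1, (D.nextH _).one_mem, _, ⟨_, hj, hbc⟩, by rw [one_smul]⟩

theorem exists_stage_H (x0 : B) {k : G} (hk : k ∈ D.K) : ∃ j, k ∈ (D.stage x0 j).H := by
  induction hk using Subgroup.closure_induction with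
  | mem n hn =>
    obtain ⟨Y, hY⟩ := hn
    by_cases hn1 : n = 1
    · exact ⟨0, by rw [hn1]; exact Subgroup.one_mem _⟩
    obtain ⟨j, hj⟩ := D.exists_stage_W x0 (n • x0)
    refine ⟨j, (D.inv_stage x0 j).hN Y ?_ hY⟩
    by_contra hc
    have h1 := (D.inv_stage x0 j).small Y hc x0 (D.inv_stage x0 j).base _ hj
    have h2 := D.spin Y n x0 hY hn1
    rw [D.p_N hY] at h1
    have := D.th_pos
    linarith
  | one => exact ⟨0, Subgroup.one_mem _⟩
  | mul x y _ _ hx hy =>
    obtain ⟨i, hi⟩ := hx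
    obtain ⟨j, hj⟩ := hy
    exact ⟨max i j, Subgroup.mul_mem _ (D.stage_H_mono x0 (le_max_left i j) hi)
      (D.stage_H_mono x0 (le_max_right i j) hj)⟩
  | inv x _ hx =>
    obtain ⟨i, hi⟩ := hx
    exact ⟨i, Subgroup.inv_mem _ hi⟩

/-- Greendlinger lemma. -/
theorem greendlinger (x0 : B) {k : G} (hk : k ∈ D.K) : D.GL x0 k := by
  obtain ⟨j, hj⟩ := D.exists_stage_H x0 hk
  exact (D.inv_stage x0 j).gl k hj

/-- A nontrivial element of `K` moves every point. -/
theorem eq_one_of_fix {x0 : B} {k : G} (hk : k ∈ D.K) (hx : k • x0 = x0) : k = 1 := by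
  rcases D.greendlinger x0 hk with h | ⟨u, n, hn, hn1, h⟩
  · exact h
  · have h2 := D.spin u n x0 hn hn1
    rw [hx] at h
    have := D.th_pos
    linarith

end Dat

end Pool.Agent.MP_54e5d7_al.SC

end MrgPart0

-- ======== part 1: formerly Pool.Agent.MP_54e5d7_al.atc.SC
section MrgPart1

/-! Abstract small cancellation: torsion in the quotient and its finite subgroups. -/

set_option autoImplicit false

namespace Pool.Agent.MP_54e5d7_al.SC

variable {G B I : Type*} [Group G] [MulAction G B] [MulAction G I]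

namespace Dat

variable (D : Dat G B I)

theorem one_step {g : G} {τ : ℝ} (hmin : ∀ k ∈ D.K, ∀ y, τ ≤ D.d y ((k * g) • y) + D.th)
    {u : I} {z : B} (hz : D.d z (g • z) = τ) (h1 : D.th ≤ D.d (D.p u z) (D.p u (g • z)))
    {n : G} (hn : n ∈ D.N u) :
    D.d (D.p u z) (D.p u (g • z)) ≤ D.d (n • D.p u z) (D.p u (g • z)) + 2 * D.th := by
  have e1 := hmin n⁻¹ (D.K.inv_mem (D.N_le_K u hn)) z
  have e2 := D.inv n z ((n⁻¹ * g) • z)
  rw [mul_smul, smul_inv_smul] at e2
  rw [mul_smul] at e1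
  have e3 := D.con u z (g • z) h1
  have e4 := D.tri (n • z) (n • D.p u z) (g • z)
  have e5 := D.tri (n • D.p u z) (D.p u (g • z)) (g • z)
  have e6 := D.inv n z (D.p u z)
  linarith

theorem two_step {g : G} {τ : ℝ} (hmin : ∀ k ∈ D.K, ∀ y, τ ≤ D.d y ((k * g) • y) + D.th)
    {u : I} {e : B} (hbp : ∀ x, D.d (D.p (g • u) (D.p u x)) (g • e) ≤ D.th)
    {z : B} (hz : D.d z (g • z) = τ) (h0 : 2 * D.th ≤ D.d (D.p u z) e)
    (h1 : D.th ≤ D.d (D.p u z) (D.p u (g • z))) {n : G} (hn : n ∈ D.N u) :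
    D.d (D.p u z) (D.p u (g • z)) + D.d (D.p u z) e ≤
      D.d (n • e) (D.p u (g • z)) + 5 * D.th := by
  have e1 := hmin n⁻¹ (D.K.inv_mem (D.N_le_K u hn)) e
  have e2 := D.inv n e ((n⁻¹ * g) • e)
  rw [mul_smul, smul_inv_smul] at e2
  rw [mul_smul] at e1
  have e3 := D.con u z (g • z) h1
  have e4 := hbp (g • z)
  have e5 := D.inv g (D.p u z) e
  have e6 := D.tri (g • D.p u z) (D.p (g • u) (D.p u (g • z))) (g • e)
  have e7 := D.symm (g • D.p u z) (D.p (g • u) (D.p u (g • z)))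
  have e8 := D.con (g • u) (D.p u (g • z)) (g • z) (by rw [D.p_eq]; linarith)
  rw [D.p_eq] at e8
  have e9 := D.tri (n • e) (D.p u (g • z)) (g • e)
  have e10 := D.tri (D.p u (g • z)) (D.p (g • u) (D.p u (g • z))) (g • e)
  have e11 := D.nonneg z (D.p u z)
  have e12 := D.nonneg (g • D.p u z) (g • z)
  linarith

theorem no_pivot {g : G} {x : B}
    (hmin : ∀ k ∈ D.K, ∀ y, D.d x (g • x) ≤ D.d y ((k * g) • y) + D.th)
    {u : I} (hu : g • u ≠ u) {m : ℕ} (hm : 0 < m) {n : G} (hn : n ∈ D.N u) (hn1 : n ≠ 1)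
    (hp : D.d (D.p u (g ^ m • x)) (n • D.p u x) ≤ 12 * D.th) : False := by
  have hth := D.th_pos
  obtain ⟨f, b, hB, hP⟩ := D.beh u (g • u) hu.symm
  obtain ⟨e, rfl⟩ : ∃ e, b = g • e := ⟨g⁻¹ • b, by rw [smul_inv_smul]⟩
  set q : ℕ → B := fun j => D.p u (g ^ j • x) with hq
  have hsucc : ∀ j, g • (g ^ j • x) = g ^ (j + 1) • x := fun j => by
    rw [pow_succ', mul_smul]
  have hτ : ∀ j, D.d (g ^ j • x) (g • (g ^ j • x)) = D.d x (g • x) := fun j => by
    rw [← D.inv (g ^ j) x (g • x), ← mul_smul, ← mul_smul, ← pow_succ, ← pow_succ']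
  have F1 : ∀ j, D.th < D.d (q j) e → D.d (q (j + 1)) f ≤ D.th := fun j hj => by
    rcases hB (g • (g ^ j • x)) with h | h
    · rw [hsucc] at h; exact h
    · rw [D.p_eq, D.inv] at h
      exact absurd h (not_le.mpr hj)
  have F2 : ∀ j, D.th ≤ D.d (q j) (q (j + 1)) →
      D.d (q j) (q (j + 1)) ≤ D.d (n • q j) (q (j + 1)) + 2 * D.th := fun j hj => by
    have h := D.one_step hmin (u := u) (hτ j) (by rw [hsucc]; exact hj) hn
    rw [hsucc] at h
    exact h
  have F3 : ∀ j, ∀ n' ∈ D.N u, 2 * D.th ≤ D.d (q j) e → D.th ≤ D.d (q j) (q (j + 1)) →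
      D.d (q j) (q (j + 1)) + D.d (q j) e ≤ D.d (n' • e) (q (j + 1)) + 5 * D.th :=
    fun j n' hn' h0 hj => by
      have h := D.two_step hmin (u := u) (fun y => (hP y).2) (hτ j) h0
        (by rw [hsucc]; exact hj) hn'
      rw [hsucc] at h
      exact h
  have h00 : D.p u x = q 0 := by simp [hq]
  have hpm : D.d (q m) (n • q 0) ≤ 12 * D.th := by rw [← h00]; exact hp
  have hsp : 100 * D.th ≤ D.d (q 0) (n • q 0) := by rw [← h00]; exact D.spin u n x hn hn1
  have hfar : 88 * D.th ≤ D.d (q 0) (q m) := by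
    have := D.tri (q 0) (q m) (n • q 0)
    linarith
  by_cases hef : D.d e f ≤ 10 * D.th
  · have hall : ∀ j, D.d (q j) e ≤ 20 * D.th := fun j => by
      by_contra hc
      have hc' := not_le.mp hc
      have e1 := F1 j (by linarith)
      have e2 := D.tri (q j) (q (j + 1)) e
      have e3 := D.tri (q (j + 1)) f e
      have e4 := D.symm f e
      have e5 := F3 j 1 (D.N u).one_mem (by linarith) (by linarith)
      rw [one_smul] at e5
      have e6 := D.symm e (q (j + 1))
      linarith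
    have e1 := hall 0
    have e2 := hall m
    have e3 := D.tri (q 0) e (q m)
    have e4 := D.symm e (q m)
    linarith
  · have hef' := not_le.mp hef
    have hex : ∃ j, j ≤ m ∧ D.th < D.d (q j) e := by
      by_contra hc
      push Not at hc
      have e1 := hc 0 (Nat.zero_le _)
      have e2 := hc m le_rfl
      have e3 := D.tri (q 0) e (q m)
      have e4 := D.symm e (q m)
      linarith
    classical
    obtain ⟨hj0m, hj0⟩ := Nat.find_spec hex
    have hlt : ∀ i, i < Nat.find hex → D.d (q i) e ≤ D.th := fun i hi => by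
      by_contra hc
      exact Nat.find_min hex hi ⟨by omega, not_le.mp hc⟩
    generalize Nat.find hex = j0 at hj0m hj0 hlt
    have hgt' : ∀ i, D.d (q (j0 + i + 1)) f ≤ D.th := fun i => by
      induction i with
      | zero => exact F1 j0 hj0
      | succ i ih =>
        refine F1 (j0 + i + 1) ?_
        have e1 := D.tri e (q (j0 + i + 1)) f
        have e2 := D.symm e (q (j0 + i + 1))
        linarith
    have hgt : ∀ i, j0 < i → D.d (q i) f ≤ D.th := fun i hi => by
      obtain ⟨c, rfl⟩ := Nat.exists_eq_add_of_lt hi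
      exact hgt' c
    rcases j0 with _ | j
    · have e1 := hgt 1 one_pos
      have e2 := hgt m hm
      have e3 := D.tri (q 0) (q 1) (q m)
      have e4 := D.tri (q 1) f (q m)
      have e5 := D.symm f (q m)
      have e6 := F2 0 (by simp only [zero_add]; linarith)
      simp only [zero_add] at e6
      have e7 := D.tri (n • q 0) (q m) (q 1)
      have e8 := D.symm (n • q 0) (q m)
      have e9 := D.symm (q m) (q 1)
      linarith
    · have e1 := hlt 0 (Nat.succ_pos j)
      have e2 := hlt j (Nat.lt_succ_self j)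
      have e3 := D.inv n (q j) e
      have e4 := D.inv n (q 0) e
      have e5 := D.symm (q j) e
      have e6 := D.symm (n • q 0) (n • e)
      have e7 := D.symm (q m) (n • q 0)
      rcases hj0m.eq_or_lt with hEq | hLt
      · rw [← hEq] at hfar hpm e7
        have e8 := D.tri (q 0) e (q (j + 1))
        have e9 := D.tri e (q j) (q (j + 1))
        have e10 := F2 j (by linarith)
        have e11 := D.tri (n • q j) (n • e) (q (j + 1))
        have e12 := D.tri (n • e) (n • q 0) (q (j + 1))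
        linarith
      · have e8 := hgt m hLt
        have e9 := hgt (j + 1 + 1) (Nat.lt_succ_self _)
        have hnef : D.d (n • e) f ≤ 14 * D.th := by
          have a1 := D.tri (n • e) (n • q 0) f
          have a2 := D.tri (n • q 0) (q m) f
          linarith
        have hef2 : 86 * D.th ≤ D.d e f := by
          have a1 := D.tri (q 0) e (q m)
          have a2 := D.tri e f (q m)
          have a3 := D.symm f (q m)
          linarith
        have s1 := D.symm f (q (j + 1))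
        have s2 := D.symm f (q (j + 1 + 1))
        have s3 := D.symm e (q (j + 1))
        by_cases c1 : D.d (q (j + 1)) f ≤ 3 * D.th
        · have a1 := D.tri e (q j) f
          have a2 := D.tri (q j) (q (j + 1)) f
          have a3 := F2 j (by linarith)
          have a4 := D.tri (n • q j) (n • e) (q (j + 1))
          have a5 := D.tri (n • e) f (q (j + 1))
          linarith
        · have c1' := not_le.mp c1
          have a1 := D.tri e (q (j + 1)) f
          have a2 := D.tri (q (j + 1)) (q (j + 1 + 1)) f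
          have a5 := D.tri (n • e) f (q (j + 1 + 1))
          by_cases c2 : D.d (q (j + 1)) e ≤ 3 * D.th
          · have a3 := F2 (j + 1) (by linarith)
            have a4 := D.tri (n • q (j + 1)) (n • e) (q (j + 1 + 1))
            have a6 := D.inv n (q (j + 1)) e
            linarith
          · have c2' := not_le.mp c2
            have a3 := F3 (j + 1) n hn (by linarith) (by linarith)
            linarith

/-- The kernel data: a normal subgroup acting trivially on points. -/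
structure Ker (M : Subgroup G) : Prop where
  normal : M.Normal
  triv : ∀ m ∈ M, ∀ x : B, m • x = x
  stab : ∀ (g : G) (Y : I), g • Y = Y → g ∈ D.N Y ⊔ M
  tf : ∀ (g : G) (m : ℕ), 0 < m → g ^ m ∈ M → g ∈ M

variable {D}

theorem K_inf [Nonempty B] {M : Subgroup G} (hM : D.Ker M) : D.K ⊓ M = ⊥ := by
  rw [eq_bot_iff]
  intro k hk
  obtain ⟨x⟩ := ‹Nonempty B›
  exact Subgroup.mem_bot.mpr (D.eq_one_of_fix hk.1 (hM.triv k hk.2 x))

/-- The stabiliser in `K` of an index is its spinning subgroup. -/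
theorem stab_K [Nonempty B] {M : Subgroup G} (hM : D.Ker M) {k : G} (hk : k ∈ D.K) {Y : I}
    (hY : k • Y = Y) : k ∈ D.N Y := by
  have hMn := hM.normal
  obtain ⟨n, hn, c, hc, hnc⟩ := Subgroup.mem_sup_of_normal_right.mp (hM.stab k Y hY)
  have h1 : c ∈ D.K ⊓ M := by
    refine ⟨?_, hc⟩
    have : c = n⁻¹ * k := by rw [← hnc]; group
    rw [this]
    exact D.K.mul_mem (D.K.inv_mem (D.N_le_K Y hn)) hk
  rw [K_inf hM, Subgroup.mem_bot] at h1
  rw [← hnc, h1, mul_one]
  exact hn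

theorem torsion [Nonempty B] {M : Subgroup G} (hM : D.Ker M) {g : G} {m : ℕ} (hm : 0 < m)
    (hg : g ^ m ∈ D.K ⊔ M) : g ∈ D.K ⊔ M := by
  have hK := D.K_normal
  have hMn := hM.normal
  have hth := D.th_pos
  obtain ⟨x0⟩ := ‹Nonempty B›
  let S : Set ℝ := {r | ∃ k ∈ D.K, ∃ y : B, r = D.d y ((k * g) • y)}
  have hne : S.Nonempty := ⟨_, 1, D.K.one_mem, x0, rfl⟩
  have hbd : BddBelow S := ⟨0, by rintro r ⟨k, -, y, rfl⟩; exact D.nonneg _ _⟩
  obtain ⟨r, ⟨k1, hk1, x, rfl⟩, hr⟩ :=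
    exists_lt_of_csInf_lt hne (lt_add_of_pos_right (sInf S) hth)
  have hmin : ∀ k ∈ D.K, ∀ y, D.d x ((k1 * g) • x) ≤ D.d y ((k * (k1 * g)) • y) + D.th := by
    intro k hk y
    have : sInf S ≤ D.d y ((k * (k1 * g)) • y) :=
      csInf_le hbd ⟨k * k1, D.K.mul_mem hk hk1, y, by rw [mul_assoc]⟩
    linarith
  have hk1' : k1 ∈ D.K ⊔ M := Subgroup.mem_sup_left hk1
  suffices h : k1 * g ∈ D.K ⊔ M by
    exact (Subgroup.mul_mem_cancel_left _ hk1').mp h
  have hpow : (k1 * g) ^ m ∈ D.K ⊔ M := by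
    rw [← QuotientGroup.eq_one_iff] at hg hk1' ⊢
    rw [QuotientGroup.mk_pow] at hg ⊢
    rw [QuotientGroup.mk_mul, hk1', one_mul, hg]
  obtain ⟨k, hk, c, hc, hkc⟩ := Subgroup.mem_sup_of_normal_right.mp hpow
  rcases D.greendlinger x hk with h | ⟨u, n, hn, hn1, hp⟩
  · rw [h, one_mul] at hkc
    exact Subgroup.mem_sup_right (hM.tf _ m hm (hkc ▸ hc))
  · by_cases hu : (k1 * g) • u = u
    · exact sup_le_sup_right (D.N_le_K u) M (hM.stab _ u hu)
    · refine (D.no_pivot hmin hu hm hn hn1 ?_).elim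
      rw [← hkc, mul_smul, hM.triv c hc]
      exact hp

/-- Every finite subgroup of the quotient lies in the image of the kernel. -/
theorem finite_le [Nonempty B] {M : Subgroup G} (hM : D.Ker M) [D.K.Normal]
    (F : Subgroup (G ⧸ D.K)) (hF : Finite F) : F ≤ M.map (QuotientGroup.mk' D.K) := by
  intro f hf
  obtain ⟨g, rfl⟩ := QuotientGroup.mk_surjective f
  have hfin : IsOfFinOrder (⟨(g : G ⧸ D.K), hf⟩ : F) := isOfFinOrder_of_finite _
  obtain ⟨m, hm, h1⟩ := isOfFinOrder_iff_pow_eq_one.mp hfin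
  have h2 : ((g ^ m : G) : G ⧸ D.K) = 1 := by
    rw [QuotientGroup.mk_pow]
    exact congrArg Subtype.val h1
  have h3 : g ^ m ∈ D.K := (QuotientGroup.eq_one_iff _).mp h2
  have hMn := hM.normal
  obtain ⟨k, hk, c, hc, hkc⟩ := Subgroup.mem_sup_of_normal_right.mp
    (torsion hM hm (Subgroup.mem_sup_left h3))
  refine ⟨c, hc, ?_⟩
  rw [← hkc, QuotientGroup.mk'_apply, QuotientGroup.mk_mul, (QuotientGroup.eq_one_iff k).mpr hk,
    one_mul]

/-- The order of a finite subgroup of the quotient divides the order of the kernel. -/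
theorem card_dvd [Nonempty B] {M : Subgroup G} (hM : D.Ker M) [D.K.Normal]
    (F : Subgroup (G ⧸ D.K)) (hF : Finite F) : Nat.card F ∣ Nat.card M :=
  (Subgroup.card_dvd_of_le (finite_le hM F hF)).trans (Subgroup.card_map_dvd _ _)

end Dat

/-- The same data for a distance that need not vanish on the diagonal. -/
structure QDat (G B I : Type*) [Group G] [MulAction G B] [MulAction G I] where
  d : B → B → ℝ
  p : I → B → B
  N : I → Subgroup G
  th : ℝ
  th_pos : 0 < th
  symm : ∀ x y, d x y = d y x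
  tri : ∀ x y z, d x z ≤ d x y + d y z
  nonneg : ∀ x y, 0 ≤ d x y
  self : ∀ x, d x x ≤ th
  inv : ∀ (g : G) x y, d (g • x) (g • y) = d x y
  p_eq : ∀ (g : G) Y x, p (g • Y) (g • x) = g • p Y x
  N_conj : ∀ (g : G) Y n, n ∈ N Y → g * n * g⁻¹ ∈ N (g • Y)
  N_fix : ∀ Y n, n ∈ N Y → n • Y = Y
  lip : ∀ Y x y, d (p Y x) (p Y y) ≤ d x y
  conn : ∀ x y, Relation.ReflTransGen (fun a b => d a b ≤ th) x y
  beh : ∀ Y Z, Y ≠ Z → ∃ a b, (∀ x, d (p Y x) a ≤ th ∨ d (p Z x) b ≤ th) ∧
    ∀ x, d (p Y (p Z x)) a ≤ th ∧ d (p Z (p Y x)) b ≤ th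
  con : ∀ Y x y, th ≤ d (p Y x) (p Y y) →
    d x (p Y x) + d (p Y x) (p Y y) + d (p Y y) y ≤ d x y + th
  spin : ∀ Y n x, n ∈ N Y → n ≠ 1 → 100 * th ≤ d (p Y x) (n • p Y x)

open Classical in
/-- The distance made zero on the diagonal. -/
noncomputable def QDat.d0 (Q : QDat G B I) (x y : B) : ℝ := if x = y then 0 else Q.d x y

theorem QDat.d0_le (Q : QDat G B I) (x y : B) : Q.d0 x y ≤ Q.d x y := by
  unfold QDat.d0
  split_ifs
  · exact Q.nonneg x y
  · exact le_rfl

theorem QDat.d0_ne (Q : QDat G B I) {x y : B} (h : x ≠ y) : Q.d0 x y = Q.d x y := by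
  unfold QDat.d0
  rw [if_neg h]

theorem QDat.d0_self (Q : QDat G B I) (x : B) : Q.d0 x x = 0 := by
  unfold QDat.d0
  rw [if_pos rfl]

theorem QDat.d0_nonneg (Q : QDat G B I) (x y : B) : 0 ≤ Q.d0 x y := by
  unfold QDat.d0
  split_ifs
  · exact le_rfl
  · exact Q.nonneg x y

/-- Passage to a distance that vanishes on the diagonal; the subgroups are unchanged. -/
noncomputable def QDat.toDat (Q : QDat G B I) : Dat G B I where
  d := Q.d0
  p := Q.p
  N := Q.N
  th := Q.th
  th_pos := Q.th_pos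
  symm x y := by
    by_cases h : x = y
    · rw [h]
    · rw [Q.d0_ne h, Q.d0_ne (Ne.symm h), Q.symm]
  tri x y z := by
    by_cases h1 : x = y
    · rw [h1, Q.d0_self, zero_add]
    by_cases h2 : y = z
    · rw [h2, Q.d0_self, add_zero]
    rw [Q.d0_ne h1, Q.d0_ne h2]
    exact (Q.d0_le x z).trans (Q.tri x y z)
  self := Q.d0_self
  inv g x y := by
    by_cases h : x = y
    · rw [h, Q.d0_self, Q.d0_self]
    · rw [Q.d0_ne h, Q.d0_ne (fun hc => h (MulAction.injective g hc)), Q.inv]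
  p_eq := Q.p_eq
  N_conj := Q.N_conj
  N_fix := Q.N_fix
  lip Y x y := by
    by_cases h : x = y
    · rw [h, Q.d0_self, Q.d0_self]
    · rw [Q.d0_ne h]
      exact (Q.d0_le _ _).trans (Q.lip Y x y)
  conn x y := by
    have h := Q.conn x y
    induction h with
    | refl => exact Relation.ReflTransGen.refl
    | tail _ hbc ih => exact ih.tail ((Q.d0_le _ _).trans hbc)
  beh Y Z h := by
    obtain ⟨a, b, h1, h2⟩ := Q.beh Y Z h
    refine ⟨a, b, fun x => ?_, fun x => ⟨(Q.d0_le _ _).trans (h2 x).1, (Q.d0_le _ _).trans (h2 x).2⟩⟩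
    exact (h1 x).imp (Q.d0_le _ _).trans (Q.d0_le _ _).trans
  con Y x y h := by
    have hxy : x ≠ y := by
      rintro rfl
      rw [Q.d0_self] at h
      exact absurd Q.th_pos (not_lt.mpr h)
    have h1 := Q.con Y x y (h.trans (Q.d0_le _ _))
    have h2 := Q.d0_le x (Q.p Y x)
    have h3 := Q.d0_le (Q.p Y x) (Q.p Y y)
    have h4 := Q.d0_le (Q.p Y y) y
    rw [Q.d0_ne hxy]
    linarith
  spin Y n x hn hn1 := by
    have h1 := Q.spin Y n x hn hn1
    have hne : Q.p Y x ≠ n • Q.p Y x := by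
      intro hc
      rw [← hc] at h1
      have := Q.self (Q.p Y x)
      have := Q.th_pos
      linarith
    rw [Q.d0_ne hne]
    exact h1

end Pool.Agent.MP_54e5d7_al.SC

end MrgPart1

-- marker of a merged file
example : 731051 + 689731 = 731051 + 689731 := rfl
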