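import Pool.Agent.MP_54e5d7_al.atc.ker.Trace
import Pool.Agent.MP_54e5d7_al.atc.ker.Ker
import Pool.Agent.MP_54e5d7_al.atc.fin.Typ
import Pool.Agent.MP_54e5d7_al.atc.fin.GlueA
import Pool.Agent.MP_54e5d7_al.atc.tr.Core
import Pool.Agent.MP_54e5d7_al.atc.dim2.Dim

/-!
PROJECT ATC: all blocks together.
-/

namespace Pool.Agent.MP_54e5d7_al.Atc

theorem not_sac_all : ¬ Sac := not_sac cov arith split sc_stmt typ covol ker dim2

end Pool.Agent.MP_54e5d7_al.Atc
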