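import Mathlib

/-!
Bridge, part 0: the literal objects of the frozen statement, kernels cut out by local linear
conditions, and an equivariant polar decomposition.
-/

set_option autoImplicit false
open scoped ENNReal NNReal InnerProductSpace
open Classical

namespace Pool.Agent.MP_54e5d7_al.ATC

/-- The kernel of right multiplication by `A` on square-summable vectors. -/
def kerSet {G : Type} [Group G] {m n : ℕ} (A : Matrix (Fin m) (Fin n) (G →₀ ℂ)) :
    Set (lp (fun _ : Fin m × G => ℂ) 2) :=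
  {x : lp (fun _ : Fin m × G => ℂ) 2 | ∀ (j : Fin n) (g : G),
    ∑ i' : Fin m, (A i' j).sum (fun h c => x (i', g * h⁻¹) * c) = 0}

/-- The von Neumann dimension of the kernel, in the form of the frozen statement. -/
noncomputable def vdim {G : Type} [Group G] {m n : ℕ} (A : Matrix (Fin m) (Fin n) (G →₀ ℂ)) : ℝ :=
  ∑ i : Fin m, (1 - (Metric.infDist
    (lp.single 2 (i, (1 : G)) (1 : ℂ) : lp (fun _ : Fin m × G => ℂ) 2) (kerSet A)) ^ 2)

/-- The strong Atiyah conjecture, literally as frozen. -/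
def SAC : Prop :=
  ∀ (G : Type) [Group G] (F : Subfield ℂ) (N : ℕ),
    (∀ H : Subgroup G, Finite H → Nat.card H ≤ N) →
    ∀ d : ℕ, (∀ H : Subgroup G, Finite H → Nat.card H ∣ d) →
      (∀ e : ℕ, (∀ H : Subgroup G, Finite H → Nat.card H ∣ e) → d ∣ e) →
    ∀ (m n : ℕ) (A : Matrix (Fin m) (Fin n) (G →₀ ℂ)),
      (∀ i j g, A i j g ∈ F) →
      ∃ z : ℤ, (d : ℝ) * ((n : ℝ) - (m : ℝ) + ∑ i : Fin m,
        (1 - (Metric.infDist
          (lp.single 2 (i, (1 : G)) (1 : ℂ) : lp (fun _ : Fin m × G => ℂ) 2)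
          {x : lp (fun _ : Fin m × G => ℂ) 2 | ∀ (j : Fin n) (g : G),
            ∑ i' : Fin m, (A i' j).sum (fun h c => x (i', g * h⁻¹) * c) = 0}) ^ 2)) = z

/-- If all finite subgroups have order dividing `e > 0`, the conjecture makes `e * dim` an
integer. -/
theorem SAC.int (h : SAC) (G : Type) [Group G] (e : ℕ) (he : 0 < e)
    (hfin : ∀ H : Subgroup G, Finite H → Nat.card H ∣ e) {m n : ℕ}
    (A : Matrix (Fin m) (Fin n) (G →₀ ℂ)) : ∃ z : ℤ, (e : ℝ) * vdim A = z := by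
  have hex : ∃ d : ℕ, 0 < d ∧ ∀ H : Subgroup G, Finite H → Nat.card H ∣ d := ⟨e, he, hfin⟩
  set d := Nat.find hex with hd
  obtain ⟨hd0, hd1⟩ := Nat.find_spec hex
  have hmin : ∀ e' : ℕ, (∀ H : Subgroup G, Finite H → Nat.card H ∣ e') → d ∣ e' := by
    intro e' he'
    have h1 : d ≤ Nat.gcd d e' :=
      Nat.find_min' hex ⟨Nat.gcd_pos_of_pos_left _ hd0, fun H hH => Nat.dvd_gcd (hd1 H hH) (he' H hH)⟩
    have h2 : Nat.gcd d e' = d := le_antisymm (Nat.gcd_le_left _ hd0) h1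
    rw [← h2]
    exact Nat.gcd_dvd_right _ _
  obtain ⟨z, hz⟩ := h G ⊤ e (fun H hH => Nat.le_of_dvd he (hfin H hH)) d hd1 hmin m n A
    (fun _ _ _ => trivial)
  obtain ⟨k, hk⟩ := hmin e hfin
  refine ⟨k * (z - d * (n - m)), ?_⟩
  have hz' : (d : ℝ) * ((n : ℝ) - (m : ℝ) + vdim A) = z := hz
  push_cast
  rw [← hz', hk]
  push_cast
  ring

/-- A translation invariant system of local linear conditions is the kernel of a matrix over the
group ring. -/
theorem exists_matrix {G : Type} [Group G] {m : ℕ} (T : Finset (Fin m × G))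
    (V : Submodule ℂ (Fin m × G → ℂ)) (hT : ∀ y, (∀ p ∈ T, y p = 0) → y ∈ V) :
    ∃ (n : ℕ) (A : Matrix (Fin m) (Fin n) (G →₀ ℂ)), ∀ x : lp (fun _ : Fin m × G => ℂ) 2,
      x ∈ kerSet A ↔ ∀ g : G, (fun p : Fin m × G => x (p.1, g * p.2)) ∈ V := by
  -- the quotient by `V` is finite dimensional
  let ext : (T → ℂ) →ₗ[ℂ] (Fin m × G → ℂ) :=
    { toFun := fun y p => if h : p ∈ T then y ⟨p, h⟩ else 0
      map_add' := fun y y' => by funext p; by_cases h : p ∈ T <;> simp [h]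
      map_smul' := fun c y => by funext p; by_cases h : p ∈ T <;> simp [h] }
  have hext : ∀ y : Fin m × G → ℂ, y - ext (fun p => y p) ∈ V := fun y =>
    hT _ fun p hp => by simp [ext, hp]
  have hsurj : Function.Surjective (V.mkQ ∘ₗ ext) := by
    intro q
    obtain ⟨y, rfl⟩ := V.mkQ_surjective q
    refine ⟨fun p => y p, ?_⟩
    simp only [LinearMap.comp_apply, Submodule.mkQ_apply]
    exact ((Submodule.Quotient.eq V).2 (hext y)).symm
  have : Module.Finite ℂ ((Fin m × G → ℂ) ⧸ V) := Module.Finite.of_surjective _ hsurj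
  let b := Module.finBasis ℂ ((Fin m × G → ℂ) ⧸ V)
  set n := Module.finrank ℂ ((Fin m × G → ℂ) ⧸ V)
  let L : Fin n → (Fin m × G → ℂ) →ₗ[ℂ] ℂ := fun j => b.coord j ∘ₗ V.mkQ
  have hL : ∀ y, y ∈ V ↔ ∀ j, L j y = 0 := by
    intro y
    rw [← Submodule.Quotient.mk_eq_zero, ← b.forall_coord_eq_zero_iff]
    rfl
  have hLs : ∀ j y, L j y = ∑ p ∈ T, y p * L j (Pi.single p 1) := by
    intro j y
    have h1 : y - ∑ p ∈ T, y p • (Pi.single p 1 : Fin m × G → ℂ) ∈ V := hT _ fun q hq => by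
      simp [Finset.sum_apply, Pi.single_apply, hq]
    have h2 := (hL _).1 h1 j
    rw [map_sub, map_sum, sub_eq_zero] at h2
    simpa using h2
  refine ⟨n, fun i j => ∑ p ∈ T.filter (fun p => p.1 = i),
    Finsupp.single p.2⁻¹ (L j (Pi.single p 1)), fun x => ?_⟩
  have key : ∀ (j : Fin n) (g : G), ∑ i' : Fin m,
      (∑ p ∈ T.filter (fun p => p.1 = i'), Finsupp.single p.2⁻¹ (L j (Pi.single p 1))).sum
        (fun h c => x (i', g * h⁻¹) * c) = L j (fun p => x (p.1, g * p.2)) := by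
    intro j g
    rw [hLs, ← Finset.sum_fiberwise_of_maps_to (s := T) (t := Finset.univ) (g := fun p => p.1)
      (fun _ _ => Finset.mem_univ _)]
    refine Finset.sum_congr rfl fun i _ => ?_
    rw [← Finsupp.sum_finsetSum_index (fun _ => by simp) (fun _ _ _ => by simp [mul_add])]
    refine Finset.sum_congr rfl fun p hp => ?_
    rw [Finsupp.sum_single_index (by simp), inv_inv, (Finset.mem_filter.1 hp).2]
  simp only [kerSet, Set.mem_ofPred_eq, key, hL]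
  exact forall_comm

/-- Equivariant polar decomposition. -/
theorem polar {W H : Type*} [NormedAddCommGroup W] [InnerProductSpace ℂ W] [CompleteSpace W]
    [NormedAddCommGroup H] [InnerProductSpace ℂ H] [CompleteSpace H] (R : W →L[ℂ] H) (c : ℝ)
    (hc : ∀ x, ‖x‖ ^ 2 ≤ c * ‖R x‖ ^ 2) :
    ∃ Q : W →L[ℂ] W, Function.Surjective Q ∧ (∀ x, ‖R (Q x)‖ = ‖x‖) ∧
      ∀ τ : W ≃ₗᵢ[ℂ] W, (∀ x, ‖R (τ x)‖ = ‖R x‖) → ∀ x, Q (τ x) = τ (Q x) := by
  set S : W →L[ℂ] W := (ContinuousLinearMap.adjoint R) ∘L R with hS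
  have hSi : ∀ x, ⟪S x, x⟫_ℂ = ((‖R x‖ ^ 2 : ℝ) : ℂ) := fun x => by
    rw [hS, ContinuousLinearMap.comp_apply, ContinuousLinearMap.adjoint_inner_left,
      inner_self_eq_norm_sq_to_K]
    simp
  have hS0 : 0 ≤ S :=
    (ContinuousLinearMap.nonneg_iff_isPositive S).2 (R.isPositive_adjoint_comp_self)
  have hSu : IsUnit S := by
    refine ContinuousLinearMap.isUnit_of_forall_le_norm_inner_map S
      (c := ⟨1 / (|c| + 1), by positivity⟩) (by
        show (0 : ℝ) < 1 / (|c| + 1)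
        positivity) fun x => ?_
    show ‖x‖ ^ 2 * (1 / (|c| + 1)) ≤ _
    rw [hSi, Complex.norm_real, Real.norm_eq_abs, abs_of_nonneg (sq_nonneg ‖R x‖)]
    rw [mul_one_div, div_le_iff₀ (by positivity)]
    have := hc x
    nlinarith [le_abs_self c, sq_nonneg ‖R x‖]
  set T : W →L[ℂ] W := CFC.sqrt S with hTd
  have hTT : T * T = S := CFC.sqrt_mul_sqrt_self S hS0
  have hTsa : IsSelfAdjoint T := IsSelfAdjoint.of_nonneg (CFC.sqrt_nonneg S)
  obtain ⟨U, hU⟩ : IsUnit T := (CFC.isUnit_sqrt_iff S hS0).2 hSu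
  have hTn : ∀ x, ‖T x‖ = ‖R x‖ := fun x => by
    have h1 : ⟪T x, T x⟫_ℂ = ⟪S x, x⟫_ℂ := by
      rw [← hTT, mul_apply_eq_comp, ← ContinuousLinearMap.adjoint_inner_left,
        hTsa.adjoint_eq]
    have h2 : ‖T x‖ ^ 2 = ‖R x‖ ^ 2 := by
      rw [← inner_self_eq_norm_sq (𝕜 := ℂ), h1, hSi]
      exact Complex.ofReal_re _
    exact (sq_eq_sq₀ (norm_nonneg _) (norm_nonneg _)).1 h2
  have hTQ : ∀ x, T ((↑U⁻¹ : W →L[ℂ] W) x) = x := fun x => by
    rw [← hU, ← mul_apply_eq_comp, U.mul_inv]; rfl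
  have hQT : ∀ x, (↑U⁻¹ : W →L[ℂ] W) (T x) = x := fun x => by
    rw [← hU, ← mul_apply_eq_comp, U.inv_mul]; rfl
  refine ⟨(↑U⁻¹ : W →L[ℂ] W), fun x => ⟨T x, hQT x⟩, fun x => by rw [← hTn, hTQ], fun τ hτ x => ?_⟩
  have h1 : ∀ y, S (τ y) = τ (S y) := by
    have h2 := (ext_inner_map
      ((τ.symm : W →ₗ[ℂ] W) ∘ₗ (S : W →ₗ[ℂ] W) ∘ₗ (τ : W →ₗ[ℂ] W)) (S : W →ₗ[ℂ] W)).1 fun y => by
        show ⟪τ.symm (S (τ y)), y⟫_ℂ = ⟪S y, y⟫_ℂ
        rw [← τ.inner_map_map, τ.apply_symm_apply, hSi, hSi, hτ]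
    intro y
    have h3 : τ.symm (S (τ y)) = S y := LinearMap.congr_fun h2 y
    rw [← h3, τ.apply_symm_apply]
  have h4 : Commute S (τ.toContinuousLinearEquiv : W →L[ℂ] W) :=
    ContinuousLinearMap.ext fun y => h1 y
  have h5 : Commute T (τ.toContinuousLinearEquiv : W →L[ℂ] W) := h4.cfcₙ_nnreal _
  have h6 : ∀ y, T (τ y) = τ (T y) := fun y => ContinuousLinearMap.ext_iff.1 h5 y
  rw [← hTQ x, ← h6, hQT, hQT]

end Pool.Agent.MP_54e5d7_al.ATC
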