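import Pool.Agent.MP_54e5d7_al.atc.ker.Trace
import Pool.Agent.MP_54e5d7_al.Defs

/-!
PROJECT ATC: the structure of the counterexample.
-/

set_option autoImplicit false

open scoped ENNReal
open Matrix Set MeasureTheory

namespace Pool.Agent.MP_54e5d7_al.Atc

theorem int_of_atiyah {G : Type} [Group G] {d : ℕ} (h : Atiyah G d) {k l : ℕ}
    (A : Matrix (Fin k) (Fin l) (G →₀ ℂ)) : ∃ z : ℤ, (d : ℝ) * vnDim A = z := by
  obtain ⟨z, hz⟩ := h k l A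
  have hz' : (d : ℝ) * ((l : ℝ) - (k : ℝ) + vnDim A) = z := hz
  refine ⟨z - d * ((l : ℤ) - k), ?_⟩
  push_cast
  rw [← hz']
  ring

theorem strong (cov : CovStmt) (arith : ArithStmt) (split : SplitStmt) (sc : ScStmt)
    (typ : TypeStmt) (covol : CovolStmt) (ker : KerStmt) (dim : DimStmt) (M : ℕ) (hM : 0 < M) :
    ∃ (G : Type) (_ : Group G) (Z : Subgroup G), Countable G ∧ Finite Z ∧
      Z ≤ Subgroup.center G ∧ (∀ g : G, IsOfFinOrder g → g ∈ Z) ∧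
      ¬ Atiyah G (M * Nat.card Z) := by
  obtain ⟨Γ₀, h0, hA⟩ := arith
  obtain ⟨r, hr, c, hT⟩ := typ Γ₀ h0
  obtain ⟨X, m, ε, hX, hW, hB⟩ := hA r hr c
  obtain ⟨L, hS⟩ := sc ε hX.pos
  obtain ⟨Γ₁, l1, i1, hD, hTw⟩ := hB L
  have h1 : Lat Γ₁ := h0.sub l1 i1
  obtain ⟨F₁, -, hv, hF⟩ := covol Γ₁ h1
  obtain ⟨c0, hc0, hc⟩ := exists_c0 (M * vol F₁)
  obtain ⟨b, e, Γ₂, l2, i2, he, hdiv⟩ := hTw c0
  have i2' : Γ₂.relIndex Γ₁ ≠ 0 := by rw [i2]; positivity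
  have h2 : Lat Γ₂ := h1.sub l2 i2'
  obtain ⟨F₂, hF₂, hvol⟩ := hF Γ₂ l2 i2'
  obtain ⟨n, hn⟩ : ∃ n : ℕ, n = 17 ^ (b + c0) := ⟨_, rfl⟩
  rw [← hn] at hdiv
  have hn3 : 3 ≤ n := by
    rw [hn]
    exact (by norm_num : 3 ≤ 17 ^ 1).trans (Nat.pow_le_pow_right (by norm_num) (by omega))
  have hn0 : 0 < n := by omega
  obtain ⟨U, _, ⟨C⟩⟩ := cov n hn0
  obtain ⟨N, hN⟩ := split n U C Γ₁ Γ₂ X ε hn0 h1 (hX.sub l1) l2 i2' hdiv
  have hX2 : Discs Γ₂ X ε := hX.sub (l2.trans l1)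
  obtain ⟨s1, s2⟩ := hS n U C Γ₂ X N hn0 h2 (hD.sub l2) hX2 hN
  haveI := Kf_normal hX2 hN
  let Q : Quo C Γ₂ (↥(Γ₂.comap C.p) ⧸ Kf C Γ₂ X N) :=
    ⟨QuotientGroup.mk' _, Quotient.out, fun q => Quotient.out_eq q⟩
  have hπ : ∀ a : ↥(Γ₂.comap C.p), Q.π a = 1 ↔ (a : U) ∈ ⨆ x ∈ X, N x := fun a =>
    QuotientGroup.eq_one_iff a
  have hker : C.p.ker ≤ Γ₂.comap C.p := fun z hz => by
    rw [Subgroup.mem_comap, MonoidHom.mem_ker.1 hz]
    exact one_mem _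
  let ι : C.p.ker →* (↥(Γ₂.comap C.p) ⧸ Kf C Γ₂ X N) := Q.π.comp (Subgroup.inclusion hker)
  have hck := C.card_ker hn0
  haveI : Finite C.p.ker := Nat.finite_of_card_ne_zero (by omega)
  haveI : Finite ι.range := Finite.of_surjective _ ι.rangeRestrict_surjective
  have hZ : Nat.card ι.range ∣ n :=
    (Subgroup.card_dvd_of_surjective _ ι.rangeRestrict_surjective).trans (dvd_of_eq hck)
  have hle : ∀ q : ↥(Γ₂.comap C.p) ⧸ Kf C Γ₂ X N, IsOfFinOrder q → q ∈ ι.range := by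
    intro q hfin
    obtain ⟨k, hk, hqk⟩ := isOfFinOrder_iff_pow_eq_one.1 hfin
    have e1 : Q.π (Q.σ q ^ k) = 1 := by rw [map_pow, Q.sec, hqk]
    obtain ⟨z, hz, hz'⟩ := s2 (Q.σ q : U) (Q.σ q).2 k hk ((hπ _).1 e1)
    refine ⟨⟨z, hz⟩, ?_⟩
    have e2 : Q.π (Q.σ q * (Subgroup.inclusion hker ⟨z, hz⟩)⁻¹) = 1 := (hπ _).2 hz'
    rw [map_mul, map_inv, Q.sec, mul_inv_eq_one] at e2
    exact e2.symm
  have hcen : ι.range ≤ Subgroup.center _ := by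
    rintro _ ⟨z, rfl⟩
    rw [Subgroup.mem_center_iff]
    intro q
    rw [← Q.sec q]
    show Q.π _ * Q.π _ = Q.π _ * Q.π _
    rw [← map_mul, ← map_mul]
    congr 1
    exact Subtype.ext (C.central hn0 z.2 _).symm
  have hcount : Countable ↥(Γ₂.comap C.p) := by
    haveI := h2.countable
    obtain ⟨τ, hτ⟩ := (C.surj hn0).hasRightInverse
    have hs : Function.Surjective fun x : Γ₂ × C.p.ker =>
        (⟨τ x.1 * x.2, by
          rw [Subgroup.mem_comap, map_mul, hτ, MonoidHom.mem_ker.1 x.2.2, mul_one]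
          exact x.1.2⟩ : ↥(Γ₂.comap C.p)) := by
      intro a
      refine ⟨(⟨C.p a, a.2⟩, ⟨(τ (C.p a))⁻¹ * a, ?_⟩), Subtype.ext ?_⟩
      · rw [MonoidHom.mem_ker, map_mul, map_inv, hτ, inv_mul_cancel]
      · simp
    exact hs.countable
  refine ⟨_, inferInstance, ι.range, QuotientGroup.mk_surjective.countable, inferInstance, hcen,
    hle, fun sac => ?_⟩
  have i20 : Γ₂.relIndex Γ₀ ≠ 0 := by
    rw [← Subgroup.relIndex_mul_relIndex Γ₂ Γ₁ Γ₀ l2 l1]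
    exact mul_ne_zero i2' i1
  have hnR : (0 : ℝ) < n := by exact_mod_cast hn0
  have hinj : ∀ z : ↥(Γ₂.comap C.p), C.p z = 1 → Q.π z = 1 → z = 1 :=
    fun z hz hz' => Subtype.ext (s1 z ((hπ z).1 hz') hz)
  have main : ∀ s : ℕ, 5 * n < s → s ≤ 6 * n → ∃ z : ℤ,
      M * vol F₂ / (Real.pi ^ 2 * n ^ 2) * (((s : ℝ) - n) * ((s : ℝ) - 2 * n)) = z := by
    intro s hs hs'
    obtain ⟨k, l, A, Λ, hfin⟩ := hT X m ε hX hW n U C Γ₂ N _ Q s hn0 hs' (l2.trans l1) i20 hinj hN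
      (fun x hx ν hν => (hπ ν).2 ((le_iSup₂ (f := fun x (_ : x ∈ X) => N x) x hx) hν))
    obtain ⟨κ, k1, k2, k3⟩ := ker n U C Γ₂ _ Q s F₂ hn0 hs h2 hF₂ hinj
    have hd := dim n U C Γ₂ _ Q s F₂ κ k l A Λ hn0 h2 hF₂ hfin k1 k2
    rw [k3, Complex.ofReal_inj] at hd
    obtain ⟨z, hz⟩ := int_of_atiyah sac A
    obtain ⟨w, hw⟩ := hZ
    have hw' : (n : ℝ) = Nat.card ι.range * w := by exact_mod_cast hw
    refine ⟨w * z, ?_⟩
    have e : (w : ℝ) * z = M * n * vnDim A := by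
      rw [← hz, hw']
      push_cast
      ring
    push_cast
    rw [e, hd]
    have := Real.pi_pos
    field_simp
  obtain ⟨z1, e1⟩ := main (5 * n + 1) (by omega) (by omega)
  obtain ⟨z2, e2⟩ := main (5 * n + 2) (by omega) (by omega)
  obtain ⟨z3, e3⟩ := main (5 * n + 3) (by omega) (by omega)
  have hW0 : 0 < M * vol F₂ / (Real.pi ^ 2 * n ^ 2) := by
    have := Real.pi_pos
    rw [hvol, i2]
    positivity
  have hW1 : 2 * (M * vol F₂ / (Real.pi ^ 2 * n ^ 2)) < 1 := by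
    have := Real.pi_pos
    rw [hvol, i2, hn, ← mul_div_assoc, div_lt_one (by positivity)]
    push_cast
    have a1 : (17 : ℝ) ^ e ≤ 17 ^ (2 * b) := pow_le_pow_right₀ (by norm_num) he
    have a2 : ((17 : ℝ) ^ (b + c0)) ^ 2 = 17 ^ (2 * b) * 17 ^ (2 * c0) := by ring
    rw [a2]
    calc 2 * (M * ((17 : ℝ) ^ e * vol F₁)) = 17 ^ e * (2 * (M * vol F₁)) := by ring
      _ ≤ 17 ^ (2 * b) * (2 * (M * vol F₁)) := mul_le_mul_of_nonneg_right a1 (by positivity)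
      _ < 17 ^ (2 * b) * (Real.pi ^ 2 * 17 ^ (2 * c0)) :=
        mul_lt_mul_of_pos_left hc (by positivity)
      _ = _ := by ring
  generalize M * vol F₂ / (Real.pi ^ 2 * n ^ 2) = W at e1 e2 e3 hW0 hW1
  have e4 : 2 * W = ((z3 - 2 * z2 + z1 : ℤ) : ℝ) := by
    push_cast at e1 e2 e3 ⊢
    rw [← e1, ← e2, ← e3]
    ring
  rw [e4] at hW1
  have hW2 : (0 : ℝ) < ((z3 - 2 * z2 + z1 : ℤ) : ℝ) := by rw [← e4]; linarith
  have b1 : z3 - 2 * z2 + z1 < 1 := by exact_mod_cast hW1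
  have b2 : 0 < z3 - 2 * z2 + z1 := by exact_mod_cast hW2
  omega

end Pool.Agent.MP_54e5d7_al.Atc
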